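import Mathlib

/-!
Absorption: a finite-to-one family with dense range in a metric space whose isolated points are
dense can be moved bijectively onto the isolated points without changing limits.
-/

namespace Pool.Agent.MP_55a818_lc.H28

open Filter Topology Set

theorem homeo_of_dense {J Y Z : Type} [MetricSpace Y] [MetricSpace Z] {i : J → Y} {k : J → Z}
    (hi : DenseRange i) (hk : DenseRange k)
    (h1 : ∀ y, ∃ z, Tendsto k (comap i (𝓝 y)) (𝓝 z))
    (h2 : ∀ z, ∃ y, Tendsto i (comap k (𝓝 z)) (𝓝 y))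
    (h3 : ∀ j, Tendsto k (comap i (𝓝 (i j))) (𝓝 (k j)))
    (h4 : ∀ j, Tendsto i (comap k (𝓝 (k j))) (𝓝 (i j))) : Nonempty (Y ≃ₜ Z) := by
  have key : ∀ {Y Z : Type} [MetricSpace Y] [MetricSpace Z] {i : J → Y} {k : J → Z},
      DenseRange i → (∀ y, ∃ z, Tendsto k (comap i (𝓝 y)) (𝓝 z)) →
      (∀ j, Tendsto k (comap i (𝓝 (i j))) (𝓝 (k j))) →
      ∃ F : Y → Z, Continuous F ∧ ∀ j, F (i j) = k j := by
    intro Y Z _ _ i k hi h1 h3
    let _ : TopologicalSpace J := TopologicalSpace.induced i inferInstance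
    have di : IsDenseInducing i := ⟨⟨rfl⟩, hi⟩
    exact ⟨di.extend k, di.continuous_extend h1, fun j => di.extend_eq_of_tendsto (h3 j)⟩
  obtain ⟨F, hF, hF'⟩ := key hi h1 h3
  obtain ⟨G, hG, hG'⟩ := key hk h2 h4
  refine ⟨⟨⟨F, G, fun y => ?_, fun z => ?_⟩, hF, hG⟩⟩
  · exact hi.induction_on y (isClosed_eq (hG.comp hF) continuous_id) fun j => by rw [hF', hG']
  · exact hk.induction_on z (isClosed_eq (hF.comp hG) continuous_id) fun j => by rw [hG', hF']

theorem exists_inj_choice {β : Type} (A : ℕ → Set β) (hA : ∀ n, (A n).Infinite) :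
    ∃ α : ℕ → β, Function.Injective α ∧ ∀ n, α n ∈ A n := by
  classical
  choose g hg using fun n (s : Finset β) => (hA n).exists_notMem_finset s
  let S : ℕ → Finset β := fun n => Nat.rec ∅ (fun n s => insert (g n s) s) n
  have hS : Monotone S := monotone_nat_of_le_succ fun n => Finset.subset_insert _ _
  refine ⟨fun n => g n (S n), ?_, fun n => (hg n _).1⟩
  have : ∀ m n, m < n → g m (S m) ≠ g n (S n) := by
    intro m n h e
    exact (hg n (S n)).2 (e ▸ hS h (Finset.mem_insert_self _ _))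
  intro m n e
  rcases lt_trichotomy m n with h | h | h
  · exact absurd e (this m n h)
  · exact h
  · exact absurd e.symm (this n m h)

variable {M : Type} [MetricSpace M]

/-- the isolated points -/
def Iso (M : Type) [MetricSpace M] : Set M := {x | IsOpen ({x} : Set M)}

theorem isOpen_iso : IsOpen (Iso M) :=
  isOpen_iff_forall_mem_open.2 fun x hx => ⟨{x}, by simpa using hx, hx, rfl⟩

theorem infinite_iso_inter (hd : Dense (Iso M)) {z : M} (hz : z ∉ Iso M) {U : Set M}
    (hU : IsOpen U) (hzU : z ∈ U) : (Iso M ∩ U).Infinite := by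
  intro hf
  have h1 : IsOpen (U \ (Iso M ∩ U)) := hU.sdiff hf.isClosed
  obtain ⟨y, hy1, hy2⟩ := hd.inter_open_nonempty _ h1 ⟨z, hzU, fun h => hz h.1⟩
  exact hy1.2 ⟨hy2, hy1.1⟩

theorem absorb_inj {J : Type} [Countable J] (hd : Dense (Iso M)) (hne : (Iso M)ᶜ.Nonempty)
    {p : J → M} (hp : ∀ m, {j | p j = m}.Finite) :
    ∃ α : J → M, Function.Injective α ∧ (∀ j, α j ∈ Iso M) ∧ ∀ z ∉ Iso M,
      Tendsto α (cofinite ⊓ comap p (𝓝 z)) (𝓝 z) ∧ Tendsto p (cofinite ⊓ comap α (𝓝 z)) (𝓝 z) := by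
  classical
  obtain ⟨enc, henc⟩ := Countable.exists_injective_nat J
  let η : M → ℝ := fun x => Metric.infDist x (Iso M)ᶜ
  have hpos : ∀ x ∈ Iso M, ∃ n : ℕ, (1 / 2 : ℝ) ^ n ≤ η x := by
    intro x hx
    have : 0 < η x := (isOpen_iso.isClosed_compl.notMem_iff_infDist_pos hne).1 (by simpa using hx)
    obtain ⟨n, hn⟩ := exists_pow_lt_of_lt_one this (show (1 / 2 : ℝ) < 1 by norm_num)
    exact ⟨n, hn.le⟩
  let lev : M → ℕ := fun x => if h : x ∈ Iso M then Nat.find (hpos x h) else 0
  let r : M → ℝ := fun x => (1 / 2) ^ lev x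
  have hr0 : ∀ x, 0 < r x := fun x => by simp only [r]; positivity
  have hr1 : ∀ x ∈ Iso M, r x ≤ η x := fun x hx => by
    simp only [r, lev, dif_pos hx]; exact Nat.find_spec (hpos x hx)
  have hr2 : ∀ x ∈ Iso M, lev x = 0 ∨ η x < 2 * r x := fun x hx => by
    simp only [r, lev, dif_pos hx]
    rcases h : Nat.find (hpos x hx) with _ | n
    · exact Or.inl rfl
    · have := Nat.find_min (hpos x hx) (show n < _ by rw [h]; exact Nat.lt_succ_self n)
      right
      rw [pow_succ]; linarith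
  let Rich : M → Set M := fun x =>
    {y | y ∈ Iso M ∧ (lev x = 0 ∨ dist x y ≤ 10 * r x) ∧ r x ≤ η y}
  let A : J → Set M := fun j => if p j ∈ Iso M then
    (if (Rich (p j)).Infinite then Rich (p j)
      else {y | y ∈ Iso M ∧ (lev (p j) = 0 ∨ dist (p j) y ≤ 2 * r (p j))})
    else Iso M ∩ Metric.ball (p j) ((1 / 2) ^ enc j)
  obtain ⟨z0, hz0⟩ := id hne
  have hinf : (Iso M).Infinite :=
    (infinite_iso_inter hd hz0 isOpen_univ trivial).mono inter_subset_left
  have hA : ∀ j, (A j).Infinite := by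
    intro j
    simp only [A]
    split_ifs with h1 h2
    · exact h2
    · rcases hr2 _ h1 with h | h
      · exact hinf.mono fun y hy => ⟨hy, Or.inl h⟩
      · obtain ⟨z, hz, hz'⟩ := (Metric.infDist_lt_iff hne).1 h
        refine (infinite_iso_inter hd hz (Metric.isOpen_ball (x := p j) (ε := 2 * r (p j)))
          (by rw [Metric.mem_ball, dist_comm]; exact hz')).mono ?_
        rintro y ⟨hy, hy'⟩
        exact ⟨hy, Or.inr (by rw [dist_comm]; exact le_of_lt hy')⟩
    · exact infinite_iso_inter hd h1 Metric.isOpen_ball (Metric.mem_ball_self (by positivity))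
  obtain ⟨α', hα', hmem⟩ := exists_inj_choice (Function.extend enc A fun _ => Iso M) (by
    intro n
    by_cases h : ∃ j, enc j = n
    · obtain ⟨j, rfl⟩ := h
      rw [henc.extend_apply]; exact hA j
    · rw [Function.extend_apply' _ _ _ h]; exact hinf)
  set α : J → M := fun j => α' (enc j) with hα
  have hαA : ∀ j, α j ∈ A j := fun j => by
    have := hmem (enc j)
    rwa [henc.extend_apply] at this
  have c1 : ∀ j, p j ∉ Iso M → α j ∈ Iso M ∧ dist (p j) (α j) < (1 / 2) ^ enc j := by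
    intro j h
    have := hαA j
    simp only [A, if_neg h] at this
    exact ⟨this.1, by rw [dist_comm]; exact this.2⟩
  have c2 : ∀ j, p j ∈ Iso M → α j ∈ Iso M ∧ (lev (p j) = 0 ∨ dist (p j) (α j) ≤ 10 * r (p j)) ∧
      (r (p j) ≤ η (α j) ∨ ((Rich (p j)).Finite ∧
        (lev (p j) = 0 ∨ dist (p j) (α j) ≤ 2 * r (p j)))) := by
    intro j h
    have := hαA j
    simp only [A, if_pos h] at this
    split_ifs at this with h2
    · exact ⟨this.1, this.2.1, Or.inl this.2.2⟩
    · refine ⟨this.1, this.2.imp_right fun h => by linarith [hr0 (p j)],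
        Or.inr ⟨not_infinite.1 h2, this.2⟩⟩
  have small : ∀ ε > 0, ∀ᶠ j in cofinite, (1 / 2 : ℝ) ^ enc j < ε := fun ε hε =>
    ((tendsto_pow_atTop_nhds_zero_of_lt_one (r := (1 / 2 : ℝ)) (by norm_num) (by norm_num)).comp
      (Nat.cofinite_eq_atTop ▸ henc.tendsto_cofinite)).eventually (gt_mem_nhds hε)
  refine ⟨α, hα'.comp henc, fun j => by
    by_cases h : p j ∈ Iso M
    exacts [(c2 j h).1, (c1 j h).1], fun z hz => ⟨?_, ?_⟩⟩
  · rw [Metric.tendsto_nhds]
    intro ε hε
    have hδ : 0 < min 1 (ε / 11) := lt_min one_pos (by positivity)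
    have e1 := (small _ hδ).filter_mono (inf_le_left (b := comap p (𝓝 z)))
    have e2 : ∀ᶠ j in cofinite ⊓ comap p (𝓝 z), dist (p j) z < min 1 (ε / 11) :=
      (Metric.tendsto_nhds.1 tendsto_comap _ hδ).filter_mono inf_le_right
    filter_upwards [e1, e2] with j h1 h2
    rw [lt_min_iff] at h1 h2
    have t := dist_triangle_left (α j) z (p j)
    by_cases h : p j ∈ Iso M
    · have h3 : η (p j) ≤ dist (p j) z := Metric.infDist_le_dist_of_mem hz
      have h4 := hr1 _ h
      rcases (c2 j h).2.1 with h5 | h5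
      · simp only [r, h5, pow_zero] at h4; linarith
      · linarith
    · linarith [(c1 j h).2]
  · rw [Metric.tendsto_nhds]
    intro ε hε
    obtain ⟨N, hN⟩ := exists_pow_lt_of_lt_one (show 0 < ε / 11 by positivity)
      (show (1 / 2 : ℝ) < 1 by norm_num)
    have hδ : (0 : ℝ) < (1 / 2) ^ N := by positivity
    have bad : ∀ n, {j | p j ∈ Iso M ∧ lev (p j) = n ∧ dist (α j) z < (1 / 2) ^ n}.Finite := by
      intro n
      rcases eq_empty_or_nonempty
        {j | p j ∈ Iso M ∧ lev (p j) = n ∧ dist (α j) z < (1 / 2) ^ n} with h | ⟨j1, hj1⟩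
      · rw [h]; exact finite_empty
      have poor : ∀ j, p j ∈ Iso M → lev (p j) = n → dist (α j) z < (1 / 2) ^ n →
          (Rich (p j)).Finite ∧ (n = 0 ∨ dist (p j) (α j) ≤ 2 * (1 / 2) ^ n) := by
        intro j h1 h2 h3
        have h4 : η (α j) ≤ dist (α j) z := Metric.infDist_le_dist_of_mem hz
        have := (c2 j h1).2.2
        simp only [r, h2] at this
        exact this.resolve_left (by linarith)
      refine (((poor j1 hj1.1 hj1.2.1 hj1.2.2).1).biUnion fun m _ => hp m).subset ?_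
      rintro j ⟨h1, h2, h3⟩
      refine mem_biUnion (show p j ∈ Rich (p j1) from ⟨h1, ?_, ?_⟩) rfl
      · simp only [r, hj1.2.1]
        rcases (poor j1 hj1.1 hj1.2.1 hj1.2.2).2 with h4 | h4
        · exact Or.inl h4
        rcases (poor j h1 h2 h3).2 with h5 | h5
        · exact Or.inl h5
        right
        have t1 := dist_triangle4 (p j1) (α j1) z (p j)
        have t2 := dist_triangle_left z (p j) (α j)
        rw [dist_comm (α j) (p j)] at t2
        have : (0 : ℝ) < (1 / 2) ^ n := by positivity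
        linarith [hj1.2.2]
      · have := hr1 _ h1
        simp only [r, hj1.2.1, h2] at this ⊢
        exact this
    have e0 : ∀ᶠ j in cofinite, ∀ n ∈ Finset.range (N + 1),
        ¬(p j ∈ Iso M ∧ lev (p j) = n ∧ dist (α j) z < (1 / 2) ^ n) :=
      (eventually_all_finset _).2 fun n _ => (bad n).compl_mem_cofinite
    have e1 := ((small _ hδ).and e0).filter_mono (inf_le_left (b := comap α (𝓝 z)))
    have e2 : ∀ᶠ j in cofinite ⊓ comap α (𝓝 z), dist (α j) z < (1 / 2) ^ N :=
      (Metric.tendsto_nhds.1 tendsto_comap _ hδ).filter_mono inf_le_right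
    filter_upwards [e1, e2] with j h1 h2
    have t := dist_triangle (p j) (α j) z
    by_cases h : p j ∈ Iso M
    · have h3 : N < lev (p j) := by
        by_contra hle
        refine h1.2 (lev (p j)) (Finset.mem_range.2 (by omega)) ⟨h, rfl, h2.trans_le ?_⟩
        exact pow_le_pow_of_le_one (by norm_num) (by norm_num) (by omega)
      have h4 : r (p j) ≤ (1 / 2) ^ N := pow_le_pow_of_le_one (by norm_num) (by norm_num) h3.le
      have h5 := (c2 j h).2.1.resolve_left (by omega)
      linarith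
    · linarith [(c1 j h).2, h1.1]

theorem absorb {J : Type} [Countable J] (hd : Dense (Iso M)) (hne : (Iso M)ᶜ.Nonempty)
    {p : J → M} (hp : ∀ m, {j | p j = m}.Finite) (hpd : DenseRange p) :
    ∃ ψ : J → M, Function.Injective ψ ∧ range ψ = Iso M ∧ ∀ z ∉ Iso M,
      Tendsto ψ (cofinite ⊓ comap p (𝓝 z)) (𝓝 z) ∧ Tendsto p (cofinite ⊓ comap ψ (𝓝 z)) (𝓝 z) := by
  obtain ⟨α, h1, h2, h3⟩ := absorb_inj hd hne hp
  have hs : ∀ x : Iso M, ∃ j, p j = x := fun x => by
    obtain ⟨j, hj⟩ := hpd.exists_mem_open x.2 (singleton_nonempty _)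
    exact ⟨j, hj⟩
  choose β hβ using hs
  obtain ⟨ψ, hψ, hR⟩ := Function.Embedding.schroeder_bernstein_of_rel
    (f := fun j => (⟨α j, h2 j⟩ : Iso M)) (g := β)
    (fun a b h => h1 (congrArg Subtype.val h))
    (fun a b h => Subtype.ext (by rw [← hβ, ← hβ, h])) (fun j x => (x : M) = α j ∨ (x : M) = p j)
    (fun _ => Or.inl rfl) (fun x => Or.inr (hβ x).symm)
  refine ⟨fun j => ψ j, Subtype.val_injective.comp hψ.1, ?_, fun z hz => ⟨?_, ?_⟩⟩
  · ext x
    refine ⟨by rintro ⟨j, rfl⟩; exact (ψ j).2, fun hx => ?_⟩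
    obtain ⟨j, hj⟩ := hψ.2 ⟨x, hx⟩
    exact ⟨j, congrArg Subtype.val hj⟩
  · intro U hU
    have e1 := (h3 z hz).1 hU
    have e2 : p ⁻¹' U ∈ cofinite ⊓ comap p (𝓝 z) := mem_inf_of_right (preimage_mem_comap hU)
    rw [mem_map] at e1 ⊢
    filter_upwards [e1, e2] with j e1 e2
    rcases hR j with h | h <;> simp only [mem_preimage, h]
    exacts [e1, e2]
  · intro U hU
    have e1 := (h3 z hz).2 hU
    rw [mem_map, mem_inf_iff] at e1
    obtain ⟨F, hF, G, ⟨V, hV, hG⟩, hFG⟩ := e1
    have e2 : (fun j => (ψ j : M)) ⁻¹' (U ∩ V) ∈ cofinite ⊓ comap (fun j => (ψ j : M)) (𝓝 z) :=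
      mem_inf_of_right (preimage_mem_comap (inter_mem hU hV))
    rw [mem_map]
    filter_upwards [mem_inf_of_left hF, e2] with j e1 e2
    rcases hR j with h | h
    · rw [hFG]
      exact ⟨e1, hG (by simpa only [mem_preimage, ← h] using e2.2)⟩
    · simpa only [mem_preimage, ← h] using e2.1

end Pool.Agent.MP_55a818_lc.H28
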