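import Mathlib

/-!
Computable Polish spaces, oracle-computable maps and degrees of topological categoricity.
-/

namespace Pool.Agent.MP_55a818_lc.H28

/-- The completion of a computable metric space: a complete metric space with a dense sequence
whose mutual distances are uniformly computable reals. -/
structure CMS : Type 1 where
  carrier : Type
  met : MetricSpace carrier
  complete : CompleteSpace carrier
  c : ℕ → carrier
  dense : DenseRange c
  comp : ∃ q : ℕ × ℕ × ℕ → ℕ, Computable q ∧
    ∀ i j n : ℕ, |dist (c i) (c j) - (q (i, j, n) : ℝ) / 2 ^ n| ≤ 1 / 2 ^ n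

attribute [instance] CMS.met

/-- `p` is a fast Cauchy sequence of indices converging to `x`. -/
def IsName (M : CMS) (p : ℕ → ℕ) (x : M.carrier) : Prop :=
  (∀ n m : ℕ, n ≤ m → dist (M.c (p n)) (M.c (p m)) ≤ 1 / 2 ^ n) ∧
    Filter.Tendsto (fun n => M.c (p n)) Filter.atTop (nhds x)

/-- The characteristic function of `A`, as an oracle. -/
noncomputable def chi (A : Set ℕ) : ℕ →. ℕ := fun n => Part.some (A.indicator (fun _ => 1) n)

/-- Type-2 computability relative to `A`: an `A`-computable monotone map `h` on finite words
sends the initial segments of any name of `x` to longer and longer initial segments of a name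
of `f x`. -/
def CompMap (A : Set ℕ) (M N : CMS) (f : M.carrier → N.carrier) : Prop :=
  ∃ h : List ℕ → List ℕ, ComputableIn {chi A} h ∧ (∀ u v, u <+: v → h u <+: h v) ∧
    ∀ p x, IsName M p x → ∃ q, IsName N q (f x) ∧
      ∀ n, ∃ k, (List.range n).map q <+: h ((List.range k).map p)

/-- `X` is a computable Polish space. -/
def CompPolish (X : Type) [TopologicalSpace X] : Prop :=
  ∃ M : CMS, Nonempty (M.carrier ≃ₜ X)

/-- `X` is `A`-categorical. -/
def Categ (A : Set ℕ) (X : Type) [TopologicalSpace X] : Prop :=
  ∀ M N : CMS, Nonempty (M.carrier ≃ₜ X) → Nonempty (N.carrier ≃ₜ X) →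
    ∃ f : M.carrier ≃ₜ N.carrier, CompMap A M N f

/-- The Turing degree of `D` is the degree of categoricity of `X`. -/
def IsDegCat (D : Set ℕ) (X : Type) [TopologicalSpace X] : Prop :=
  Categ D X ∧ ∀ A : Set ℕ, Categ A X → TuringReducible (chi D) (chi A)

end Pool.Agent.MP_55a818_lc.H28
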