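import Mathlib

/-!
Closure properties of `Computable`, registered for `fun_prop`.
-/

namespace Pool.Agent.MP_55a818_lc.H28

open Encodable

attribute [fun_prop] Computable

variable {α β γ δ σ : Type} [Primcodable α] [Primcodable β] [Primcodable γ] [Primcodable δ]
  [Primcodable σ]

@[fun_prop] theorem c_id : Computable fun a : α => a := Computable.id
@[fun_prop] theorem c_const (b : β) : Computable fun _ : α => b := Computable.const b
@[fun_prop] theorem c_comp {f : β → σ} {g : α → β} (hf : Computable f) (hg : Computable g) :
    Computable fun a => f (g a) := hf.comp hg
@[fun_prop] theorem c_fst {f : α → β × γ} (hf : Computable f) : Computable fun a => (f a).1 :=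
  Computable.fst.comp hf
@[fun_prop] theorem c_snd {f : α → β × γ} (hf : Computable f) : Computable fun a => (f a).2 :=
  Computable.snd.comp hf
@[fun_prop] theorem c_pair {f : α → β} {g : α → γ} (hf : Computable f) (hg : Computable g) :
    Computable fun a => (f a, g a) := hf.pair hg

section nat
variable {f g : α → ℕ}

@[fun_prop] theorem c_add (hf : Computable f) (hg : Computable g) :
    Computable fun a => f a + g a := Primrec.nat_add.to_comp.comp hf hg
@[fun_prop] theorem c_sub (hf : Computable f) (hg : Computable g) :
    Computable fun a => f a - g a := Primrec.nat_sub.to_comp.comp hf hg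
@[fun_prop] theorem c_mul (hf : Computable f) (hg : Computable g) :
    Computable fun a => f a * g a := Primrec.nat_mul.to_comp.comp hf hg
@[fun_prop] theorem c_div (hf : Computable f) (hg : Computable g) :
    Computable fun a => f a / g a := Primrec.nat_div.to_comp.comp hf hg
@[fun_prop] theorem c_mod (hf : Computable f) (hg : Computable g) :
    Computable fun a => f a % g a := Primrec.nat_mod.to_comp.comp hf hg
@[fun_prop] theorem c_pow (hf : Computable f) (hg : Computable g) :
    Computable fun a => f a ^ g a :=
  (Primrec₂.unpaired'.1 Nat.Primrec.pow).to_comp.comp hf hg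
@[fun_prop] theorem c_min (hf : Computable f) (hg : Computable g) :
    Computable fun a => min (f a) (g a) := Primrec.nat_min.to_comp.comp hf hg
@[fun_prop] theorem c_max (hf : Computable f) (hg : Computable g) :
    Computable fun a => max (f a) (g a) := Primrec.nat_max.to_comp.comp hf hg
@[fun_prop] theorem c_succ (hf : Computable f) : Computable fun a => (f a).succ :=
  Computable.succ.comp hf
@[fun_prop] theorem c_natPair (hf : Computable f) (hg : Computable g) :
    Computable fun a => Nat.pair (f a) (g a) := Primrec₂.natPair.to_comp.comp hf hg
@[fun_prop] theorem c_unpair (hf : Computable f) : Computable fun a => Nat.unpair (f a) :=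
  Computable.unpair.comp hf
@[fun_prop] theorem c_ble (hf : Computable f) (hg : Computable g) :
    Computable fun a => Nat.ble (f a) (g a) :=
  (Primrec.nat_le.decide.to_comp.comp hf hg).of_eq fun a => by
    rw [Bool.eq_iff_iff]; simp
@[fun_prop] theorem c_blt (hf : Computable f) (hg : Computable g) :
    Computable fun a => Nat.blt (f a) (g a) :=
  (Primrec.nat_lt.decide.to_comp.comp hf hg).of_eq fun a => by
    rw [Bool.eq_iff_iff]; simp
@[fun_prop] theorem c_range (hf : Computable f) : Computable fun a => List.range (f a) :=
  Primrec.list_range.to_comp.comp hf
@[fun_prop] theorem c_dist (hf : Computable f) (hg : Computable g) :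
    Computable fun a => Nat.dist (f a) (g a) := by
  unfold Nat.dist; fun_prop
end nat

@[fun_prop] theorem c_beq [DecidableEq β] {f g : α → β} (hf : Computable f) (hg : Computable g) :
    Computable fun a => (f a == g a) := Primrec.beq.to_comp.comp hf hg
@[fun_prop] theorem c_and {f g : α → Bool} (hf : Computable f) (hg : Computable g) :
    Computable fun a => (f a && g a) := Primrec.and.to_comp.comp hf hg
@[fun_prop] theorem c_or {f g : α → Bool} (hf : Computable f) (hg : Computable g) :
    Computable fun a => (f a || g a) := Primrec.or.to_comp.comp hf hg
@[fun_prop] theorem c_not {f : α → Bool} (hf : Computable f) :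
    Computable fun a => (!f a) := Primrec.not.to_comp.comp hf
@[fun_prop] theorem c_cond {c : α → Bool} {f g : α → β} (hc : Computable c) (hf : Computable f)
    (hg : Computable g) : Computable fun a => cond (c a) (f a) (g a) := hc.cond hf hg
@[fun_prop] theorem c_encode {f : α → β} (hf : Computable f) :
    Computable fun a => encode (f a) := Computable.encode.comp hf
@[fun_prop] theorem c_decode {f : α → ℕ} (hf : Computable f) :
    Computable fun a => decode (α := β) (f a) := Computable.decode.comp hf
@[fun_prop] theorem c_ofNat {β : Type} [Denumerable β] {f : α → ℕ} (hf : Computable f) :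
    Computable fun a => Denumerable.ofNat β (f a) := (Computable.ofNat β).comp hf

section option
@[fun_prop] theorem c_some {f : α → β} (hf : Computable f) : Computable fun a => some (f a) :=
  Computable.option_some.comp hf
@[fun_prop] theorem c_getD {f : α → Option β} {g : α → β} (hf : Computable f) (hg : Computable g) :
    Computable fun a => (f a).getD (g a) := hf.option_getD hg
@[fun_prop] theorem c_isSome {f : α → Option β} (hf : Computable f) :
    Computable fun a => (f a).isSome := Primrec.option_isSome.to_comp.comp hf
@[fun_prop] theorem c_obind {f : α → Option β} {g : α → β → Option σ} (hf : Computable f)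
    (hg : Computable fun p : α × β => g p.1 p.2) : Computable fun a => (f a).bind (g a) :=
  hf.option_bind hg
@[fun_prop] theorem c_omap {f : α → Option β} {g : α → β → σ} (hf : Computable f)
    (hg : Computable fun p : α × β => g p.1 p.2) : Computable fun a => (f a).map (g a) :=
  hf.option_map hg
end option

@[fun_prop] theorem c_natRec {f : α → ℕ} {g : α → σ} {h : α → ℕ → σ → σ} (hf : Computable f)
    (hg : Computable g) (hh : Computable fun p : α × ℕ × σ => h p.1 p.2.1 p.2.2) :
    Computable fun a => Nat.rec (motive := fun _ => σ) (g a) (h a) (f a) :=
  Computable.nat_rec (h := fun a p => h a p.1 p.2) hf hg hh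

section list
@[fun_prop] theorem c_cons {f : α → β} {g : α → List β} (hf : Computable f) (hg : Computable g) :
    Computable fun a => f a :: g a := Computable.list_cons.comp hf hg
@[fun_prop] theorem c_append {f g : α → List β} (hf : Computable f) (hg : Computable g) :
    Computable fun a => f a ++ g a := Computable.list_append.comp hf hg
@[fun_prop] theorem c_length {f : α → List β} (hf : Computable f) :
    Computable fun a => (f a).length := Computable.list_length.comp hf
@[fun_prop] theorem c_getElem? {f : α → List β} {g : α → ℕ} (hf : Computable f)
    (hg : Computable g) : Computable fun a => (f a)[g a]? :=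
  Computable.list_getElem?.comp hf hg
@[fun_prop] theorem c_lgetD {f : α → List β} {g : α → ℕ} {d : α → β} (hf : Computable f)
    (hg : Computable g) (hd : Computable d) : Computable fun a => (f a).getD (g a) (d a) := by
  simp only [List.getD_eq_getElem?_getD]; fun_prop
@[fun_prop] theorem c_take {f : α → List β} {g : α → ℕ} (hg : Computable g)
    (hf : Computable f) : Computable fun a => (f a).take (g a) :=
  Primrec.list_take.to_comp.comp hg hf

theorem foldl_eq_rec {β σ : Type} (l : List β) (x : σ) (h : σ → β → σ) (n : ℕ) :
    (l.take n).foldl h x =
      Nat.rec (motive := fun _ => σ) x (fun i s => (l[i]?.map (h s)).getD s) n := by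
  induction n with
  | zero => simp
  | succ n ih =>
    rw [List.take_add_one, List.foldl_append, ih]
    cases hl : l[n]? <;> simp [hl]

@[fun_prop] theorem c_foldl {f : α → List β} {g : α → σ} {h : α → σ → β → σ} (hf : Computable f)
    (hg : Computable g) (hh : Computable fun p : α × σ × β => h p.1 p.2.1 p.2.2) :
    Computable fun a => (f a).foldl (h a) (g a) := by
  have : Computable fun a => Nat.rec (motive := fun _ => σ) (g a)
      (fun i s => ((f a)[i]?.map (h a s)).getD s) (f a).length := by
    fun_prop
  refine this.of_eq fun a => ?_
  rw [← foldl_eq_rec, List.take_length]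

@[fun_prop] theorem c_map {f : α → List β} {g : α → β → σ} (hf : Computable f)
    (hg : Computable fun p : α × β => g p.1 p.2) : Computable fun a => (f a).map (g a) := by
  have : Computable fun a => (f a).foldl (fun s b => s ++ [g a b]) [] := by fun_prop
  refine this.of_eq fun a => ?_
  have : ∀ (l : List β) (s : List σ), l.foldl (fun s b => s ++ [g a b]) s = s ++ l.map (g a) := by
    intro l; induction l <;> simp [*]
  simp [this]

@[fun_prop] theorem c_all {f : α → List β} {g : α → β → Bool} (hf : Computable f)
    (hg : Computable fun p : α × β => g p.1 p.2) : Computable fun a => (f a).all (g a) := by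
  have : Computable fun a => (f a).foldl (fun s b => s && g a b) true := by fun_prop
  refine this.of_eq fun a => ?_
  have : ∀ (l : List β) (s : Bool), l.foldl (fun s b => s && g a b) s = (s && l.all (g a)) := by
    intro l; induction l <;> simp [*, Bool.and_assoc]
  simp [this]

@[fun_prop] theorem c_any {f : α → List β} {g : α → β → Bool} (hf : Computable f)
    (hg : Computable fun p : α × β => g p.1 p.2) : Computable fun a => (f a).any (g a) := by
  have : Computable fun a => (f a).foldl (fun s b => s || g a b) false := by fun_prop
  refine this.of_eq fun a => ?_
  have : ∀ (l : List β) (s : Bool), l.foldl (fun s b => s || g a b) s = (s || l.any (g a)) := by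
    intro l; induction l <;> simp [*, Bool.or_assoc]
  simp [this]

@[fun_prop] theorem c_find? {f : α → List β} {g : α → β → Bool} (hf : Computable f)
    (hg : Computable fun p : α × β => g p.1 p.2) : Computable fun a => (f a).find? (g a) := by
  have : Computable fun a => (f a).foldl
      (fun (s : Option β) b => cond s.isSome s (cond (g a b) (some b) none)) none := by fun_prop
  refine this.of_eq fun a => ?_
  have : ∀ (l : List β) (s : Option β), l.foldl
      (fun (s : Option β) b => cond s.isSome s (cond (g a b) (some b) none)) s =
        (s.or (l.find? (g a))) := by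
    intro l
    induction l with
    | nil => simp
    | cons b l ih =>
      intro s
      rw [List.foldl_cons, ih]
      cases s <;> cases hb : g a b <;> simp [hb]
  simp [this]

@[fun_prop] theorem c_replicate {f : α → ℕ} {g : α → β} (hf : Computable f) (hg : Computable g) :
    Computable fun a => List.replicate (f a) (g a) := by
  have : Computable fun a => (List.range (f a)).map (fun _ => g a) := by fun_prop
  refine this.of_eq fun a => ?_
  simp [List.map_const']
end list

@[fun_prop] theorem c_evaln {k : α → ℕ} {c : α → Nat.Partrec.Code} {n : α → ℕ} (hk : Computable k)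
    (hc : Computable c) (hn : Computable n) :
    Computable fun a => Nat.Partrec.Code.evaln (k a) (c a) (n a) :=
  Nat.Partrec.Code.primrec_evaln.to_comp.comp ((hk.pair hc).pair hn)

/-- unbounded search with a Boolean test -/
theorem c_find {P : α → ℕ → Bool} (hP : Computable fun p : α × ℕ => P p.1 p.2)
    (hex : ∀ a, ∃ n, P a n = true) : Computable fun a => Nat.find (hex a) :=
  Computable.find (P := fun a n => P a n = true)
    (ComputablePred.computable_iff.2 ⟨_, hP, rfl⟩) hex

end Pool.Agent.MP_55a818_lc.H28
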