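import Mathlib
import Pool.Agent.MP_55a818_lc.H28.Comp

/-!
The use principle: functions recursive in a total oracle are given by computable functions of
finite initial segments of the oracle, and conversely.
-/

namespace Pool.Agent.MP_55a818_lc.H28

open Encodable Filter

/-- the initial segment of length `k` of `g` -/
def pre (g : ℕ → ℕ) (k : ℕ) : List ℕ := (List.range k).map g

@[simp] theorem length_pre (g : ℕ → ℕ) (k : ℕ) : (pre g k).length = k := by simp [pre]

theorem take_pre (g : ℕ → ℕ) {j k : ℕ} (h : j ≤ k) : (pre g k).take j = pre g j := by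
  simp [pre, ← List.map_take, List.take_range, min_eq_left h]

theorem pre_succ (g : ℕ → ℕ) (k : ℕ) : pre g (k + 1) = pre g k ++ [g k] := by
  simp [pre, List.range_succ]

theorem getElem?_pre (g : ℕ → ℕ) (k n : ℕ) :
    (pre g k)[n]? = if n < k then some (g n) else none := by
  unfold pre
  split_ifs with h
  · simp [h]
  · simp [h]

theorem pre_congr {g g' : ℕ → ℕ} {k : ℕ} (h : ∀ n < k, g n = g' n) : pre g k = pre g' k := by
  unfold pre
  apply List.map_congr_left
  intro n hn
  exact h n (List.mem_range.1 hn)

theorem pre_prefix (g : ℕ → ℕ) {j k : ℕ} (h : j ≤ k) : pre g j <+: pre g k := by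
  rw [← take_pre g h]; exact List.take_prefix _ _

section
variable {α β σ : Type} [Primcodable α] [Primcodable β] [Primcodable σ]

theorem p_bind {f : α → Part β} {g : α → β → Part σ} (hf : Partrec f)
    (hg : Partrec fun p : α × β => g p.1 p.2) : Partrec fun a => (f a).bind (g a) := hf.bind hg

theorem p_map {f : α → Part β} {g : α → β → σ} (hf : Partrec f)
    (hg : Computable fun p : α × β => g p.1 p.2) : Partrec fun a => (f a).map (g a) := hf.map hg

theorem p_comp {f : β → Part σ} (hf : Partrec f) (g : α → β) (hg : Computable g) :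
    Partrec fun a => f (g a) := hf.comp hg

theorem p_rfind {p : α → ℕ → Part Bool} (hp : Partrec fun q : α × ℕ => p q.1 q.2) :
    Partrec fun a => Nat.rfind (p a) := Partrec.rfind hp

theorem p_rec {f : α → ℕ} {g : α → Part σ} {h : α → ℕ → σ → Part σ} (hf : Computable f)
    (hg : Partrec g) (hh : Partrec fun q : α × ℕ × σ => h q.1 q.2.1 q.2.2) :
    Partrec fun a => Nat.rec (motive := fun _ => Part σ) (g a)
      (fun y IH => IH.bind fun i => h a y i) (f a) :=
  Partrec.nat_rec (h := fun a q => h a q.1 q.2) hf hg hh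
end

theorem nf {g : ℕ → ℕ} {F : ℕ →. ℕ} (hF : Nat.RecursiveIn {fun n => Part.some (g n)} F) :
    ∃ Φ : List ℕ × ℕ →. ℕ, Partrec Φ ∧ (∀ k n v, v ∈ Φ (pre g k, n) → v ∈ F n) ∧
      (∀ n v, v ∈ F n → ∀ᶠ k in atTop, v ∈ Φ (pre g k, n)) := by
  have base : ∀ f : ℕ → ℕ, Computable f → ∃ Φ : List ℕ × ℕ →. ℕ, Partrec Φ ∧
      (∀ k n v, v ∈ Φ (pre g k, n) → v ∈ Part.some (f n)) ∧
      (∀ n v, v ∈ Part.some (f n) → ∀ᶠ k in atTop, v ∈ Φ (pre g k, n)) := by
    intro f hf
    exact ⟨fun p => Part.some (f p.2), (hf.comp Computable.snd).partrec, fun _ _ _ h => h,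
      fun _ _ h => Eventually.of_forall fun _ => h⟩
  induction hF with
  | zero => exact base (fun _ => 0) (by fun_prop)
  | succ => exact base Nat.succ Computable.succ
  | left => exact base (fun n => n.unpair.1) (by fun_prop)
  | right => exact base (fun n => n.unpair.2) (by fun_prop)
  | oracle o ho =>
    obtain rfl : o = fun n => Part.some (g n) := ho
    refine ⟨fun p => (p.1[p.2]? : Option ℕ), Computable.ofOption (by fun_prop), ?_, ?_⟩
    · intro k n v hv
      simp only [getElem?_pre, Part.mem_ofOption, Option.mem_def] at hv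
      split_ifs at hv
      simpa using (Option.some.inj hv).symm
    · intro n v hv
      filter_upwards [eventually_gt_atTop n] with k hk
      simp only [getElem?_pre, Part.mem_ofOption, Option.mem_def, hk, if_true]
      simp at hv
      rw [hv]
  | pair _ _ ihf ihh =>
    obtain ⟨Φ, p1, s1, c1⟩ := ihf
    obtain ⟨Ψ, p2, s2, c2⟩ := ihh
    refine ⟨fun p => (Φ p).bind fun x => (Ψ p).map fun y => Nat.pair x y, ?_, ?_, ?_⟩
    · refine p_bind p1 (p_map (p_comp p2 _ (by fun_prop)) (by fun_prop))
    · intro k n v hv
      simp only [Part.mem_bind_iff, Part.mem_map_iff] at hv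
      obtain ⟨x, hx, y, hy, rfl⟩ := hv
      simp only [Seq.seq, Part.map_eq_map, Part.mem_bind_iff, Part.mem_map_iff]
      exact ⟨_, ⟨x, s1 _ _ _ hx, rfl⟩, y, s2 _ _ _ hy, rfl⟩
    · intro n v hv
      simp only [Seq.seq, Part.map_eq_map, Part.mem_bind_iff, Part.mem_map_iff] at hv
      obtain ⟨_, ⟨x, hx, rfl⟩, y, hy, rfl⟩ := hv
      filter_upwards [c1 _ _ hx, c2 _ _ hy] with k h1 h2
      simp only [Part.mem_bind_iff, Part.mem_map_iff]
      exact ⟨x, h1, y, h2, rfl⟩
  | comp _ _ ihf ihh =>
    obtain ⟨Φ, p1, s1, c1⟩ := ihf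
    obtain ⟨Ψ, p2, s2, c2⟩ := ihh
    refine ⟨fun p => (Ψ p).bind fun x => Φ (p.1, x), ?_, ?_, ?_⟩
    · refine p_bind p2 (p_comp p1 _ (by fun_prop))
    · intro k n v hv
      simp only [Part.mem_bind_iff] at hv
      obtain ⟨x, hx, hv⟩ := hv
      simp only [Part.bind_eq_bind, Part.mem_bind_iff]
      exact ⟨x, s2 _ _ _ hx, s1 _ _ _ hv⟩
    · intro n v hv
      simp only [Part.bind_eq_bind, Part.mem_bind_iff] at hv
      obtain ⟨x, hx, hv⟩ := hv
      filter_upwards [c2 _ _ hx, c1 _ _ hv] with k h1 h2
      simp only [Part.mem_bind_iff]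
      exact ⟨x, h1, h2⟩
  | @prec f h _ _ ihf ihh =>
    obtain ⟨Φ, p1, s1, c1⟩ := ihf
    obtain ⟨Ψ, p2, s2, c2⟩ := ihh
    refine ⟨fun p => Nat.rec (motive := fun _ => Part ℕ) (Φ (p.1, p.2.unpair.1))
      (fun y IH => IH.bind fun i => Ψ (p.1, Nat.pair p.2.unpair.1 (Nat.pair y i))) p.2.unpair.2,
      ?_, ?_, ?_⟩
    · refine p_rec (by fun_prop) (p_comp p1 _ (by fun_prop)) (p_comp p2 _ (by fun_prop))
    · intro k n
      simp only
      generalize n.unpair.2 = m
      induction m with
      | zero => intro v hv; exact s1 _ _ _ hv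
      | succ m ih =>
        intro v hv
        simp only [Part.mem_bind_iff, Part.bind_eq_bind] at hv ⊢
        obtain ⟨x, hx, hv⟩ := hv
        exact ⟨x, ih _ hx, s2 _ _ _ hv⟩
    · intro n
      simp only
      generalize n.unpair.2 = m
      induction m with
      | zero => intro v hv; exact c1 _ _ hv
      | succ m ih =>
        intro v hv
        simp only [Part.mem_bind_iff, Part.bind_eq_bind] at hv ⊢
        obtain ⟨x, hx, hv⟩ := hv
        filter_upwards [ih _ hx, c2 _ _ hv] with k h1 h2
        exact ⟨x, h1, h2⟩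
  | @rfind f _ ihf =>
    obtain ⟨Φ, p1, s1, c1⟩ := ihf
    refine ⟨fun p => Nat.rfind fun m => (Φ (p.1, Nat.pair p.2 m)).map fun z => z == 0, ?_, ?_, ?_⟩
    · refine p_rfind (p_map (p_comp p1 _ (by fun_prop)) (by fun_prop))
    · intro k n v hv
      simp only [Nat.mem_rfind, Part.mem_map_iff, Part.map_eq_map] at hv ⊢
      obtain ⟨⟨z, hz, hz0⟩, hlt⟩ := hv
      refine ⟨⟨z, s1 _ _ _ hz, by simpa using hz0⟩, fun {m} hm => ?_⟩
      obtain ⟨z, hz, hz0⟩ := hlt hm
      exact ⟨z, s1 _ _ _ hz, by simpa using hz0⟩
    · intro n v hv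
      simp only [Nat.mem_rfind, Part.mem_map_iff, Part.map_eq_map] at hv ⊢
      obtain ⟨⟨z, hz, hz0⟩, hlt⟩ := hv
      have h2 : ∀ᶠ k in atTop, ∀ m ∈ Finset.range v,
          ∃ z ∈ Φ (pre g k, Nat.pair n m), (z == 0) = false := by
        rw [Filter.eventually_all_finset]
        intro m hm
        obtain ⟨z, hz, hz0⟩ := hlt (Finset.mem_range.1 hm)
        filter_upwards [c1 _ _ hz] with k hk
        exact ⟨z, hk, by simpa using hz0⟩
      filter_upwards [c1 _ _ hz, h2] with k h1 h2
      exact ⟨⟨z, h1, by simpa using hz0⟩, fun {m} hm => h2 m (Finset.mem_range.2 hm)⟩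

/-- A total function computable in a total oracle has a computable approximation that reads
initial segments of the oracle. -/
theorem approx_of_computableIn {α β : Type} [Primcodable α] [Primcodable β] {g : ℕ → ℕ}
    {h : α → β} (hh : ComputableIn {fun n => Part.some (g n)} h) :
    ∃ ha : List ℕ × α → Option β, Computable ha ∧
      (∀ k u v, ha (pre g k, u) = some v → v = h u) ∧
      (∀ u, ∀ᶠ k in atTop, ha (pre g k, u) = some (h u)) := by
  obtain ⟨Φ, hΦ, hs, hc⟩ := nf hh
  obtain ⟨c, hcode⟩ := Nat.Partrec.Code.exists_code.1 hΦ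
  have hev : ∀ p : List ℕ × ℕ, c.eval (encode p) = Φ p := by
    intro p
    rw [hcode]
    simp only [encodek, Part.coe_some, Part.bind_some]
    exact Part.map_id' (fun _ => rfl) _
  let T : List ℕ × α → ℕ → Option ℕ := fun p j =>
    Nat.Partrec.Code.evaln p.1.length c (encode (p.1.take j, encode p.2))
  have hT : ∀ k u j z, j ≤ k → T (pre g k, u) j = some z → z = encode (h u) := by
    intro k u j z hj hz
    have := Nat.Partrec.Code.evaln_sound hz
    rw [hev] at this
    simp only [take_pre g hj] at this
    have := hs _ _ _ this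
    simpa using this
  refine ⟨fun p => (((List.range (p.1.length + 1)).find? fun j => (T p j).isSome).bind
    (T p)).bind fun z => decode z, by simp only [T]; fun_prop, ?_, ?_⟩
  · intro k u v hv
    simp only [Option.bind_eq_some_iff] at hv
    obtain ⟨z, ⟨j, hj, hz⟩, hv⟩ := hv
    have hjk := List.mem_of_find?_eq_some hj
    simp only [length_pre, List.mem_range] at hjk
    rw [hT k u j z (by omega) hz, encodek] at hv
    exact (Option.some.inj hv).symm
  · intro u
    obtain ⟨j, hj⟩ := (hc (encode u) (encode (h u)) (by simp)).exists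
    rw [← hev, Nat.Partrec.Code.evaln_complete] at hj
    obtain ⟨s, hs'⟩ := hj
    filter_upwards [eventually_ge_atTop j, eventually_ge_atTop s] with k hjk hsk
    have h1 : (T (pre g k, u) j).isSome := by
      have := Nat.Partrec.Code.evaln_mono hsk hs'
      simp only [T, length_pre, take_pre g hjk]
      rw [Option.mem_def] at this
      rw [this]; rfl
    have h2 : (((List.range ((pre g k).length + 1)).find? fun j =>
        (T (pre g k, u) j).isSome)).isSome := by
      rw [List.find?_isSome]
      exact ⟨j, by simp; omega, h1⟩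
    obtain ⟨j', hj'⟩ := Option.isSome_iff_exists.1 h2
    have h3 := List.find?_some hj'
    obtain ⟨z, hz⟩ := Option.isSome_iff_exists.1 h3
    have hjk' := List.mem_of_find?_eq_some hj'
    simp only [length_pre, List.mem_range] at hjk'
    simp only [hj', Option.bind_some, hz]
    rw [hT k u j' z (by omega) hz]
    simp

section converse
variable {O : Set (ℕ →. ℕ)}

theorem tot_comp {f g : ℕ → ℕ} (hf : Nat.RecursiveIn O fun n => Part.some (f n))
    (hg : Nat.RecursiveIn O fun n => Part.some (g n)) :
    Nat.RecursiveIn O fun n => Part.some (f (g n)) :=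
  (hf.comp hg).of_eq fun n => by simp

theorem tot_pair {f g : ℕ → ℕ} (hf : Nat.RecursiveIn O fun n => Part.some (f n))
    (hg : Nat.RecursiveIn O fun n => Part.some (g n)) :
    Nat.RecursiveIn O fun n => Part.some (Nat.pair (f n) (g n)) :=
  (hf.pair hg).of_eq fun n => by simp [Seq.seq]

theorem tot_comput {f : ℕ → ℕ} (hf : Computable f) :
    Nat.RecursiveIn O fun n => Part.some (f n) :=
  (Partrec.nat_iff.1 hf.partrec).recursiveIn

theorem tot_pre {g : ℕ → ℕ} (hg : Nat.RecursiveIn O fun n => Part.some (g n)) :
    Nat.RecursiveIn O fun k => Part.some (encode (pre g k)) := by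
  let step : ℕ → ℕ := fun z =>
    encode ((decode (α := List ℕ) z.unpair.1.unpair.2.unpair.2).getD [] ++ [z.unpair.2])
  have hstep : Computable step := by simp only [step]; fun_prop
  have h1 : Nat.RecursiveIn O fun z =>
      Part.some (step (Nat.pair z (g z.unpair.2.unpair.1))) :=
    tot_comp (tot_comput hstep) (tot_pair (tot_comput Computable.id)
      (tot_comp hg (tot_comput (by fun_prop))))
  have h2 := Nat.RecursiveIn.prec (tot_comput (O := O) (Computable.const (encode ([] : List ℕ)))) h1
  have h3 := h2.comp (tot_comput (O := O) (f := fun k => Nat.pair 0 k) (by fun_prop))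
  refine h3.of_eq fun k => ?_
  simp only [Part.bind_eq_bind, Part.bind_some, Nat.unpair_pair]
  induction k with
  | zero => rfl
  | succ k ih =>
    simp only [ih, Part.bind_some]
    simp [step, pre_succ]

/-- Conversely, a sound and complete computable approximation gives an oracle computation. -/
theorem computableIn_of_approx {α β : Type} [Primcodable α] [Primcodable β] {g : ℕ → ℕ}
    {h : α → β} {ha : List ℕ × α → Option β} (hc : Computable ha)
    (hs : ∀ k u v, ha (pre g k, u) = some v → v = h u)
    (he : ∀ u, ∃ k, (ha (pre g k, u)).isSome) :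
    ComputableIn {fun n => Part.some (g n)} h := by
  set O : Set (ℕ →. ℕ) := {fun n => Part.some (g n)}
  have hg : Nat.RecursiveIn O fun n => Part.some (g n) := .oracle _ rfl
  -- `val (pair n σ)` is the code of the approximation at input `n` and oracle segment `σ`
  let val : ℕ → Option ℕ := fun z => (decode (α := α) z.unpair.1).bind fun u =>
    (ha ((decode (α := List ℕ) z.unpair.2).getD [], u)).map encode
  have hval : Computable val := by simp only [val]; fun_prop
  have hP : Nat.RecursiveIn O fun z =>
      Part.some (Nat.pair z.unpair.1 (encode (pre g z.unpair.2))) :=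
    tot_pair (tot_comput (by fun_prop)) (tot_comp (f := fun k => encode (pre g k)) (tot_pre hg)
      (tot_comput (by fun_prop)))
  have hT := tot_comp (f := fun z => cond (val z).isSome 0 1) (tot_comput (by fun_prop)) hP
  have hV := tot_comp (f := fun z => (val z).getD 0) (tot_comput (by fun_prop)) hP
  have hR := hV.comp ((tot_comput (O := O) Computable.id).pair hT.rfind)
  refine hR.of_eq fun n => ?_
  have hv : ∀ k, val (Nat.pair n (encode (pre g k))) =
      (decode (α := α) n).bind fun u => (ha (pre g k, u)).map encode := by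
    intro k; simp [val]
  cases hd : decode (α := α) n with
  | none =>
    have : (Nat.rfind fun k => (fun m => decide (m = 0)) <$> Part.some
        (cond (val (Nat.pair (Nat.pair n k).unpair.1
          (encode (pre g (Nat.pair n k).unpair.2)))).isSome 0 1)) = Part.none := by
      rw [Part.eq_none_iff]
      intro k hk
      have := Nat.rfind_spec hk
      simp [hv, hd] at this
    rw [this]
    simp [Seq.seq]
  | some u =>
    have hex := he u
    have : (Nat.rfind fun k => (fun m => decide (m = 0)) <$> Part.some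
        (cond (val (Nat.pair (Nat.pair n k).unpair.1
          (encode (pre g (Nat.pair n k).unpair.2)))).isSome 0 1)) = Part.some (Nat.find hex) := by
      rw [Part.eq_some_iff, Nat.mem_rfind]
      constructor
      · have := Nat.find_spec hex
        simp [hv, hd, this]
      · intro m hm
        have := Nat.find_min hex hm
        simp only [Bool.not_eq_true, Option.isSome_eq_false_iff, Option.isNone_iff_eq_none] at this
        simp [hv, hd, this]
    rw [this]
    obtain ⟨w, hw⟩ := Option.isSome_iff_exists.1 (Nat.find_spec hex)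
    simp [Seq.seq, hv, hd, hw, hs _ _ _ hw]

end converse

end Pool.Agent.MP_55a818_lc.H28
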