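import Mathlib
import Pool.Agent.MP_55a818_lc.H28.Defs
import Pool.Agent.MP_55a818_lc.H28.Oracle

/-!
New computable copies from uniformly equivalent computable pseudometrics on the indices, and the
basic behaviour of oracle-computable maps on names.
-/

namespace Pool.Agent.MP_55a818_lc.H28

open Filter Topology

attribute [instance] CMS.complete

/-- pseudometric on the indices -/
structure IsPM (d : ℕ → ℕ → ℝ) : Prop where
  self : ∀ i, d i i = 0
  comm : ∀ i j, d i j = d j i
  tri : ∀ i j k, d i k ≤ d i j + d j k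

theorem IsPM.nonneg {d : ℕ → ℕ → ℝ} (h : IsPM d) (i j : ℕ) : 0 ≤ d i j := by
  have := h.tri i j i
  rw [h.self, h.comm j i] at this
  linarith

theorem isPM_dist {Y : Type} [PseudoMetricSpace Y] (v : ℕ → Y) :
    IsPM fun i j => dist (v i) (v j) :=
  ⟨fun _ => dist_self _, fun _ _ => dist_comm _ _, fun _ _ _ => dist_triangle _ _ _⟩

/-- `q` approximates `d` -/
def Apx (d : ℕ → ℕ → ℝ) (q : ℕ × ℕ × ℕ → ℕ) : Prop :=
  ∀ i j n : ℕ, |d i j - (q (i, j, n) : ℝ) / 2 ^ n| ≤ 1 / 2 ^ n

def CompD (d : ℕ → ℕ → ℝ) : Prop := ∃ q : ℕ × ℕ × ℕ → ℕ, Computable q ∧ Apx d q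

theorem Apx.scaled {d q} (h : Apx d q) (i j n : ℕ) : |d i j * 2 ^ n - q (i, j, n)| ≤ 1 := by
  have h2 : (0 : ℝ) < 2 ^ n := by positivity
  have := h i j n
  rw [show d i j * 2 ^ n - q (i, j, n) = (d i j - q (i, j, n) / 2 ^ n) * 2 ^ n by field_simp,
    abs_mul, abs_of_pos h2]
  rwa [le_div_iff₀ h2] at this

theorem Apx.le {d q} (h : Apx d q) {i j n m : ℕ} (hq : q (i, j, n) ≤ m) :
    d i j ≤ (m + 1) / 2 ^ n := by
  have := (abs_le.1 (h.scaled i j n)).2
  have h3 : (q (i, j, n) : ℝ) ≤ m := by exact_mod_cast hq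
  rw [le_div_iff₀ (by positivity)]
  linarith

theorem Apx.ge {d q} (h : Apx d q) {i j n m : ℕ} (hq : m + 1 ≤ q (i, j, n)) :
    (m : ℝ) / 2 ^ n ≤ d i j := by
  have := (abs_le.1 (h.scaled i j n)).1
  have h3 : ((m + 1 : ℕ) : ℝ) ≤ q (i, j, n) := by exact_mod_cast hq
  rw [div_le_iff₀ (by positivity)]
  push_cast at h3
  linarith

theorem Apx.q_le {d q} (h : Apx d q) {i j n m : ℕ} (hd : d i j < m / 2 ^ n) :
    q (i, j, n) ≤ m := by
  by_contra hlt
  exact absurd (h.ge (m := m) (by omega)) (not_le.2 hd)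

theorem Apx.q_ge {d q} (h : Apx d q) {i j n m : ℕ} (hd : (m : ℝ) / 2 ^ n < d i j) :
    m ≤ q (i, j, n) := by
  rcases m with _ | m
  · omega
  by_contra hlt
  have := h.le (m := m) (by omega : q (i, j, n) ≤ m)
  push_cast at hd
  linarith

theorem compD_of_err {d : ℕ → ℕ → ℝ} {q : ℕ × ℕ × ℕ → ℕ} {E : ℕ × ℕ → ℕ} (hq : Computable q)
    (hE : Computable E) (h : ∀ i j n, |d i j * 2 ^ n - q (i, j, n)| ≤ E (i, j)) : CompD d := by
  refine ⟨fun p => (q (p.1, p.2.1, p.2.2 + (E (p.1, p.2.1) + 1)) + 2 ^ E (p.1, p.2.1)) /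
    2 ^ (E (p.1, p.2.1) + 1), by fun_prop, fun i j n => ?_⟩
  simp only
  set e := E (i, j)
  have h1 := h i j (n + (e + 1))
  set z := q (i, j, n + (e + 1))
  have h2 : (e : ℝ) ≤ 2 ^ e := by exact_mod_cast Nat.lt_two_pow_self.le
  have h3 := Nat.div_add_mod (z + 2 ^ e) (2 ^ (e + 1))
  have h4 := Nat.mod_lt (z + 2 ^ e) (show 0 < 2 ^ (e + 1) by positivity)
  set w := (z + 2 ^ e) / 2 ^ (e + 1)
  set r := (z + 2 ^ e) % 2 ^ (e + 1)
  have h5 : (2 : ℝ) ^ (e + 1) * w + r = z + 2 ^ e := by exact_mod_cast h3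
  have h6 : (r : ℝ) ≤ 2 ^ (e + 1) := by exact_mod_cast h4.le
  have h7 : (0 : ℝ) ≤ r := by positivity
  have hp : (0 : ℝ) < 2 ^ n := by positivity
  have hp' : (0 : ℝ) < 2 ^ e := by positivity
  rw [show d i j - (w : ℝ) / 2 ^ n = (d i j * 2 ^ n - w) / 2 ^ n by field_simp, abs_div,
    abs_of_pos hp]
  gcongr
  rw [pow_add, pow_succ] at h1
  rw [pow_succ] at h5 h6
  rw [abs_le] at h1 ⊢
  constructor <;> nlinarith [h1.1, h1.2]

/-- uniform continuity of the identity from `d` to `d'` -/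
def UC (d d' : ℕ → ℕ → ℝ) : Prop := ∀ ε > 0, ∃ δ > 0, ∀ i j, d i j < δ → d' i j < ε

def W (d : ℕ → ℕ → ℝ) (_ : IsPM d) : Type := ℕ

noncomputable instance instW (d : ℕ → ℕ → ℝ) (h : IsPM d) : PseudoMetricSpace (W d h) where
  dist := d
  dist_self := h.self
  dist_comm := h.comm
  dist_triangle := h.tri

theorem copy {Y : Type} [MetricSpace Y] [CompleteSpace Y] {v : ℕ → Y} (hv : DenseRange v)
    {d : ℕ → ℕ → ℝ} (h : IsPM d) (hc : CompD d) (h1 : UC (fun i j => dist (v i) (v j)) d)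
    (h2 : UC d (fun i j => dist (v i) (v j))) :
    ∃ N : CMS, (∀ i j, dist (N.c i) (N.c j) = d i j) ∧
      ∃ f : N.carrier ≃ₜ Y, ∀ i, f (N.c i) = v i := by
  have hind : IsUniformInducing (fun i : W d h => v i) := by
    rw [Metric.isUniformInducing_iff, Metric.uniformContinuous_iff]
    refine ⟨fun ε hε => ?_, fun ε hε => ?_⟩
    · obtain ⟨δ, hδ, H⟩ := h2 ε hε
      exact ⟨δ, hδ, fun a b hab => H a b hab⟩
    · obtain ⟨δ, hδ, H⟩ := h1 ε hε
      exact ⟨δ, hδ, fun {a b} hab => H a b hab⟩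
  let pkg : AbstractCompletion (W d h) :=
    { space := Y
      coe := fun i => v i
      uniformStruct := inferInstance
      complete := inferInstance
      separation := inferInstance
      isUniformInducing := hind
      dense := hv }
  obtain ⟨q, hq, hq'⟩ := hc
  let e : UniformSpace.Completion (W d h) ≃ᵤ Y :=
    (UniformSpace.Completion.cPkg (α := W d h)).compareEquiv pkg
  refine ⟨⟨UniformSpace.Completion (W d h), inferInstance, inferInstance,
    fun i => ((show W d h from i) : UniformSpace.Completion (W d h)),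
    UniformSpace.Completion.denseRange_coe (α := W d h), q, hq, fun i j n => ?_⟩, fun i j => ?_,
    e.toHomeomorph, fun i => ?_⟩
  · rw [UniformSpace.Completion.dist_eq]; exact hq' i j n
  · exact UniformSpace.Completion.dist_eq _ _
  · exact (UniformSpace.Completion.cPkg (α := W d h)).compare_coe pkg i

theorem isName_const (M : CMS) (a : ℕ) : IsName M (fun _ => a) (M.c a) :=
  ⟨fun n m _ => by simp, tendsto_const_nhds⟩

theorem IsName.dist_le {M : CMS} {p : ℕ → ℕ} {x : M.carrier} (h : IsName M p x) (n : ℕ) :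
    dist (M.c (p n)) x ≤ 1 / 2 ^ n :=
  le_of_tendsto (tendsto_const_nhds.dist h.2)
    ((eventually_ge_atTop n).mono fun m hm => h.1 n m hm)

theorem isName_of_dist {M : CMS} {p : ℕ → ℕ} {x : M.carrier}
    (h : ∀ n, dist (M.c (p n)) x ≤ 1 / 2 ^ (n + 1)) : IsName M p x := by
  constructor
  · intro n m hnm
    have h3 : (1 : ℝ) / 2 ^ (m + 1) ≤ 1 / 2 ^ (n + 1) := by
      gcongr; norm_num
    have := dist_triangle_right (M.c (p n)) (M.c (p m)) x
    have e : (1 : ℝ) / 2 ^ n = 1 / 2 ^ (n + 1) + 1 / 2 ^ (n + 1) := by ring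
    linarith [h n, h m]
  · rw [tendsto_iff_dist_tendsto_zero]
    refine squeeze_zero (fun _ => dist_nonneg) h ?_
    simp only [one_div, ← inv_pow]
    exact (tendsto_pow_atTop_nhds_zero_of_lt_one (by norm_num) (by norm_num)).comp
      (tendsto_add_atTop_nat 1)

theorem exists_name_prefix (M : CMS) {x : M.carrier} {a m : ℕ}
    (hx : dist x (M.c a) ≤ 1 / 2 ^ (m + 1)) :
    ∃ p, IsName M p x ∧ pre p m = List.replicate m a := by
  have : ∀ n : ℕ, ∃ i, dist (M.c i) x ≤ 1 / 2 ^ (n + 1) := by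
    intro n
    obtain ⟨i, hi⟩ := M.dense.exists_dist_lt x (show (0 : ℝ) < 1 / 2 ^ (n + 1) by positivity)
    exact ⟨i, by rw [dist_comm]; exact hi.le⟩
  choose r hr using this
  refine ⟨fun n => if n < m then a else r n, isName_of_dist fun n => ?_, ?_⟩
  · split_ifs with h
    · rw [dist_comm]
      refine hx.trans ?_
      gcongr; norm_num
    · exact hr n
  · rw [pre_congr (g' := fun _ => a) fun n hn => if_pos hn]
    simp [pre, List.map_const']

theorem chi_eq (D : Set ℕ) : chi D = fun n => Part.some (D.indicator (fun _ => 1) n) := rfl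

theorem prefix_getElem? {u v : List ℕ} (h : u <+: v) {k y : ℕ} (hk : u[k]? = some y) :
    v[k]? = some y := by
  obtain ⟨t, rfl⟩ := h
  obtain ⟨hlt, -⟩ := List.getElem?_eq_some_iff.1 hk
  rw [List.getElem?_append_left hlt, hk]

/-- Queries to an oracle-computable map: an answer `⟨m, y⟩` to the query `(a, k)` says that the
closed ball of radius `2^-(m+1)` about `c a` is mapped into the closed ball of radius `2^-k`
about `c y`. -/
theorem compMap_query {D : Set ℕ} {M N : CMS} {f : M.carrier → N.carrier} (h : CompMap D M N f) :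
    ∃ B : List ℕ × ℕ × ℕ → Option ℕ, Computable B ∧
      (∀ j a k w, B (pre (D.indicator fun _ => 1) j, a, k) = some w → ∀ x,
        dist x (M.c a) ≤ 1 / 2 ^ (w.unpair.1 + 1) → dist (N.c w.unpair.2) (f x) ≤ 1 / 2 ^ k) ∧
      (∀ a k, ∀ᶠ j in atTop, (B (pre (D.indicator fun _ => 1) j, a, k)).isSome) := by
  obtain ⟨h, hc, hmono, hname⟩ := h
  obtain ⟨ha, hac, hs, he⟩ := approx_of_computableIn hc
  let A : List ℕ × ℕ × ℕ → ℕ → Option ℕ := fun p m =>
    ((ha (p.1, List.replicate m p.2.1)).bind fun l => l[p.2.2]?).map (Nat.pair m)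
  refine ⟨fun p => ((List.range (p.1.length + 1)).find? fun m => (A p m).isSome).bind (A p),
    by simp only [A]; fun_prop, ?_, ?_⟩
  · intro j a k w hw x hx
    simp only [Option.bind_eq_some_iff, A, Option.map_eq_some_iff] at hw
    obtain ⟨m, -, y, ⟨l, hl, hy⟩, rfl⟩ := hw
    simp only [Nat.unpair_pair] at hx ⊢
    obtain ⟨p, hp, hpm⟩ := exists_name_prefix M hx
    obtain ⟨q, hq, hqk⟩ := hname p x hp
    obtain ⟨k', hk'⟩ := hqk (k + 1)
    rw [hs _ _ _ hl, ← hpm] at hy
    have e1 := prefix_getElem? (hmono _ _ (pre_prefix p (le_max_left m k'))) hy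
    have e2 := prefix_getElem? (hk'.trans (hmono _ _ (pre_prefix p (le_max_right m k'))))
      (k := k) (y := q k) (by simp)
    rw [e1] at e2
    rw [Option.some.inj e2]
    exact hq.dist_le k
  · intro a k
    obtain ⟨q, -, hqk⟩ := hname _ _ (isName_const M a)
    obtain ⟨m, hm⟩ := hqk (k + 1)
    have e2 := prefix_getElem? hm (k := k) (y := q k) (by simp)
    simp only [List.map_const', List.length_range] at e2
    filter_upwards [he (List.replicate m a), eventually_ge_atTop m] with j hj hjm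
    have : (((List.range ((pre (D.indicator fun _ => 1) j).length + 1)).find? fun m =>
        (A (pre (D.indicator fun _ => 1) j, a, k) m).isSome)).isSome := by
      rw [List.find?_isSome]
      exact ⟨m, by simp; omega, by simp [A, hj, e2]⟩
    obtain ⟨m', hm'⟩ := Option.isSome_iff_exists.1 this
    simp only [hm', Option.bind_some]
    exact List.find?_some (p := fun m => (A (pre (D.indicator fun _ => 1) j, a, k) m).isSome) hm'

end Pool.Agent.MP_55a818_lc.H28
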