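import Mathlib
import Pool.Agent.MP_55a818_lc.H28.Copy

/-!
Computable copies of discrete spaces.
-/

namespace Pool.Agent.MP_55a818_lc.H28

open Filter Topology

theorem disc_copy {d : ℕ → ℕ → ℝ} (h : IsPM d) (hc : CompD d) (β : ℕ → ℕ) {δ : ℝ} (hδ : 0 < δ)
    (h1 : ∀ i k, d i k < δ → β i = β k)
    (h2 : ∀ b, ∃ ε > 0, ∀ i k, β i = b → β k = b → d i k < ε → d i k = 0) :
    ∃ N : CMS, (∀ i j, dist (N.c i) (N.c j) = d i j) ∧ DiscreteTopology N.carrier := by
  have hcomp : CompleteSpace (W d h) := by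
    refine Metric.complete_of_cauchySeq_tendsto fun u hu => ?_
    rw [Metric.cauchySeq_iff'] at hu
    obtain ⟨n₀, h₀⟩ := hu δ hδ
    obtain ⟨ε, hε, hb⟩ := h2 (β (u n₀))
    obtain ⟨n₁, h₁⟩ := hu (ε / 2) (by positivity)
    refine ⟨u (max n₀ n₁), Metric.tendsto_atTop.2 fun η hη => ⟨max n₀ n₁, fun n hn => ?_⟩⟩
    have e1 := h1 _ _ (h₀ n (le_of_max_le_left hn))
    have e2 := h1 _ _ (h₀ _ (le_max_left n₀ n₁))
    have e3 := h₁ n (le_of_max_le_right hn)
    have e4 := h₁ _ (le_max_right n₀ n₁)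
    have e5 := dist_triangle_right (u n) (u (max n₀ n₁)) (u n₁)
    have : dist (u n) (u (max n₀ n₁)) = 0 := hb _ _ e1 e2 (show dist _ _ < ε by linarith)
    rw [this]; exact hη
  obtain ⟨q, hq, hq'⟩ := hc
  have hs : Function.Surjective (SeparationQuotient.mk (X := W d h)) :=
    SeparationQuotient.surjective_mk
  refine ⟨⟨SeparationQuotient (W d h), inferInstance, inferInstance,
    fun i => SeparationQuotient.mk (show W d h from i), hs.denseRange, q, hq, fun i j n => ?_⟩,
    fun i j => SeparationQuotient.dist_mk _ _, ?_⟩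
  · rw [SeparationQuotient.dist_mk]; exact hq' i j n
  · change DiscreteTopology (SeparationQuotient (W d h))
    rw [discreteTopology_iff_isOpen_singleton]
    intro x
    obtain ⟨i, rfl⟩ := hs x
    obtain ⟨ε, hε, hb⟩ := h2 (β i)
    rw [Metric.isOpen_singleton_iff]
    refine ⟨min δ ε, lt_min hδ hε, fun y hy => ?_⟩
    obtain ⟨k, rfl⟩ := hs y
    rw [SeparationQuotient.dist_mk, lt_min_iff] at hy
    rw [← dist_eq_zero, SeparationQuotient.dist_mk]
    exact hb _ _ (h1 _ _ hy.1) rfl hy.2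

theorem CMS.surj (M : CMS) [DiscreteTopology M.carrier] : Function.Surjective M.c := by
  have := M.dense
  rw [DenseRange, dense_discrete] at this
  exact Set.range_eq_univ.1 this

theorem CMS.homeo_nat (M : CMS) [DiscreteTopology M.carrier] [Infinite M.carrier] :
    Nonempty (M.carrier ≃ₜ ℕ) := by
  have : Countable M.carrier := M.surj.countable
  obtain ⟨e⟩ := nonempty_denumerable M.carrier
  exact ⟨(Denumerable.eqv M.carrier).toHomeomorphOfDiscrete⟩

theorem CMS.apx (M : CMS) :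
    ∃ q : ℕ × ℕ × ℕ → ℕ, Computable q ∧ Apx (fun i j => dist (M.c i) (M.c j)) q := M.comp

theorem replicate_le {m n : ℕ} (h : m ≤ n) (a : ℕ) :
    List.replicate m a <+: List.replicate n a :=
  ⟨List.replicate (n - m) a, by rw [← List.replicate_add]; congr 1; omega⟩

end Pool.Agent.MP_55a818_lc.H28
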