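import Mathlib
import Pool.Agent.MP_55a818_lc.H28.Disc

/-!
Block ultrametrics on the indices: distance `t b` inside block `b`, distance `1` across blocks.
-/

namespace Pool.Agent.MP_55a818_lc.H28

open Filter Topology

noncomputable def blockD (β : ℕ → ℕ) (t : ℕ → ℝ) (i k : ℕ) : ℝ :=
  if β i = β k then (if i = k then 0 else t (β i)) else 1

theorem blockD_pm (β : ℕ → ℕ) {t : ℕ → ℝ} (h0 : ∀ b, 0 ≤ t b) (h1 : ∀ b, t b ≤ 1) :
    IsPM (blockD β t) := by
  refine ⟨fun i => by simp [blockD], fun i k => ?_, fun i j k => ?_⟩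
  · unfold blockD
    by_cases h : β i = β k
    · simp [h, eq_comm]
    · simp [h, Ne.symm h]
  · have := h0 (β i); have := h0 (β j); have := h1 (β i)
    unfold blockD
    split_ifs <;> simp_all <;> linarith [h1 (β k)]

theorem block_copy {β : ℕ → ℕ} {t : ℕ → ℝ} {tq : ℕ × ℕ → ℕ} (h0 : ∀ b, 0 ≤ t b)
    (h1 : ∀ b, t b ≤ 1) (hβ : Computable β) (htq : Computable tq)
    (ha : ∀ b n, |t b - tq (b, n) / 2 ^ n| ≤ 1 / 2 ^ n) (hs : Function.Surjective β) :
    ∃ N : CMS, (∀ i j, dist (N.c i) (N.c j) = blockD β t i j) ∧ Function.Surjective N.c ∧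
      Nonempty (N.carrier ≃ₜ ℕ) := by
  have hc : CompD (blockD β t) := by
    refine ⟨fun p => cond (β p.1 == β p.2.1) (cond (p.1 == p.2.1) 0 (tq (β p.1, p.2.2)))
      (2 ^ p.2.2), by fun_prop, fun i k n => ?_⟩
    unfold blockD
    by_cases e1 : β i = β k
    · by_cases e2 : i = k
      · simp [e2]
      · simpa [e1, e2, beq_false_of_ne e2] using ha (β k) n
    · simp [e1, beq_false_of_ne e1]
  obtain ⟨N, hN, hd⟩ := disc_copy (blockD_pm β h0 h1) hc β one_pos
    (fun i k h => by
      by_contra hne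
      simp [blockD, hne] at h)
    (fun b => by
      rcases (h0 b).eq_or_lt with h | h
      · refine ⟨1, one_pos, fun i k hi hk _ => ?_⟩
        simp [blockD, hi, hk, ← h]
      · refine ⟨t b, h, fun i k hi hk hlt => ?_⟩
        by_cases e : i = k
        · simp [blockD, e]
        · simp [blockD, hi, hk, e] at hlt)
  have : Infinite N.carrier := by
    refine Infinite.of_injective (fun b => N.c (Function.surjInv hs b)) fun a b hab => ?_
    by_contra hne
    have := hN (Function.surjInv hs a) (Function.surjInv hs b)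
    simp only at hab
    rw [hab, dist_self, blockD, Function.surjInv_eq hs, Function.surjInv_eq hs, if_neg hne] at this
    exact zero_ne_one this
  exact ⟨N, hN, N.surj, N.homeo_nat⟩

/-- the standard copy of the discrete space -/
theorem std_copy : ∃ N : CMS, (∀ x y : N.carrier, dist x y < 1 → x = y) ∧
    Nonempty (N.carrier ≃ₜ ℕ) := by
  obtain ⟨N, hN, hs, he⟩ := block_copy (β := fun i => i) (t := fun _ => 1)
    (tq := fun p => 2 ^ p.2) (fun _ => zero_le_one) (fun _ => le_rfl) (by fun_prop) (by fun_prop)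
    (fun b n => by simp) Function.surjective_id
  refine ⟨N, fun x y h => ?_, he⟩
  obtain ⟨i, rfl⟩ := hs x
  obtain ⟨j, rfl⟩ := hs y
  by_contra hne
  have : i ≠ j := fun e => hne (by rw [e])
  simp [hN, blockD, this] at h

end Pool.Agent.MP_55a818_lc.H28
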