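import Mathlib
import Pool.Agent.MP_55a818_lc.H28.Oracle

/-!
A noncomputable c.e. set `D` for which all existential questions with oracle `D` have a computable
approximation that settles on a correct answer (a low simple set, by finite injury).
-/

namespace Pool.Agent.MP_55a818_lc.H28

open Encodable Filter
open Nat.Partrec (Code)
open Nat.Partrec.Code

/-- `H` is a computable approximation, with limit `L`, of all existential questions about
the oracle `g`. -/
def Approx (g : ℕ → ℕ) (H : ℕ × ℕ → Option ℕ) (L : ℕ → Option ℕ) : Prop :=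
  Computable H ∧ (∀ q, ∀ᶠ s in atTop, H (q, s) = L q) ∧
    ∀ R : List ℕ × ℕ → Option ℕ, Computable R → ∃ e, ∀ n,
      (∀ v, L (Nat.pair e n) = some v → ∃ k, R (pre g k, n) = some v) ∧
      (∀ k, (R (pre g k, n)).isSome → (L (Nat.pair e n)).isSome)

namespace Low

def ind (l : List ℕ) (n : ℕ) : ℕ := cond (l.any fun x => x == n) 1 0

def ev (l : List ℕ) (q s k : ℕ) : Option ℕ :=
  evaln s (Denumerable.ofNat Code q.unpair.1) (encode ((List.range k).map (ind l), q.unpair.2))

def use (l : List ℕ) (q s : ℕ) : Option ℕ :=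
  (List.range (s + 1)).find? fun k => (ev l q s k).isSome

def good (l : List ℕ) (s x : ℕ) : Bool :=
  x.unpair.1 == s.unpair.1 && (evaln s (Denumerable.ofNat Code s.unpair.1) x).isSome &&
    (List.range (s.unpair.1 + 1)).all fun q => Nat.ble ((use l q s).getD 0) x

def step (s : ℕ) (l : List ℕ) : List ℕ :=
  cond (l.any fun x => x.unpair.1 == s.unpair.1) l
    ((((List.range (s + 1)).find? (good l s)).map fun x => x :: l).getD l)

def DL (s : ℕ) : List ℕ := Nat.rec [] step s

theorem DL_succ (s : ℕ) : DL (s + 1) = step s (DL s) := rfl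

def HH (p : ℕ × ℕ) : Option ℕ := (use (DL p.2) p.1 p.2).bind (ev (DL p.2) p.1 p.2)

def D : Set ℕ := {x | ∃ s, x ∈ DL s}

@[fun_prop] theorem c_ind : Computable fun p : List ℕ × ℕ => ind p.1 p.2 := by
  unfold ind; fun_prop

@[fun_prop] theorem c_ev : Computable fun p : List ℕ × ℕ × ℕ × ℕ =>
    ev p.1 p.2.1 p.2.2.1 p.2.2.2 := by
  unfold ev; fun_prop

@[fun_prop] theorem c_use : Computable fun p : List ℕ × ℕ × ℕ => use p.1 p.2.1 p.2.2 := by
  unfold use; fun_prop

@[fun_prop] theorem c_good : Computable fun p : List ℕ × ℕ × ℕ => good p.1 p.2.1 p.2.2 := by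
  unfold good; fun_prop

@[fun_prop] theorem c_step : Computable fun p : ℕ × List ℕ => step p.1 p.2 := by
  unfold step; fun_prop

@[fun_prop] theorem c_DL : Computable DL := by
  unfold DL; fun_prop

theorem c_HH : Computable HH := by
  unfold HH; fun_prop

theorem step_cases (s : ℕ) (l : List ℕ) : step s l = l ∨
    ∃ x, step s l = x :: l ∧ good l s x = true ∧ ∀ y ∈ l, y.unpair.1 ≠ s.unpair.1 := by
  unfold step
  cases h : l.any fun x => x.unpair.1 == s.unpair.1 with
  | true => simp
  | false =>
    cases h2 : (List.range (s + 1)).find? (good l s) with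
    | none => simp
    | some x =>
      right
      refine ⟨x, by simp, List.find?_some h2, ?_⟩
      simpa using h

theorem DL_mono {s t : ℕ} (h : s ≤ t) {x : ℕ} (hx : x ∈ DL s) : x ∈ DL t := by
  induction h with
  | refl => exact hx
  | step _ ih =>
    rw [DL_succ]
    rcases step_cases _ (DL _) with h | ⟨y, h, -⟩ <;> rw [h]
    · exact ih
    · exact List.mem_cons_of_mem _ ih

theorem good_col {l : List ℕ} {s x : ℕ} (h : good l s x = true) : x.unpair.1 = s.unpair.1 := by
  simp only [good, Bool.and_eq_true, beq_iff_eq] at h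
  exact h.1.1

theorem good_ev {l : List ℕ} {s x : ℕ} (h : good l s x = true) :
    (evaln s (Denumerable.ofNat Code s.unpair.1) x).isSome := by
  simp only [good, Bool.and_eq_true, beq_iff_eq] at h
  exact h.1.2

theorem good_use {l : List ℕ} {s x q k : ℕ} (h : good l s x = true) (hq : q ≤ s.unpair.1)
    (hk : use l q s = some k) : k ≤ x := by
  simp only [good, Bool.and_eq_true, beq_iff_eq, List.all_eq_true, List.mem_range,
    Nat.ble_eq] at h
  simpa [hk] using h.2 q (by omega)

theorem acts_once (i : ℕ) : ∀ᶠ s in atTop, s.unpair.1 = i → DL (s + 1) = DL s := by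
  by_cases h : ∃ s, s.unpair.1 = i ∧ DL (s + 1) ≠ DL s
  · obtain ⟨s, hs, hne⟩ := h
    rcases step_cases s (DL s) with h | ⟨x, h, hg, -⟩
    · exact absurd h hne
    filter_upwards [eventually_ge_atTop (s + 1)] with t ht hti
    have hx : x ∈ DL t := DL_mono ht (by rw [DL_succ, h]; simp)
    rcases step_cases t (DL t) with h' | ⟨y, -, -, h'⟩
    · exact h'
    · exact absurd (by rw [good_col hg, hs, hti]) (h' x hx)
  · push Not at h
    exact Eventually.of_forall h

theorem ind_eq (l : List ℕ) (n : ℕ) : ind l n = if n ∈ l then 1 else 0 := by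
  unfold ind
  by_cases h : n ∈ l
  · have : (l.any fun x => x == n) = true := by simpa using h
    simp [this, h]
  · have : (l.any fun x => x == n) = false := by
      rw [Bool.eq_false_iff]; simpa using h
    simp [this, h]

theorem pre_eventually (k : ℕ) :
    ∀ᶠ s in atTop, pre (ind (DL s)) k = pre (D.indicator fun _ => 1) k := by
  have : ∀ᶠ s in atTop, ∀ n ∈ Finset.range k, ind (DL s) n = D.indicator (fun _ => 1) n := by
    rw [eventually_all_finset]
    intro n _
    by_cases h : n ∈ D
    · obtain ⟨s, hs⟩ := h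
      filter_upwards [eventually_ge_atTop s] with t ht
      rw [ind_eq, if_pos (DL_mono ht hs), Set.indicator_of_mem (show n ∈ D from ⟨s, hs⟩)]
    · refine Eventually.of_forall fun t => ?_
      rw [ind_eq, if_neg (fun h' => h ⟨t, h'⟩), Set.indicator_of_notMem h]
  filter_upwards [this] with s hs
  exact pre_congr fun n hn => hs n (Finset.mem_range.2 hn)

theorem use_spec {l : List ℕ} {q s k : ℕ} (h : use l q s = some k) :
    (ev l q s k).isSome ∧ k ≤ s := by
  refine ⟨List.find?_some (p := fun k => (ev l q s k).isSome) h, ?_⟩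
  have := List.mem_of_find?_eq_some h
  simp at this; omega

theorem use_le {l : List ℕ} {q s k : ℕ} (hk : k ≤ s) (h : (ev l q s k).isSome) :
    ∃ k' ≤ k, use l q s = some k' := by
  have : (use l q s).isSome := by
    unfold use
    rw [List.find?_isSome]
    exact ⟨k, by simp; omega, h⟩
  obtain ⟨k', hk'⟩ := Option.isSome_iff_exists.1 this
  refine ⟨k', ?_, hk'⟩
  by_contra hlt
  push Not at hlt
  unfold use at hk'
  rw [List.find?_range_eq_some] at hk'
  have := hk'.2.2 k hlt
  simp [h] at this

theorem ev_mono {l l' : List ℕ} {q s t k v : ℕ} (hst : s ≤ t)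
    (hl : pre (ind l') k = pre (ind l) k) (h : ev l q s k = some v) : ev l' q t k = some v := by
  unfold ev at h ⊢
  unfold pre at hl
  rw [hl]
  exact evaln_mono hst h

/-- the use and the value settle -/
theorem settle (q : ℕ) : (∀ᶠ s in atTop, use (DL s) q s = none) ∨
    ∃ k v, ∀ᶠ s in atTop, use (DL s) q s = some k ∧ ev (DL s) q s k = some v := by
  have h0 : ∀ᶠ s in atTop, ∀ i ∈ Finset.range q, s.unpair.1 = i → DL (s + 1) = DL s := by
    rw [eventually_all_finset]
    exact fun i _ => acts_once i
  obtain ⟨s0, hs0⟩ := eventually_atTop.1 h0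
  have keep : ∀ s k, s0 ≤ s → use (DL s) q s = some k →
      pre (ind (DL (s + 1))) k = pre (ind (DL s)) k := by
    intro s k hs hk
    by_cases hq : s.unpair.1 < q
    · rw [hs0 s hs _ (Finset.mem_range.2 hq) rfl]
    · rw [DL_succ]
      rcases step_cases s (DL s) with h | ⟨x, h, hg, -⟩ <;> rw [h]
      have := good_use hg (not_lt.1 hq) hk
      apply pre_congr
      intro n hn
      have : n ≠ x := by omega
      simp [ind_eq, this]
  by_cases hex : ∃ k, ∃ s, s0 ≤ s ∧ use (DL s) q s = some k
  · right
    classical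
    obtain ⟨s1, hs1, hk⟩ := Nat.find_spec hex
    set k := Nat.find hex with hkdef
    obtain ⟨v, hv⟩ := Option.isSome_iff_exists.1 (use_spec hk).1
    refine ⟨k, v, eventually_atTop.2 ⟨s1, fun s hs => ?_⟩⟩
    induction hs with
    | refl => exact ⟨hk, hv⟩
    | @step s hs ih =>
      have h1 := ev_mono (Nat.le_succ s) (keep s k (hs1.trans hs) ih.1) ih.2
      refine ⟨?_, h1⟩
      obtain ⟨k', hk', hu⟩ := use_le (l := DL (s + 1)) (q := q) (s := s + 1) (k := k)
        ((use_spec ih.1).2.trans (Nat.le_succ s)) (by rw [h1]; rfl)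
      have : k ≤ k' := Nat.find_min' hex ⟨s + 1, (hs1.trans hs).trans (Nat.le_succ s), hu⟩
      rw [hu, le_antisymm hk' this]
  · left
    refine eventually_atTop.2 ⟨s0, fun s hs => ?_⟩
    cases h : use (DL s) q s with
    | none => rfl
    | some k => exact absurd ⟨k, s, hs, h⟩ hex

theorem re_D : REPred (· ∈ D) := by
  have : Partrec fun x : ℕ => Nat.rfind fun s => Part.some ((DL s).any fun y => y == x) :=
    p_rfind (Computable.partrec (by fun_prop))
  refine this.dom_re.of_eq fun x => ?_
  rw [Nat.rfind_dom]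
  simp [D]

theorem col_unique {s x y : ℕ} (hx : x ∈ DL s) (hy : y ∈ DL s) (h : x.unpair.1 = y.unpair.1) :
    x = y := by
  induction s with
  | zero => simp [DL] at hx
  | succ s ih =>
    rw [DL_succ] at hx hy
    rcases step_cases s (DL s) with h' | ⟨z, h', hg, hz⟩ <;> rw [h'] at hx hy
    · exact ih hx hy
    · have hc := good_col hg
      rcases List.mem_cons.1 hx with rfl | hx' <;> rcases List.mem_cons.1 hy with rfl | hy'
      · rfl
      · exact absurd (h.symm.trans hc) (hz _ hy')
      · exact absurd (h.trans hc) (hz _ hx')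
      · exact ih hx' hy'

theorem mem_DL_ev {s x : ℕ} (hx : x ∈ DL s) :
    (eval (Denumerable.ofNat Code x.unpair.1) x).Dom := by
  induction s with
  | zero => simp [DL] at hx
  | succ s ih =>
    rw [DL_succ] at hx
    rcases step_cases s (DL s) with h' | ⟨z, h', hg, -⟩ <;> rw [h'] at hx
    · exact ih hx
    · rcases List.mem_cons.1 hx with rfl | hx
      · obtain ⟨v, hv⟩ := Option.isSome_iff_exists.1 (good_ev hg)
        rw [good_col hg]
        exact Part.dom_iff_mem.2 ⟨v, evaln_sound hv⟩
      · exact ih hx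

theorem not_comp_D : ¬ ComputablePred (· ∈ D) := by
  intro hc
  have hre := hc.not.to_re
  unfold REPred at hre
  have hre' := hre.map (g := fun _ _ => (0 : ℕ)) (Computable.const 0).to₂
  obtain ⟨c, hcode⟩ := exists_code.1 (Partrec.nat_iff.1 hre')
  have hdom : ∀ x, (eval c x).Dom ↔ x ∉ D := by
    intro x
    rw [hcode]
    simp [Part.assert]
  set i := encode c with hi
  have hci : Denumerable.ofNat Code i = c := Denumerable.ofNat_encode c
  have hnone : ∀ s, ∀ x ∈ DL s, x.unpair.1 ≠ i := by
    intro s x hx hxi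
    have := mem_DL_ev hx
    rw [hxi, hci, hdom] at this
    exact this ⟨s, hx⟩
  -- a bound for the restraints
  have hb : ∀ q, ∃ b, ∀ᶠ s in atTop, (use (DL s) q s).getD 0 ≤ b := by
    intro q
    rcases settle q with h | ⟨k, v, h⟩
    · exact ⟨0, h.mono fun s hs => by simp [hs]⟩
    · exact ⟨k, h.mono fun s hs => by simp [hs.1]⟩
  choose b hb using hb
  set x := Nat.pair i ((Finset.range (i + 1)).sup b) with hx
  have hxD : x ∉ D := fun ⟨s, hs⟩ => hnone s x hs (by simp [hx])
  obtain ⟨v, hv⟩ := Part.dom_iff_mem.1 ((hdom x).2 hxD)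
  obtain ⟨s1, hs1⟩ := evaln_complete.1 hv
  have h1 : ∀ᶠ s in atTop, ∀ q ∈ Finset.range (i + 1), (use (DL s) q s).getD 0 ≤ b q := by
    rw [eventually_all_finset]
    exact fun q _ => hb q
  obtain ⟨s0, hs0⟩ := eventually_atTop.1 (h1.and ((eventually_ge_atTop s1).and
    (eventually_ge_atTop x)))
  set s := Nat.pair i s0 with hs
  obtain ⟨h2, h3, h4⟩ := hs0 s (Nat.right_le_pair _ _)
  have hsi : s.unpair.1 = i := by simp [hs]
  have hgood : good (DL s) s x = true := by
    simp only [good, Bool.and_eq_true, beq_iff_eq, List.all_eq_true, List.mem_range, Nat.ble_eq,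
      hsi, hci]
    refine ⟨⟨by simp [hx], ?_⟩, fun q hq => ?_⟩
    · have := evaln_mono h3 hs1
      rw [Option.mem_def] at this
      rw [this]; rfl
    · exact (h2 q (Finset.mem_range.2 hq)).trans
        ((Finset.le_sup (f := b) (Finset.mem_range.2 hq)).trans (Nat.right_le_pair _ _))
  have hfind : ((List.range (s + 1)).find? (good (DL s) s)).isSome := by
    rw [List.find?_isSome]
    exact ⟨x, by simp; omega, hgood⟩
  obtain ⟨y, hy⟩ := Option.isSome_iff_exists.1 hfind
  have hany : ((DL s).any fun x => x.unpair.1 == s.unpair.1) = false := by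
    rw [Bool.eq_false_iff]
    simp only [ne_eq, List.any_eq_true, beq_iff_eq, not_exists, not_and, hsi]
    exact hnone s
  have : y ∈ DL (s + 1) := by
    rw [DL_succ, step, hany, hy]; simp
  exact hnone _ y this (by rw [good_col (List.find?_some hy), hsi])

end Low

theorem exists_low : ∃ D : Set ℕ, REPred (· ∈ D) ∧ ¬ ComputablePred (· ∈ D) ∧
    ∃ H L, Approx (D.indicator fun _ => 1) H L := by
  refine ⟨Low.D, Low.re_D, Low.not_comp_D, Low.HH, ?_⟩
  have hlim : ∀ q, ∃ o : Option ℕ, (∀ᶠ s in atTop, Low.HH (q, s) = o) ∧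
      (∀ v, o = some v → ∃ k, v ∈ eval (Denumerable.ofNat Code q.unpair.1)
        (encode (pre (Low.D.indicator fun _ => 1) k, q.unpair.2))) ∧
      (∀ k, (eval (Denumerable.ofNat Code q.unpair.1)
        (encode (pre (Low.D.indicator fun _ => 1) k, q.unpair.2))).Dom → o.isSome) := by
    intro q
    rcases Low.settle q with h | ⟨k, v, h⟩
    · refine ⟨none, h.mono fun s hs => by simp [Low.HH, hs], by simp, fun k hk => ?_⟩
      obtain ⟨v, hv⟩ := Part.dom_iff_mem.1 hk
      obtain ⟨s1, hs1⟩ := evaln_complete.1 hv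
      obtain ⟨s, h1, h2, h3, h4⟩ := (h.and ((Low.pre_eventually k).and
        ((eventually_ge_atTop s1).and (eventually_ge_atTop k)))).exists
      have : (Low.ev (Low.DL s) q s k).isSome := by
        have := evaln_mono h3 hs1
        rw [Option.mem_def, ← h2] at this
        unfold Low.ev
        unfold pre at this
        rw [this]; rfl
      obtain ⟨k', -, hk'⟩ := Low.use_le h4 this
      rw [h1] at hk'
      cases hk'
    · refine ⟨some v, h.mono fun s hs => by simp [Low.HH, hs.1, hs.2], ?_, fun _ _ => rfl⟩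
      rintro _ ⟨rfl⟩
      obtain ⟨s, h1, h2⟩ := (h.and (Low.pre_eventually k)).exists
      refine ⟨k, ?_⟩
      rw [← h2]
      exact evaln_sound h1.2
  choose L hL using hlim
  refine ⟨L, Low.c_HH, fun q => (hL q).1, fun R hR => ?_⟩
  obtain ⟨c, hc⟩ := exists_code.1 (Computable.ofOption hR)
  have hev : ∀ p : List ℕ × ℕ, c.eval (encode p) = (R p : Part ℕ) := by
    intro p
    rw [hc]
    simp only [encodek, Part.coe_some, Part.bind_some]
    exact Part.map_id' (fun _ => rfl) _
  refine ⟨encode c, fun n => ⟨fun v hv => ?_, fun k hk => ?_⟩⟩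
  · obtain ⟨k, hk⟩ := (hL _).2.1 v hv
    simp only [Nat.unpair_pair, Denumerable.ofNat_encode, hev] at hk
    exact ⟨k, by simpa using hk⟩
  · apply (hL _).2.2 k
    simp only [Nat.unpair_pair, Denumerable.ofNat_encode, hev]
    simpa using hk

end Pool.Agent.MP_55a818_lc.H28
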