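import Mathlib
import Pool.Agent.MP_55a818_lc.H28.Defs
import Pool.Agent.MP_55a818_lc.H28.Oracle

/-!
Limit-computable functions and the limit lemma for the halting set.
-/

namespace Pool.Agent.MP_55a818_lc.H28

open Filter Encodable

/-- The halting set: `⟨e, n⟩` such that the `e`-th program halts on input `n`. -/
def Halt : Set ℕ :=
  {z | ((Denumerable.ofNat Nat.Partrec.Code z.unpair.1).eval z.unpair.2).Dom}

/-- stage approximation of the halting set -/
def haltAt (z s : ℕ) : Bool :=
  (Nat.Partrec.Code.evaln s (Denumerable.ofNat Nat.Partrec.Code z.unpair.1) z.unpair.2).isSome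

@[fun_prop] theorem c_haltAt {α : Type} [Primcodable α] {f g : α → ℕ} (hf : Computable f)
    (hg : Computable g) : Computable fun a => haltAt (f a) (g a) := by
  unfold haltAt; fun_prop

theorem mem_halt {z : ℕ} : z ∈ Halt ↔ ∃ s, haltAt z s = true := by
  simp only [Halt, Set.mem_ofPred_eq, haltAt, Part.dom_iff_mem, Option.isSome_iff_exists]
  constructor
  · rintro ⟨v, hv⟩
    obtain ⟨s, hs⟩ := Nat.Partrec.Code.evaln_complete.1 hv
    exact ⟨s, v, hs⟩
  · rintro ⟨s, v, hv⟩
    exact ⟨v, Nat.Partrec.Code.evaln_sound hv⟩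

theorem haltAt_mono {z s t : ℕ} (h : s ≤ t) (hs : haltAt z s = true) : haltAt z t = true := by
  simp only [haltAt, Option.isSome_iff_exists] at hs ⊢
  obtain ⟨v, hv⟩ := hs
  exact ⟨v, Nat.Partrec.Code.evaln_mono h hv⟩

theorem halt_re : REPred (· ∈ Halt) := by
  have h : Partrec fun z : ℕ => (Denumerable.ofNat Nat.Partrec.Code z.unpair.1).eval z.unpair.2 :=
    Nat.Partrec.Code.eval_part.comp (by fun_prop) (by fun_prop)
  exact h.dom_re

theorem halt_not_computable : ¬ ComputablePred (· ∈ Halt) := by
  intro h
  apply ComputablePred.halting_problem 0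
  obtain ⟨f, hf, hfe⟩ := ComputablePred.computable_iff.1 h
  refine ComputablePred.computable_iff.2 ⟨fun c => f (Nat.pair (encode c) 0), by fun_prop, ?_⟩
  funext c
  have := congrFun hfe (Nat.pair (encode c) 0)
  simp only [Halt, Set.mem_ofPred_eq, Nat.unpair_pair, Denumerable.ofNat_encode] at this
  exact this

variable {α β γ σ : Type} [Primcodable α] [Primcodable β] [Primcodable γ] [Primcodable σ]

/-- limit computable -/
@[fun_prop] def Lim {α β : Type} [Primcodable α] [Primcodable β] (h : α → β) : Prop :=
  ∃ H : α × ℕ → β, Computable H ∧ ∀ a, ∀ᶠ s in atTop, H (a, s) = h a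

theorem Lim.computableIn {h : α → β} (hl : Lim h) : ComputableIn {chi Halt} h := by
  classical
  obtain ⟨H, hH, hlim⟩ := hl
  have hp : Partrec fun p : α × ℕ => Nat.rfind fun t =>
      Part.some (!(encode (H (p.1, p.2 + t)) == encode (H (p.1, p.2)))) :=
    p_rfind (Computable.partrec (by fun_prop))
  obtain ⟨c, hc⟩ := Nat.Partrec.Code.exists_code.1 hp
  have hmem : ∀ a s, Nat.pair (encode c) (encode (a, s)) ∈ Halt ↔
      ∃ t, H (a, s + t) ≠ H (a, s) := by
    intro a s
    simp only [Halt, Set.mem_ofPred_eq, Nat.unpair_pair, Denumerable.ofNat_encode, hc, encodek]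
    simp [Nat.rfind_dom]
  let g : ℕ → ℕ := Halt.indicator fun _ => 1
  let T : List ℕ × α → ℕ → Bool := fun p s =>
    (p.1[Nat.pair (encode c) (encode (p.2, s))]?).getD 1 == 0
  have hT : ∀ k a s, T (pre g k, a) s = true → H (a, s) = h a := by
    intro k a s hs
    simp only [T, getElem?_pre, beq_iff_eq] at hs
    have h1 : Nat.pair (encode c) (encode (a, s)) ∉ Halt := by
      intro hm
      split_ifs at hs
      · simp only [g, Set.indicator_of_mem hm] at hs
        simp at hs
      · simp at hs
    rw [hmem] at h1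
    push Not at h1
    obtain ⟨t, ht⟩ := eventually_atTop.1 (hlim a)
    rw [← h1 t, ht _ (by omega)]
  refine computableIn_of_approx (g := g)
    (ha := fun p => ((List.range p.1.length).find? (T p)).map fun s => H (p.2, s))
    (by simp only [T]; fun_prop) ?_ ?_
  · intro k a v hv
    simp only [Option.map_eq_some_iff] at hv
    obtain ⟨s, hs, rfl⟩ := hv
    exact hT k a s (List.find?_some hs)
  · intro a
    obtain ⟨t, ht⟩ := eventually_atTop.1 (hlim a)
    refine ⟨max t (Nat.pair (encode c) (encode (a, t))) + 1, ?_⟩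
    simp only [Option.isSome_map, List.find?_isSome]
    refine ⟨t, by simp, ?_⟩
    have h1 : Nat.pair (encode c) (encode (a, t)) ∉ Halt := by
      rw [hmem]; push Not
      intro u; rw [ht _ (by omega), ht _ le_rfl]
    simp only [T, getElem?_pre, beq_iff_eq]
    rw [if_pos (by omega)]
    simp only [g, Set.indicator_of_notMem h1]
    simp

@[fun_prop] theorem Computable.lim {h : α → β} (hc : Computable h) : Lim h :=
  ⟨fun p => h p.1, by fun_prop, fun _ => Eventually.of_forall fun _ => rfl⟩

@[fun_prop] theorem l_id : Lim fun a : α => a := Computable.lim Computable.id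
@[fun_prop] theorem l_const (b : β) : Lim fun _ : α => b := Computable.lim (Computable.const b)
@[fun_prop] theorem l_comp {f : β → σ} {g : α → β} (hf : Lim f) (hg : Lim g) :
    Lim fun a => f (g a) := by
  obtain ⟨F, hF, h1⟩ := hf
  obtain ⟨G, hG, h2⟩ := hg
  refine ⟨fun p => F (G p, p.2), by fun_prop, fun a => ?_⟩
  filter_upwards [h2 a, h1 (g a)] with s e1 e2
  simp only [e1, e2]
@[fun_prop] theorem l_pair {f : α → β} {g : α → γ} (hf : Lim f) (hg : Lim g) :
    Lim fun a => (f a, g a) := by
  obtain ⟨F, hF, h1⟩ := hf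
  obtain ⟨G, hG, h2⟩ := hg
  refine ⟨fun p => (F p, G p), by fun_prop, fun a => ?_⟩
  filter_upwards [h2 a, h1 a] with s e1 e2
  simp only [e1, e2]
@[fun_prop] theorem l_fst {f : α → β × γ} (hf : Lim f) : Lim fun a => (f a).1 :=
  l_comp (Computable.lim Computable.fst) hf
@[fun_prop] theorem l_snd {f : α → β × γ} (hf : Lim f) : Lim fun a => (f a).2 :=
  l_comp (Computable.lim Computable.snd) hf

@[fun_prop] theorem l_map {f : α → List β} {g : α → β → σ} (hf : Lim f)
    (hg : Lim fun p : α × β => g p.1 p.2) : Lim fun a => (f a).map (g a) := by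
  obtain ⟨F, hF, h1⟩ := hf
  obtain ⟨G, hG, h2⟩ := hg
  refine ⟨fun p => (F p).map fun b => G ((p.1, b), p.2), by fun_prop, fun a => ?_⟩
  have : ∀ᶠ s in atTop, ∀ b ∈ f a, G ((a, b), s) = g a b :=
    (eventually_all_finite (List.finite_toSet (f a))).2 fun b _ => h2 (a, b)
  filter_upwards [h1 a, this] with s e1 e2
  simp only [e1]
  exact List.map_congr_left e2

theorem l_of_eq {f g : α → β} (hf : Lim f) (h : ∀ a, f a = g a) : Lim g := by
  rwa [← show f = g from funext h]

@[fun_prop] theorem l_all {f : α → List β} {g : α → β → Bool} (hf : Lim f)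
    (hg : Lim fun p : α × β => g p.1 p.2) : Lim fun a => (f a).all (g a) := by
  have h1 : Computable fun l : List Bool => l.all fun b => b := by fun_prop
  exact l_of_eq (l_comp (Computable.lim h1) (l_map hf hg)) fun a => by simp [Function.comp_def]

@[fun_prop] theorem l_find? {f : α → List β} {g : α → β → Bool} (hf : Lim f)
    (hg : Lim fun p : α × β => g p.1 p.2) : Lim fun a => (f a).find? (g a) := by
  have h1 : Computable fun l : List (β × Bool) => (l.find? fun b => b.2).map fun b => b.1 := by
    fun_prop
  have h2 : Lim fun a => (f a).map fun b => (b, g a b) := l_map hf (by fun_prop)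
  refine l_of_eq (l_comp (Computable.lim h1) h2) fun a => ?_
  simp [List.find?_map, Function.comp_def]

theorem l_countP {f : α → List β} {g : α → β → Bool} (hf : Lim f)
    (hg : Lim fun p : α × β => g p.1 p.2) : Lim fun a => (f a).countP (g a) := by
  have h1 : Computable fun l : List Bool => l.foldl (fun s b => s + cond b 1 0) 0 := by
    fun_prop
  refine l_of_eq (l_comp (Computable.lim h1) (l_map hf hg)) fun a => ?_
  have : ∀ (l : List β) (n : ℕ), (l.map (g a)).foldl (fun s b => s + cond b 1 0) n =
      n + l.countP (g a) := by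
    intro l
    induction l with
    | nil => simp
    | cons b l ih => intro n; cases hb : g a b <;> simp [ih, hb]; omega
  simp [this]

/-- universal quantification over a computable test -/
theorem l_forall {P : α → ℕ → Bool} (hP : Computable fun p : α × ℕ => P p.1 p.2)
    [∀ a, Decidable (∀ n, P a n = true)] : Lim fun a => decide (∀ n, P a n = true) := by
  refine ⟨fun p => (List.range p.2).all (P p.1), by fun_prop, fun a => ?_⟩
  by_cases h : ∀ n, P a n = true
  · exact Eventually.of_forall fun s => by simp [h]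
  · have h' := h
    push Not at h'
    obtain ⟨n, hn⟩ := h'
    filter_upwards [eventually_gt_atTop n] with s hs
    simp only [h, decide_false, List.all_eq_false, List.mem_range]
    exact ⟨n, hs, hn⟩

theorem l_find {P : α → ℕ → Bool} (hP : Lim fun p : α × ℕ => P p.1 p.2)
    (hex : ∀ a, ∃ n, P a n = true) : Lim fun a => Nat.find (hex a) := by
  obtain ⟨G, hG, h2⟩ := hP
  refine ⟨fun p => ((List.range p.2).find? fun n => G ((p.1, n), p.2)).getD 0, by fun_prop,
    fun a => ?_⟩
  have : ∀ᶠ s in atTop, ∀ n ∈ Set.Iic (Nat.find (hex a)), G ((a, n), s) = P a n :=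
    (eventually_all_finite (Set.finite_Iic _)).2 fun b _ => h2 (a, b)
  filter_upwards [this, eventually_gt_atTop (Nat.find (hex a))] with s e1 e2
  have : (List.range s).find? (fun n => G ((a, n), s)) = some (Nat.find (hex a)) := by
    rw [List.find?_range_eq_some]
    refine ⟨by rw [e1 _ (by simp)]; exact Nat.find_spec (hex a), by simpa using e2, ?_⟩
    intro j hj
    rw [e1 j hj.le]
    simpa using Nat.find_min (hex a) hj
  simp [this]

end Pool.Agent.MP_55a818_lc.H28
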