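import Mathlib
import Pool.Agent.MP_55a818_lc.H28.Disc
import Pool.Agent.MP_55a818_lc.H28.Lim

/-!
The countably infinite discrete space is categorical relative to the halting set.
-/

namespace Pool.Agent.MP_55a818_lc.H28

open Filter Topology

theorem CMS.lim_eq (M : CMS) :
    ∃ E : ℕ × ℕ → Bool, Lim E ∧ ∀ i j, E (i, j) = true ↔ M.c i = M.c j := by
  classical
  obtain ⟨q, hq, ha⟩ := M.apx
  refine ⟨fun p => decide (∀ n, Nat.ble (q (p.1, p.2, n)) 1 = true),
    l_forall (P := fun (p : ℕ × ℕ) n => Nat.ble (q (p.1, p.2, n)) 1) (by fun_prop), fun i j => ?_⟩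
  simp only [Nat.ble_eq, decide_eq_true_eq]
  constructor
  · intro h
    rw [← dist_le_zero]
    have h2 : Tendsto (fun n : ℕ => (2 : ℝ) * (1 / 2) ^ n) atTop (𝓝 (2 * 0)) :=
      (tendsto_pow_atTop_nhds_zero_of_lt_one (by norm_num) (by norm_num)).const_mul 2
    rw [mul_zero] at h2
    refine ge_of_tendsto' h2 fun n => ?_
    have := ha.le (h n)
    simp only [one_div, inv_pow]
    rw [← div_eq_mul_inv]
    norm_num at this
    exact this
  · intro h n
    exact ha.q_le (m := 1) (by simp only [h, dist_self]; positivity)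

theorem CMS.exists_idx (M : CMS) [DiscreteTopology M.carrier] [Infinite M.carrier] :
    ∃ idx : ℕ → ℕ, Lim idx ∧ (∀ i j, idx i = idx j ↔ M.c i = M.c j) ∧
      Function.Surjective idx := by
  classical
  obtain ⟨E, hE, hEq⟩ := M.lim_eq
  have hex : ∀ i, ∃ j, E (j, i) = true := fun i => ⟨i, (hEq _ _).2 rfl⟩
  let first : ℕ → ℕ := fun i => Nat.find (hex i)
  have hfirst : Lim first := l_find (P := fun i j => E (j, i)) (by fun_prop) hex
  let new : ℕ → Bool := fun j => (List.range j).all fun k => !E (k, j)
  have hnew : Lim new := by simp only [new]; fun_prop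
  have new_iff : ∀ j, new j = true ↔ ∀ k < j, M.c k ≠ M.c j := by
    intro j
    simp only [new, List.all_eq_true, List.mem_range, Bool.not_eq_true', ← Bool.not_eq_true, hEq]
  have c_first : ∀ i, M.c (first i) = M.c i := fun i => (hEq _ _).1 (Nat.find_spec (hex i))
  have new_first : ∀ i, new (first i) = true := by
    intro i
    rw [new_iff]
    intro k hk hc
    exact Nat.find_min (hex i) hk ((hEq _ _).2 (hc.trans (c_first i)))
  have first_new : ∀ j, new j = true → first j = j := by
    intro j hj
    refine le_antisymm (Nat.find_min' _ ((hEq _ _).2 rfl)) (not_lt.1 fun hlt => ?_)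
    exact (new_iff j).1 hj _ hlt (c_first j)
  have first_congr : ∀ i j, M.c i = M.c j → first i = first j := by
    intro i j h
    simp only [first]
    congr 1
    funext k
    rw [Bool.eq_iff_iff.2 ((hEq k i).trans (by rw [h]; exact (hEq k j).symm))]
  have hinf : {j | new j = true}.Infinite := by
    intro hf
    have : (M.c '' {j | new j = true}) = Set.univ := by
      refine Set.eq_univ_of_forall fun x => ?_
      obtain ⟨i, rfl⟩ := M.surj x
      exact ⟨first i, new_first i, c_first i⟩
    exact Set.infinite_univ (this ▸ hf.image _)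
  refine ⟨fun i => Nat.count (fun j => new j = true) (first i), ?_, fun i j => ⟨fun h => ?_,
    fun h => by simp only [first_congr i j h]⟩, fun n => ?_⟩
  · have := l_countP (f := fun i => List.range (first i)) (g := fun _ j => new j)
      (by fun_prop) (by fun_prop)
    exact l_of_eq this fun i => by simp [Nat.count]
  · have := Nat.count_injective (new_first i) (new_first j) h
    rw [← c_first i, ← c_first j, this]
  · refine ⟨Nat.nth (fun j => new j = true) n, ?_⟩
    simp only
    rw [first_new _ (Nat.nth_mem_of_infinite hinf n), Nat.count_nth_of_infinite hinf]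

theorem CMS.exists_iso (M : CMS) [DiscreteTopology M.carrier] :
    ∃ P : ℕ × ℕ → Bool, Lim P ∧
      (∀ i r, P (i, r) = true → ∀ x, dist (M.c i) x ≤ 1 / 2 ^ r → x = M.c i) ∧
      ∀ x, ∀ᶠ r in atTop, ∀ i, dist (M.c i) x ≤ 1 / 2 ^ r → P (i, r) = true := by
  classical
  obtain ⟨q, hq, ha⟩ := M.apx
  refine ⟨fun p => decide (∀ z : ℕ, (Nat.ble (q (p.1, z.unpair.1, z.unpair.2)) 1 ||
      Nat.ble 4 (q (p.1, z.unpair.1, p.2 + 1))) = true),
    l_forall (P := fun (p : ℕ × ℕ) z => (Nat.ble (q (p.1, z.unpair.1, z.unpair.2)) 1 ||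
      Nat.ble 4 (q (p.1, z.unpair.1, p.2 + 1)))) (by fun_prop), ?_, ?_⟩
  · intro i r h x hx
    obtain ⟨j, rfl⟩ := M.surj x
    simp only [Bool.or_eq_true, Nat.ble_eq, decide_eq_true_eq] at h
    have h3 : ¬ 4 ≤ q (i, j, r + 1) := by
      intro h4
      have := ha.ge (m := 3) h4
      have h5 : (1 : ℝ) / 2 ^ r < (3 : ℕ) / 2 ^ (r + 1) := by
        rw [div_lt_div_iff₀ (by positivity) (by positivity), pow_succ]
        have : (0 : ℝ) < 2 ^ r := by positivity
        push_cast; linarith
      linarith
    symm
    rw [← dist_le_zero]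
    have h2 : Tendsto (fun n : ℕ => (2 : ℝ) * (1 / 2) ^ n) atTop (𝓝 (2 * 0)) :=
      (tendsto_pow_atTop_nhds_zero_of_lt_one (by norm_num) (by norm_num)).const_mul 2
    rw [mul_zero] at h2
    refine ge_of_tendsto' h2 fun n => ?_
    have h6 := h (Nat.pair j n)
    simp only [Nat.unpair_pair] at h6
    have := ha.le (h6.resolve_right h3)
    simp only [one_div, inv_pow]
    rw [← div_eq_mul_inv]
    norm_num at this
    exact this
  · intro x
    obtain ⟨ε, hε, hx⟩ := Metric.isOpen_singleton_iff.1 (isOpen_discrete {x})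
    have h2 : Tendsto (fun n : ℕ => (4 : ℝ) * (1 / 2) ^ n) atTop (𝓝 (4 * 0)) :=
      (tendsto_pow_atTop_nhds_zero_of_lt_one (by norm_num) (by norm_num)).const_mul 4
    rw [mul_zero] at h2
    filter_upwards [h2.eventually (gt_mem_nhds hε)] with r hr i hi
    simp only [one_div, inv_pow] at hr hi
    have hp : (0 : ℝ) < (2 ^ r)⁻¹ := by positivity
    have hi' : M.c i = x := hx _ (by linarith)
    simp only [Bool.or_eq_true, Nat.ble_eq, decide_eq_true_eq]
    intro z
    by_cases hz : M.c z.unpair.1 = x
    · left
      exact ha.q_le (m := 1) (by simp only [hi', hz, dist_self]; positivity)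
    · right
      refine ha.q_ge (m := 4) ?_
      have : ε ≤ dist (M.c z.unpair.1) x := not_lt.1 fun h => hz (hx _ h)
      simp only [hi']
      rw [dist_comm, pow_succ, show ((4 : ℕ) : ℝ) / (2 ^ r * 2) = 2 * (2 ^ r)⁻¹ by
        push_cast; field_simp; norm_num]
      linarith

theorem categ_halt_nat : Categ Halt ℕ := by
  classical
  rintro M N ⟨eM⟩ ⟨eN⟩
  have := eM.symm.discreteTopology
  have := eN.symm.discreteTopology
  have : Infinite M.carrier := eM.toEquiv.infinite_iff.2 inferInstance
  have : Infinite N.carrier := eN.toEquiv.infinite_iff.2 inferInstance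
  obtain ⟨iM, hiM, hM, sM⟩ := M.exists_idx
  obtain ⟨iN, hiN, hN, sN⟩ := N.exists_idx
  obtain ⟨P, hP, hs, hc⟩ := M.exists_iso
  have bij : ∀ (K : CMS) (hK : Function.Surjective K.c) (i : ℕ → ℕ),
      (∀ a b, i a = i b ↔ K.c a = K.c b) → Function.Surjective i →
      ∃ e : K.carrier ≃ ℕ, ∀ a, e (K.c a) = i a := by
    intro K hK i h1 h2
    have h3 : ∀ a, i (Function.surjInv hK (K.c a)) = i a := fun a =>
      (h1 _ _).2 (Function.surjInv_eq hK _)
    refine ⟨Equiv.ofBijective (fun x => i (Function.surjInv hK x)) ⟨fun x y hxy => ?_,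
      fun n => ?_⟩, h3⟩
    · have := (h1 _ _).1 hxy
      rwa [Function.surjInv_eq hK, Function.surjInv_eq hK] at this
    · obtain ⟨a, rfl⟩ := h2 n
      exact ⟨K.c a, h3 a⟩
  obtain ⟨fM, hfM⟩ := bij M M.surj iM hM sM
  obtain ⟨fN, hfN⟩ := bij N N.surj iN hN sN
  have hex : ∀ i, ∃ j, (iN j == iM i) = true := fun i => by simpa using sN (iM i)
  let φ : ℕ → ℕ := fun i => Nat.find (hex i)
  have hφ : Lim φ := l_find (P := fun i j => iN j == iM i) (by fun_prop) hex
  have hf : ∀ i, (fM.trans fN.symm) (M.c i) = N.c (φ i) := by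
    intro i
    have : (iN (φ i) == iM i) = true := Nat.find_spec (hex i)
    rw [Equiv.trans_apply, Equiv.symm_apply_eq, hfM, hfN]
    exact (beq_iff_eq.1 this).symm
  let T : List ℕ → ℕ → Bool := fun u n => P (u.getD n 0, n)
  refine ⟨(fM.trans fN.symm).toHomeomorphOfDiscrete,
    fun u => (((List.range u.length).find? (T u)).map fun n =>
      List.replicate u.length (φ (u.getD n 0))).getD [], Lim.computableIn ?_, ?_, ?_⟩
  · have h1 : Lim fun u : List ℕ => (List.range u.length).find? (T u) := by
      simp only [T]; fun_prop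
    have h2 : Lim fun u : List ℕ => φ (u.getD (((List.range u.length).find? (T u)).getD 0) 0) := by
      fun_prop
    have h3 : Computable fun p : List ℕ × Option ℕ × ℕ =>
        (p.2.1.map fun _ => List.replicate p.1.length p.2.2).getD [] := by fun_prop
    refine l_of_eq (l_comp (Computable.lim h3) (l_pair l_id (l_pair h1 h2))) fun u => ?_
    cases (List.range u.length).find? (T u) <;> simp
  · intro u v huv
    have hT : ∀ n < u.length, v.getD n 0 = u.getD n 0 := by
      intro n hn
      obtain ⟨t, rfl⟩ := huv
      simp [List.getD_eq_getElem?_getD, List.getElem?_append_left hn]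
    cases hu : (List.range u.length).find? (T u) with
    | none => simp only [hu]; simp
    | some n =>
      simp only [hu]
      rw [List.find?_range_eq_some, List.mem_range] at hu
      have hv : (List.range v.length).find? (T v) = some n := by
        rw [List.find?_range_eq_some, List.mem_range]
        refine ⟨by simp only [T, hT n hu.2.1]; exact hu.1, hu.2.1.trans_le huv.length_le,
          fun j hj => ?_⟩
        simp only [T, hT j (hj.trans hu.2.1)]
        exact hu.2.2 j hj
      simp only [hv, Option.map_some, Option.getD_some, hT n hu.2.1]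
      exact replicate_le huv.length_le _
  · intro p x hp
    have hex' : ∃ n, P (p n, n) = true := by
      obtain ⟨n, hn⟩ := (hc x).exists
      exact ⟨n, hn _ (hp.dist_le n)⟩
    set n₀ := Nat.find hex'
    have hx : x = M.c (p n₀) := hs _ _ (Nat.find_spec hex') x (hp.dist_le _)
    refine ⟨fun _ => φ (p n₀), ?_, fun n => ⟨max n (n₀ + 1), ?_⟩⟩
    · rw [hx]
      change IsName N _ ((fM.trans fN.symm) (M.c _))
      rw [hf]; exact isName_const N _
    · set k := max n (n₀ + 1)
      have hg : ∀ j < k, ((List.range k).map p).getD j 0 = p j := by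
        intro j hj; simp [List.getD_eq_getElem?_getD, hj]
      have hk : n₀ < k := by omega
      have hv : (List.range ((List.range k).map p).length).find? (T ((List.range k).map p)) =
          some n₀ := by
        rw [List.find?_range_eq_some, List.mem_range]
        refine ⟨by simp only [T, hg n₀ hk]; exact Nat.find_spec hex', by simpa using hk,
          fun j hj => ?_⟩
        simp only [T, hg j (hj.trans hk)]
        simpa using Nat.find_min hex' hj
      simp only [hv]
      simp only [Option.map_some, Option.getD_some, hg n₀ hk, List.map_const',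
        List.length_range, List.length_map]
      exact replicate_le (by omega) _

end Pool.Agent.MP_55a818_lc.H28
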