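import Mathlib
import Pool.Agent.MP_55a818_lc.H28.Block
import Pool.Agent.MP_55a818_lc.H28.NatUpper

/-!
Every oracle making the countably infinite discrete space categorical computes the halting set.
-/

namespace Pool.Agent.MP_55a818_lc.H28

open Filter Topology

open Classical in
noncomputable def haltT (z : ℕ) : ℝ :=
  if h : ∃ s, haltAt z s = true then 1 / 2 ^ Nat.find h else 0

theorem halt_le_of_categ {A : Set ℕ} (hA : Categ A ℕ) : TuringReducible (chi Halt) (chi A) := by
  classical
  obtain ⟨M, hM, -, eM⟩ := block_copy (β := fun i => i / 2) (t := haltT)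
    (tq := fun p => (((List.range (p.2 + 1)).find? (haltAt p.1)).map fun s => 2 ^ (p.2 - s)).getD 0)
    (fun b => by unfold haltT; split_ifs <;> positivity)
    (fun b => by
      unfold haltT; split_ifs
      · rw [div_le_one (by positivity)]; exact one_le_pow₀ (by norm_num)
      · norm_num)
    (by fun_prop) (by fun_prop)
    (fun b n => by
      cases hf : (List.range (n + 1)).find? (haltAt b) with
      | none =>
        simp only
        simp only [List.find?_eq_none, List.mem_range] at hf
        unfold haltT
        split_ifs with h
        · have : n ≤ Nat.find h := by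
            by_contra hlt
            exact hf _ (by omega) (Nat.find_spec h)
          simp only [Option.map_none, Option.getD_none, Nat.cast_zero, zero_div, sub_zero]
          rw [abs_of_pos (by positivity)]
          gcongr; norm_num
        · simp
      | some s =>
        simp only
        rw [List.find?_range_eq_some, List.mem_range] at hf
        have h : ∃ s, haltAt b s = true := ⟨s, hf.1⟩
        have e : Nat.find h = s := by
          rw [Nat.find_eq_iff]
          exact ⟨hf.1, fun j hj => by simpa using hf.2.2 j hj⟩
        simp only [haltT, dif_pos h, e, Option.map_some, Option.getD_some]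
        obtain ⟨u, rfl⟩ := Nat.exists_eq_add_of_le (Nat.lt_succ_iff.1 hf.2.1)
        rw [Nat.add_sub_cancel_left, show (1 : ℝ) / 2 ^ s - ((2 ^ u : ℕ) : ℝ) / 2 ^ (s + u) = 0 by
          push_cast; rw [pow_add]; field_simp; ring]
        simp)
    (fun b => ⟨2 * b, by simp⟩)
  obtain ⟨N, hN, eN⟩ := std_copy
  obtain ⟨f, hf⟩ := hA M N eM eN
  obtain ⟨B, hB, hs, he⟩ := compMap_query hf
  refine computableIn_of_approx (g := A.indicator fun _ => 1) (h := Halt.indicator fun _ => 1)
    (ha := fun p => (B (p.1, 2 * p.2, 1)).map fun w => cond (haltAt p.2 w.unpair.1) 1 0)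
    (by fun_prop) ?_ ?_
  · intro k z v hv
    simp only [Option.map_eq_some_iff] at hv
    obtain ⟨w, hw, rfl⟩ := hv
    have H := hs k _ _ w hw
    by_cases hz : z ∈ Halt
    · have h := mem_halt.1 hz
      have hd : dist (M.c (2 * z + 1)) (M.c (2 * z)) = 1 / 2 ^ Nat.find h := by
        rw [hM, blockD, if_pos (by omega), if_neg (by omega), show (2 * z + 1) / 2 = z by omega,
          haltT, dif_pos h]
      have : Nat.find h ≤ w.unpair.1 := by
        by_contra hlt
        have h1 := H (M.c (2 * z + 1)) (by rw [hd]; gcongr; norm_num; omega)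
        have h2 := H (M.c (2 * z)) (by simp)
        have h3 := hN _ _ (h1.trans_lt (by norm_num))
        have h4 := hN _ _ (h2.trans_lt (by norm_num))
        rw [f.injective (h3.symm.trans h4), dist_self] at hd
        exact absurd hd (by positivity)
      rw [haltAt_mono this (Nat.find_spec h), Set.indicator_of_mem hz]
      rfl
    · have : haltAt z w.unpair.1 = false := by
        rw [← Bool.not_eq_true]
        exact fun h => hz (mem_halt.2 ⟨_, h⟩)
      rw [this, Set.indicator_of_notMem hz]
      rfl
  · intro z
    obtain ⟨k, hk⟩ := (he (2 * z) 1).exists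
    exact ⟨k, by simpa using hk⟩

theorem isDegCat_halt_nat : CompPolish ℕ ∧ IsDegCat Halt ℕ := by
  obtain ⟨N, -, eN⟩ := std_copy
  exact ⟨⟨N, eN⟩, categ_halt_nat, fun _ => halt_le_of_categ⟩

end Pool.Agent.MP_55a818_lc.H28
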