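import Mathlib
import Pool.Agent.MP_55a818_lc.H28.Copy

/-!
Metric surgery: add a spike at a point, then a shortcut from the tip of the spike.
-/

namespace Pool.Agent.MP_55a818_lc.H28

open Filter Topology

def addG (d : ℕ → ℕ → ℝ) (g : ℕ → ℝ) (x y : ℕ) : ℝ := d x y + |g x - g y|

def short (d : ℕ → ℕ → ℝ) (c b : ℕ) (l : ℝ) (x y : ℕ) : ℝ :=
  min (d x y) (min (d x c + l + d b y) (d x b + l + d c y))

theorem IsPM.addG {d : ℕ → ℕ → ℝ} (h : IsPM d) (g : ℕ → ℝ) : IsPM (addG d g) := by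
  refine ⟨fun i => by simp [H28.addG, h.self], fun i j => ?_, fun i j k => ?_⟩
  · simp only [H28.addG, h.comm i j, abs_sub_comm (g i)]
  · simp only [H28.addG]
    linarith [h.tri i j k, abs_sub_le (g i) (g j) (g k)]

theorem IsPM.short {d : ℕ → ℕ → ℝ} (h : IsPM d) (c b : ℕ) {l : ℝ} (hl : 0 ≤ l) :
    IsPM (short d c b l) := by
  have nn := h.nonneg
  refine ⟨fun i => ?_, fun i j => ?_, fun x y z => ?_⟩
  · simp only [H28.short, h.self]
    apply min_eq_left
    apply le_min <;> linarith [nn i c, nn b i, nn i b, nn c i]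
  · simp only [H28.short]
    rw [h.comm i j, h.comm i c, h.comm b j, h.comm i b, h.comm c j, min_comm (d c i + l + d j b)]
    congr 2 <;> ring
  · simp only [H28.short]
    have k1 : min (d x z) (min (d x c + l + d b z) (d x b + l + d c z)) ≤ d x z := min_le_left _ _
    have k2 : min (d x z) (min (d x c + l + d b z) (d x b + l + d c z)) ≤ d x c + l + d b z :=
      (min_le_right _ _).trans (min_le_left _ _)
    have k3 : min (d x z) (min (d x c + l + d b z) (d x b + l + d c z)) ≤ d x b + l + d c z :=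
      (min_le_right _ _).trans (min_le_right _ _)
    have t1 := h.tri x y z
    have t2 := h.tri x y c
    have t3 := h.tri x y b
    have t4 := h.tri b y z
    have t5 := h.tri c y z
    have t6 := h.tri x c z
    have t7 := h.tri x b z
    have n1 := nn b y
    have n2 := nn y c
    have n3 := nn c y
    have n4 := nn y b
    rcases min_cases (d x y) (min (d x c + l + d b y) (d x b + l + d c y)) with ⟨e1, -⟩ | ⟨e1, -⟩ <;>
    rcases min_cases (d y z) (min (d y c + l + d b z) (d y b + l + d c z)) with ⟨e2, -⟩ | ⟨e2, -⟩ <;>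
    rcases min_cases (d x c + l + d b y) (d x b + l + d c y) with ⟨e3, -⟩ | ⟨e3, -⟩ <;>
    rcases min_cases (d y c + l + d b z) (d y b + l + d c z) with ⟨e4, -⟩ | ⟨e4, -⟩ <;>
    linarith

/-- the metric after `s` operations -/
def ds (d : ℕ → ℕ → ℝ) (g : ℕ → ℕ → ℝ) (c b : ℕ → ℕ) (l : ℕ → ℝ) : ℕ → ℕ → ℕ → ℝ
  | 0 => d
  | s + 1 => short (addG (ds d g c b l s) (g s)) (c s) (b s) (l s)

section
variable {d : ℕ → ℕ → ℝ} {g : ℕ → ℕ → ℝ} {c b : ℕ → ℕ} {l : ℕ → ℝ}

theorem ds_pm (hd : IsPM d) (hl : ∀ s, 0 < l s) (s : ℕ) : IsPM (ds d g c b l s) := by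
  induction s with
  | zero => exact hd
  | succ s ih => exact (ih.addG _).short _ _ (hl s).le

theorem ds_succ_le (s x y : ℕ) :
    ds d g c b l (s + 1) x y ≤ ds d g c b l s x y + |g s x - g s y| := min_le_left _ _

theorem ds_succ_cb (hd : IsPM d) (hl : ∀ s, 0 < l s) (s : ℕ) :
    ds d g c b l (s + 1) (c s) (b s) ≤ l s := by
  have := (ds_pm (g := g) (c := c) (b := b) hd hl s).addG (g s)
  refine ((min_le_right _ _).trans (min_le_left _ _)).trans ?_
  rw [this.self, this.self]; simp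

theorem ds_succ_eq (hd : IsPM d) (hl : ∀ s, 0 < l s) {s x y : ℕ} (hx : g s x = 0) (hy : g s y = 0)
    (hb : g s (b s) = 0) (hc : ds d g c b l s (c s) (b s) ≤ |g s (c s)| + l s) :
    ds d g c b l (s + 1) x y = ds d g c b l s x y := by
  have h := ds_pm (g := g) (c := c) (b := b) hd hl s
  simp only [ds, short, addG, hx, hy, hb, sub_self, abs_zero, add_zero, zero_sub, abs_neg, sub_zero]
  apply min_eq_left
  apply le_min
  · linarith [h.tri x (c s) y, h.tri (c s) (b s) y]
  · linarith [h.tri x (b s) y, h.tri (b s) (c s) y, h.comm (b s) (c s)]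

theorem ds_lower (hd : IsPM d) (hl : ∀ s, 0 < l s) (s : ℕ) :
    ∃ κ > 0, ∀ x y, κ * min (d x y) 1 ≤ ds d g c b l s x y := by
  induction s with
  | zero => exact ⟨1, one_pos, fun x y => by simp [ds]⟩
  | succ s ih =>
    obtain ⟨κ, hκ, H⟩ := ih
    have h := (ds_pm (g := g) (c := c) (b := b) hd hl s).addG (g s)
    refine ⟨min κ (l s), lt_min hκ (hl s), fun x y => ?_⟩
    have h0 : 0 ≤ min (d x y) 1 := le_min (hd.nonneg x y) zero_le_one
    have h1 : min κ (l s) * min (d x y) 1 ≤ l s :=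
      (mul_le_mul (min_le_right _ _) (min_le_right _ _) h0 (hl s).le).trans (by simp)
    refine le_min ?_ (le_min ?_ ?_)
    · have := mul_le_mul_of_nonneg_right (min_le_left κ (l s)) h0
      have := H x y
      simp only [addG]
      linarith [abs_nonneg (g s x - g s y)]
    · linarith [h.nonneg x (c s), h.nonneg (b s) y]
    · linarith [h.nonneg x (b s), h.nonneg (c s) y]

theorem ds_lip_succ (hl : ∀ s, 0 < l s) {s : ℕ} {φ : ℕ → ℝ}
    (h : ∀ x y, φ x - φ y ≤ ds d g c b l s x y) (hcb : φ (c s) = φ (b s)) (x y : ℕ) :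
    φ x - φ y ≤ ds d g c b l (s + 1) x y := by
  refine le_min ?_ (le_min ?_ ?_) <;> simp only [addG]
  · linarith [h x y, abs_nonneg (g s x - g s y)]
  · linarith [h x (c s), h (b s) y, abs_nonneg (g s x - g s (c s)), abs_nonneg (g s (b s) - g s y),
      hl s]
  · linarith [h x (b s), h (c s) y, abs_nonneg (g s x - g s (b s)), abs_nonneg (g s (c s) - g s y),
      hl s]

theorem ds_upper (hg : ∀ s x, 0 ≤ g s x) {s t : ℕ} (hst : s ≤ t) (x y : ℕ) :
    ds d g c b l t x y ≤ ds d g c b l s x y + ∑ u ∈ Finset.Ico s t, g u x +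
      ∑ u ∈ Finset.Ico s t, g u y := by
  induction hst with
  | refl => simp
  | @step t hst ih =>
    rw [Finset.sum_Ico_succ_top hst, Finset.sum_Ico_succ_top hst]
    have := ds_succ_le (d := d) (g := g) (c := c) (b := b) (l := l) t x y
    have h2 : |g t x - g t y| ≤ g t x + g t y := by
      rw [abs_le]; constructor <;> linarith [hg t x, hg t y]
    simp only [Nat.succ_eq_add_one]
    linarith

theorem ds_lip (hd : IsPM d) {B : ℕ → ℕ} (hB : ∀ s, B s < B (s + 1))
    (hlip : ∀ s x y, |g s x - g s y| ≤ 2 ^ B (s + 1) * d x y) (s x y : ℕ) :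
    ds d g c b l s x y ≤ 2 ^ (B s + 1) * d x y := by
  have hn := hd.nonneg x y
  induction s with
  | zero =>
    simp only [ds]
    exact le_mul_of_one_le_left hn (one_le_pow₀ (by norm_num))
  | succ s ih =>
    have := ds_succ_le (d := d) (g := g) (c := c) (b := b) (l := l) s x y
    have h2 : (2 : ℝ) ^ (B s + 1) ≤ 2 ^ B (s + 1) := pow_le_pow_right₀ (by norm_num) (hB s)
    have h3 := hlip s x y
    have h4 := mul_le_mul_of_nonneg_right h2 hn
    rw [pow_succ]
    linarith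

/-- the limit metric -/
def dlim (d : ℕ → ℕ → ℝ) (g : ℕ → ℕ → ℝ) (c b : ℕ → ℕ) (l : ℕ → ℝ) (x y : ℕ) : ℝ :=
  ds d g c b l (max x y + 1) x y

theorem ds_stable {B : ℕ → ℕ} (hB : ∀ s, B s < B (s + 1))
    (hfix : ∀ s x y, x < B s → y < B s → ds d g c b l (s + 1) x y = ds d g c b l s x y)
    {s t x y : ℕ} (hst : s ≤ t) (hx : x < B s) (hy : y < B s) :
    ds d g c b l t x y = ds d g c b l s x y := by
  have hm := (strictMono_nat_of_lt_succ hB).monotone
  induction hst with
  | refl => rfl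
  | @step t hst ih => rw [← ih]; exact hfix t x y (hx.trans_le (hm hst)) (hy.trans_le (hm hst))

theorem dlim_eq {B : ℕ → ℕ} (hB : ∀ s, B s < B (s + 1))
    (hfix : ∀ s x y, x < B s → y < B s → ds d g c b l (s + 1) x y = ds d g c b l s x y)
    {s x y : ℕ} (hx : x < B s) (hy : y < B s) : dlim d g c b l x y = ds d g c b l s x y := by
  have hm := strictMono_nat_of_lt_succ hB
  have h1 := hm.id_le (max x y + 1)
  simp only [id] at h1
  unfold dlim
  rw [← ds_stable hB hfix (le_max_left (max x y + 1) s) (by omega) (by omega),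
    ds_stable hB hfix (le_max_right (max x y + 1) s) hx hy]

theorem surgery (hd : IsPM d) (hl : ∀ s, 0 < l s) (hg : ∀ s x, 0 ≤ g s x) {B : ℕ → ℕ}
    (hB : ∀ s, B s < B (s + 1))
    (hlip : ∀ s x y, |g s x - g s y| ≤ 2 ^ B (s + 1) * d x y)
    (hfix : ∀ s x y, x < B s → y < B s → ds d g c b l (s + 1) x y = ds d g c b l s x y)
    (hsum : ∀ ε > 0, ∃ s0, ∀ x n, ∑ u ∈ Finset.Ico s0 n, g u x ≤ ε)
    (hclu : ∀ δ > 0, ∃ s0, ∃ w > 0, ∀ x, ∃ ρ, 0 ≤ ρ ∧ ρ + w ≤ δ ∧ ∀ s ≥ s0, c s = b s ∨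
      (d x (c s) ≤ ρ ∧ d x (b s) ≤ ρ) ∨ (ρ + w ≤ d x (c s) ∧ ρ + w ≤ d x (b s))) :
    IsPM (dlim d g c b l) ∧ UC d (dlim d g c b l) ∧ UC (dlim d g c b l) d := by
  have hm := strictMono_nat_of_lt_succ hB
  have hev : ∀ x y s, ∃ t ≥ s, ∀ u ≥ t, dlim d g c b l x y = ds d g c b l u x y := by
    intro x y s
    refine ⟨max s (max x y + 1), le_max_left _ _, fun u hu => ?_⟩
    have h1 := hm.id_le u
    simp only [id] at h1
    exact dlim_eq hB hfix (by omega) (by omega)
  refine ⟨⟨fun i => (ds_pm hd hl _).self i, fun i j => ?_, fun i j k => ?_⟩, ?_, ?_⟩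
  · unfold dlim
    rw [max_comm j i]
    exact (ds_pm hd hl _).comm i j
  · obtain ⟨t1, -, h1⟩ := hev i k 0
    obtain ⟨t2, h12, h2⟩ := hev i j t1
    obtain ⟨t3, h23, h3⟩ := hev j k t2
    rw [h1 t3 (h12.trans h23), h2 t3 h23, h3 t3 le_rfl]
    exact (ds_pm hd hl _).tri i j k
  · intro ε hε
    obtain ⟨s0, hs0⟩ := hsum (ε / 4) (by positivity)
    refine ⟨ε / 4 / 2 ^ (B s0 + 1), by positivity, fun x y hxy => ?_⟩
    obtain ⟨t, ht, h⟩ := hev x y s0
    rw [h t le_rfl]
    have h1 := ds_upper (d := d) (c := c) (b := b) (l := l) hg ht x y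
    have h2 := ds_lip (c := c) (b := b) (l := l) hd hB hlip s0 x y
    rw [lt_div_iff₀ (by positivity)] at hxy
    linarith [hs0 x t, hs0 y t]
  · intro δ hδ
    obtain ⟨s0, w, hw, H⟩ := hclu δ hδ
    obtain ⟨κ, hκ, hlow⟩ := ds_lower (g := g) (c := c) (b := b) hd hl s0
    refine ⟨κ * min w 1, mul_pos hκ (lt_min hw one_pos), fun x y hxy => ?_⟩
    by_contra hge
    push Not at hge
    obtain ⟨ρ, hρ0, hρ, hcl⟩ := H x
    set w' := min w 1 with hw'
    have hw'0 : 0 < w' := lt_min hw one_pos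
    let φ : ℕ → ℝ := fun z => κ * min w' (max 0 (d x z - ρ))
    have hφ0 : ∀ z z', φ z - φ z' ≤ ds d g c b l s0 z z' := by
      intro z z'
      refine le_trans ?_ (hlow z z')
      simp only [φ]
      rw [← mul_sub]
      apply mul_le_mul_of_nonneg_left _ hκ.le
      apply le_min
      · have t := hd.tri x z' z
        rw [hd.comm z' z] at t
        have n := hd.nonneg z z'
        rcases min_cases w' (max 0 (d x z' - ρ)) with ⟨e, _⟩ | ⟨e, _⟩
        · linarith [min_le_left w' (max 0 (d x z - ρ))]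
        · have : max 0 (d x z - ρ) ≤ max 0 (d x z' - ρ) + d z z' := by
            apply max_le
            · linarith [le_max_left 0 (d x z' - ρ)]
            · linarith [le_max_right 0 (d x z' - ρ)]
          linarith [min_le_right w' (max 0 (d x z - ρ))]
      · have : 0 ≤ min w' (max 0 (d x z' - ρ)) := le_min hw'0.le (le_max_left _ _)
        linarith [min_le_left w' (max 0 (d x z - ρ)), min_le_right w 1]
    have hφ : ∀ t, s0 ≤ t → ∀ z z', φ z - φ z' ≤ ds d g c b l t z z' := by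
      intro t ht
      induction ht with
      | refl => exact hφ0
      | @step t ht ih =>
        refine ds_lip_succ hl ih ?_
        rcases hcl t ht with h | ⟨h1, h2⟩ | ⟨h1, h2⟩
        · rw [h]
        · simp only [φ]
          rw [max_eq_left (by linarith), max_eq_left (by linarith)]
        · simp only [φ]
          have := min_le_left w 1
          rw [min_eq_left (le_max_of_le_right (by linarith)),
            min_eq_left (le_max_of_le_right (by linarith))]
    obtain ⟨t, ht, h⟩ := hev x y s0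
    have h1 := hφ t ht y x
    rw [(ds_pm hd hl t).comm, ← h t le_rfl] at h1
    have e1 : φ x = 0 := by
      simp only [φ, hd.self]
      rw [max_eq_left (by linarith), min_eq_right hw'0.le, mul_zero]
    have e2 : φ y = κ * w' := by
      simp only [φ]
      have := min_le_left w 1
      rw [min_eq_left (le_max_of_le_right (by linarith))]
    linarith

end

/-- a shell that avoids one interval of moderate size and finitely many small ones -/
theorem shell {δ : ℝ} (hδ : 0 < δ) (Z : Finset ℕ) (t0 : ℝ) (t : ℕ → ℝ) :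
    ∃ ρ, 0 ≤ ρ ∧ ρ + δ / (3 * (2 * Z.card + 1)) ≤ δ ∧
      (t0 + δ / 6 ≤ ρ ∨ ρ + δ / (3 * (2 * Z.card + 1)) ≤ t0 - δ / 6) ∧
      ∀ j ∈ Z, t j + δ / (3 * (2 * Z.card + 1)) / 2 ≤ ρ ∨
        ρ + δ / (3 * (2 * Z.card + 1)) ≤ t j - δ / (3 * (2 * Z.card + 1)) / 2 := by
  classical
  set w := δ / (3 * (2 * Z.card + 1)) with hw
  have hw0 : 0 < w := by positivity
  have hw1 : (2 * Z.card + 1) * w = δ / 3 := by rw [hw]; field_simp
  obtain ⟨ρ0, h0, h1, h2⟩ : ∃ ρ0, 0 ≤ ρ0 ∧ ρ0 + δ / 3 ≤ δ ∧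
      (t0 + δ / 6 ≤ ρ0 ∨ ρ0 + δ / 3 ≤ t0 - δ / 6) := by
    by_cases h : t0 ≤ δ / 2
    · exact ⟨2 * δ / 3, by positivity, by linarith, Or.inl (by linarith)⟩
    · exact ⟨0, le_rfl, by linarith, Or.inr (by linarith)⟩
  obtain ⟨k, hk, hk'⟩ := Finset.exists_mem_notMem_of_card_lt_card (s := Z.image fun j =>
    ⌊(t j - ρ0 + w / 2) / (2 * w)⌋₊) (t := Finset.range (Z.card + 1))
    (by simpa using Nat.lt_succ_of_le Finset.card_image_le)
  have hk2 : (k : ℝ) ≤ Z.card := by exact_mod_cast Nat.lt_succ_iff.1 (Finset.mem_range.1 hk)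
  have hk0 : (0 : ℝ) ≤ k := by positivity
  have h3 : 2 * k * w + w ≤ δ / 3 := by nlinarith
  have h4 : 0 ≤ 2 * k * w := by positivity
  refine ⟨ρ0 + 2 * k * w, by linarith, by linarith, ?_, fun j hj => ?_⟩
  · rcases h2 with h | h
    · left; linarith
    · right; linarith
  · by_contra hcon
    push Not at hcon
    apply hk'
    refine Finset.mem_image.2 ⟨j, hj, ?_⟩
    rw [Nat.floor_eq_iff (div_nonneg (by linarith [hcon.2]) (by positivity))]
    constructor
    · rw [le_div_iff₀ (by positivity)]; linarith [hcon.2]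
    · rw [div_lt_iff₀ (by positivity)]; linarith [hcon.1]

/-- heights that decay geometrically along overlapping supports have small tail sums -/
theorem chain_sum {g : ℕ → ℝ} {H : ℕ → ℝ} {s0 : ℕ} {β : ℝ} (hβ : 0 ≤ β) (hg : ∀ u, g u ≤ H u)
    (hH : ∀ u ≥ s0, H u ≤ β)
    (hch : ∀ t u, t < u → g t = 0 ∨ g u = 0 ∨ H u ≤ 3 / 4 * H t) (hH0 : ∀ u, 0 ≤ H u) (n : ℕ) :
    ∑ u ∈ Finset.Ico s0 n, g u ≤ 4 * β := by
  rcases le_or_gt n s0 with h | h
  · rw [Finset.Ico_eq_empty_of_le h]; simpa using hβ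
  have key : ∀ n, s0 ≤ n → ∃ γ, 0 ≤ γ ∧ (∀ u ≥ n, g u = 0 ∨ H u ≤ γ) ∧
      ∑ u ∈ Finset.Ico s0 n, g u + 4 * γ ≤ 4 * β := by
    intro n hn
    induction hn with
    | refl => exact ⟨β, hβ, fun u hu => Or.inr (hH u hu), by simp⟩
    | @step n hn ih =>
      obtain ⟨γ, h0, h1, h2⟩ := ih
      rw [Finset.sum_Ico_succ_top hn]
      by_cases hz : g n = 0
      · exact ⟨γ, h0, fun u hu => h1 u (Nat.le_of_succ_le hu), by rw [hz]; linarith⟩
      · refine ⟨3 / 4 * H n, by linarith [hH0 n], fun u hu => ?_, ?_⟩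
        · exact (hch n u hu).resolve_left hz
        · linarith [(h1 n le_rfl).resolve_left hz, hg n]
  obtain ⟨γ, h0, -, h2⟩ := key n h.le
  linarith

end Pool.Agent.MP_55a818_lc.H28
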