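import Mathlib
import Pool.Agent.MP_55a818_lc.H28.Surgery

/-!
Computability of the metrics obtained by surgery, and the metrics obtained by adding new
coordinates in the supremum norm.
-/

namespace Pool.Agent.MP_55a818_lc.H28

open Filter Topology

theorem abs_min_sub {a b a' b' e : ℝ} (h1 : |a - a'| ≤ e) (h2 : |b - b'| ≤ e) :
    |min a b - min a' b'| ≤ e := (abs_min_sub_min_le_max a b a' b').trans (max_le h1 h2)

theorem abs_max_sub {a b a' b' e : ℝ} (h1 : |a - a'| ≤ e) (h2 : |b - b'| ≤ e) :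
    |max a b - max a' b'| ≤ e := (abs_max_sub_max_le_max a b a' b').trans (max_le h1 h2)

theorem cast_dist (a b : ℕ) : ((Nat.dist a b : ℕ) : ℝ) = |(a : ℝ) - b| := by
  rcases le_total a b with h | h
  · rw [Nat.dist_eq_sub_of_le h, Nat.cast_sub h, abs_sub_comm, abs_of_nonneg]
    simpa using h
  · rw [Nat.dist_eq_sub_of_le_right h, Nat.cast_sub h, abs_of_nonneg]
    simpa using h

theorem cast_tsub (a b : ℕ) : ((a - b : ℕ) : ℝ) = max 0 ((a : ℝ) - b) := by
  rcases le_total a b with h | h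
  · rw [Nat.sub_eq_zero_of_le h, max_eq_left]
    · simp
    · simpa using h
  · rw [Nat.cast_sub h, max_eq_right]
    simpa using h

theorem abs_div_floor (a b : ℕ) : |(a : ℝ) / b - ((a / b : ℕ) : ℝ)| ≤ 1 := by
  have h1 : ((a / b : ℕ) : ℝ) ≤ a / b := Nat.cast_div_le
  have h2 : (a : ℝ) / b < (a / b : ℕ) + 1 := by
    have := Nat.lt_floor_add_one ((a : ℝ) / b)
    rwa [Nat.floor_div_eq_div] at this
  rw [abs_le]; constructor <;> linarith

theorem abs_gdist {u v : ℝ} {a b n : ℕ} {e : ℝ} (h1 : |u * 2 ^ n - a| ≤ e)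
    (h2 : |v * 2 ^ n - b| ≤ e) : |(|u - v|) * 2 ^ n - (Nat.dist a b : ℕ)| ≤ 2 * e := by
  have hp : (0 : ℝ) < 2 ^ n := by positivity
  rw [cast_dist, show |u - v| * 2 ^ n = |(u - v) * 2 ^ n| by rw [abs_mul, abs_of_pos hp]]
  refine (abs_abs_sub_abs_le_abs_sub _ _).trans ?_
  rw [abs_le] at *
  constructor <;> linarith [h1.1, h1.2, h2.1, h2.2]

section
variable (q : ℕ × ℕ × ℕ → ℕ) (gN : ℕ × ℕ × ℕ → ℕ) (c b : ℕ → ℕ) (lN : ℕ × ℕ → ℕ)

/-- one step of the surgery on a table of approximate distances -/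
def tabStep (n N s : ℕ) (T : List ℕ) : List ℕ :=
  (List.range (N * N)).map fun z =>
    min (T.getD (Nat.pair z.unpair.1 z.unpair.2) 0 +
        Nat.dist (gN (n, s, z.unpair.1)) (gN (n, s, z.unpair.2)))
      (min (T.getD (Nat.pair z.unpair.1 (c s)) 0 + Nat.dist (gN (n, s, z.unpair.1)) (gN (n, s, c s)) +
          lN (n, s) +
          (T.getD (Nat.pair (b s) z.unpair.2) 0 + Nat.dist (gN (n, s, b s)) (gN (n, s, z.unpair.2))))
        (T.getD (Nat.pair z.unpair.1 (b s)) 0 + Nat.dist (gN (n, s, z.unpair.1)) (gN (n, s, b s)) +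
          lN (n, s) +
          (T.getD (Nat.pair (c s) z.unpair.2) 0 + Nat.dist (gN (n, s, c s)) (gN (n, s, z.unpair.2)))))

def tab (n N s : ℕ) : List ℕ :=
  Nat.rec ((List.range (N * N)).map fun z => q (z.unpair.1, z.unpair.2, n))
    (tabStep gN c b lN n N) s

end

def errS (E : ℕ → ℕ) (s : ℕ) : ℕ := Nat.rec 1 (fun u e => 2 * (e + 2 * E u) + 1) s

theorem pair_lt_sq {x y N : ℕ} (hx : x < N) (hy : y < N) : Nat.pair x y < N * N := by
  have := Nat.pair_lt_max_add_one_sq x y
  have h2 : max x y + 1 ≤ N := by omega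
  exact this.trans_le (by rw [sq]; exact Nat.mul_le_mul h2 h2)

theorem getD_map_range (f : ℕ → ℕ) {M z : ℕ} (h : z < M) :
    ((List.range M).map f).getD z 0 = f z := by
  simp [List.getD_eq_getElem?_getD, h]

theorem compD_dlim {d : ℕ → ℕ → ℝ} {g : ℕ → ℕ → ℝ} {c b : ℕ → ℕ} {l : ℕ → ℝ} (hd : CompD d)
    {gN : ℕ × ℕ × ℕ → ℕ} {lN : ℕ × ℕ → ℕ} {E B : ℕ → ℕ} (hgN : Computable gN)
    (hlN : Computable lN) (hE : Computable E) (hc : Computable c) (hb : Computable b)
    (hBc : Computable B) (hB : Monotone B) (hcb : ∀ s, c s < B (s + 1) ∧ b s < B (s + 1))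
    (hg : ∀ n s x, |g s x * 2 ^ n - gN (n, s, x)| ≤ E s)
    (hl : ∀ n s, |l s * 2 ^ n - lN (n, s)| ≤ 1) : CompD (dlim d g c b l) := by
  obtain ⟨q, hq, hq'⟩ := hd
  have key : ∀ n N s, B s ≤ N → ∀ x < N, ∀ y < N,
      |ds d g c b l s x y * 2 ^ n - (tab q gN c b lN n N s).getD (Nat.pair x y) 0| ≤ errS E s := by
    intro n N s
    induction s with
    | zero =>
      intro _ x hx y hy
      simp only [tab, Nat.rec_zero, getD_map_range _ (pair_lt_sq hx hy), Nat.unpair_pair, ds, errS,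
        Nat.cast_one]
      exact hq'.scaled x y n
    | succ s ih =>
      intro hs x hx y hy
      have ih := ih ((hB (Nat.le_succ s)).trans hs)
      have hcN := (hcb s).1.trans_le hs
      have hbN := (hcb s).2.trans_le hs
      have one : ∀ x < N, ∀ y < N, |addG (ds d g c b l s) (g s) x y * 2 ^ n -
          (((tab q gN c b lN n N s).getD (Nat.pair x y) 0 +
            Nat.dist (gN (n, s, x)) (gN (n, s, y)) : ℕ) : ℝ)| ≤ errS E s + 2 * E s := by
        intro x hx y hy
        have h1 := ih x hx y hy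
        have h2 := abs_gdist (hg n s x) (hg n s y)
        simp only [addG, Nat.cast_add]
        rw [abs_le] at *
        constructor <;> linarith [h1.1, h1.2, h2.1, h2.2]
      have e : tab q gN c b lN n N (s + 1) = tabStep gN c b lN n N s (tab q gN c b lN n N s) := rfl
      have e2 : (errS E (s + 1) : ℝ) = 2 * (errS E s + 2 * E s) + 1 := by
        simp [errS]
      have hp : (0 : ℝ) ≤ 2 ^ n := by positivity
      have hn : (0 : ℝ) ≤ errS E s + 2 * E s := by positivity
      rw [e, tabStep, getD_map_range _ (pair_lt_sq hx hy), e2]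
      simp only [Nat.unpair_pair, ds, short, min_mul_of_nonneg _ _ hp, Nat.cast_min]
      have h1 := one x hx y hy
      have h2 := one x hx _ hcN
      have h3 := one _ hbN y hy
      have h4 := one x hx _ hbN
      have h5 := one _ hcN y hy
      have h6 := hl n s
      refine abs_min_sub (by linarith) (abs_min_sub ?_ ?_)
      · rw [Nat.cast_add, Nat.cast_add]
        rw [abs_le] at *
        constructor <;> linarith [h2.1, h2.2, h3.1, h3.2, h6.1, h6.2]
      · rw [Nat.cast_add, Nat.cast_add]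
        rw [abs_le] at *
        constructor <;> linarith [h4.1, h4.2, h5.1, h5.2, h6.1, h6.2]
  have hstep : Computable fun p : ℕ × ℕ × ℕ × List ℕ =>
      tabStep gN c b lN p.1 p.2.1 p.2.2.1 p.2.2.2 := by
    unfold tabStep; fun_prop
  have htab : Computable fun p : ℕ × ℕ × ℕ => tab q gN c b lN p.1 p.2.1 p.2.2 := by
    unfold tab; fun_prop
  have herr : Computable (errS E) := by unfold errS; fun_prop
  refine compD_of_err (q := fun p => (tab q gN c b lN p.2.2
    (B (max p.1 p.2.1 + 1) + (max p.1 p.2.1 + 1)) (max p.1 p.2.1 + 1)).getD (Nat.pair p.1 p.2.1) 0)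
    (E := fun p => errS E (max p.1 p.2 + 1)) (by fun_prop) (by fun_prop) fun i j n => ?_
  exact key n _ _ (by dsimp only; omega) i (by dsimp only; omega) j (by dsimp only; omega)

/-- the metric after adding `s` new coordinates -/
def dc (d : ℕ → ℕ → ℝ) (g : ℕ → ℕ → ℝ) : ℕ → ℕ → ℕ → ℝ
  | 0 => d
  | s + 1 => fun x y => max (dc d g s x y) |g s x - g s y|

def dsup (d : ℕ → ℕ → ℝ) (g : ℕ → ℕ → ℝ) (x y : ℕ) : ℝ := dc d g (max x y + 1) x y

section
variable {d : ℕ → ℕ → ℝ} {g : ℕ → ℕ → ℝ}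

theorem dc_pm (hd : IsPM d) (s : ℕ) : IsPM (dc d g s) := by
  induction s with
  | zero => exact hd
  | succ s ih =>
    refine ⟨fun i => by simp [dc, ih.self], fun i j => by
      simp only [dc, ih.comm i j, abs_sub_comm (g s i)], fun i j k => ?_⟩
    simp only [dc]
    apply max_le
    · linarith [ih.tri i j k, le_max_left (dc d g s i j) |g s i - g s j|,
        le_max_left (dc d g s j k) |g s j - g s k|]
    · linarith [abs_sub_le (g s i) (g s j) (g s k), le_max_right (dc d g s i j) |g s i - g s j|,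
        le_max_right (dc d g s j k) |g s j - g s k|]

theorem dc_mono {s t : ℕ} (h : s ≤ t) (x y : ℕ) : dc d g s x y ≤ dc d g t x y := by
  induction h with
  | refl => rfl
  | step _ ih => exact ih.trans (le_max_left _ _)

theorem dc_le {s x y : ℕ} {e : ℝ} (h0 : d x y ≤ e) (h : ∀ u < s, |g u x - g u y| ≤ e) :
    dc d g s x y ≤ e := by
  induction s with
  | zero => exact h0
  | succ s ih => exact max_le (ih fun u hu => h u (by omega)) (h s (by omega))

theorem cuts (hd : IsPM d) (hz : ∀ s x, x < s → g s x = 0)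
    (hlip : ∀ s, ∃ Λ > 0, ∀ x y, |g s x - g s y| ≤ Λ * d x y)
    (hsmall : ∀ ε > 0, ∃ s0, ∀ s ≥ s0, ∀ x y, |g s x - g s y| ≤ ε) :
    IsPM (dsup d g) ∧ UC d (dsup d g) ∧ UC (dsup d g) d ∧ (∀ x y, d x y ≤ dsup d g x y) ∧
      ∀ s x y, |g s x - g s y| ≤ dsup d g x y := by
  have h1 : ∀ x y, d x y ≤ dsup d g x y := fun x y => dc_mono (g := g) (Nat.zero_le _) x y
  have h2 : ∀ s x y, |g s x - g s y| ≤ dsup d g x y := by
    intro s x y
    by_cases hs : s < max x y + 1
    · exact (le_max_right _ _).trans (dc_mono (d := d) (g := g) (Nat.succ_le_of_lt hs) x y)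
    · rw [hz s x (by omega), hz s y (by omega)]
      simpa using (hd.nonneg x y).trans (h1 x y)
  have h3 : ∀ s x y, dc d g s x y ≤ dsup d g x y := fun s x y =>
    dc_le (h1 x y) fun u _ => h2 u x y
  refine ⟨⟨fun i => (dc_pm hd _).self i, fun i j => ?_, fun i j k => ?_⟩, ?_, ?_, h1, h2⟩
  · unfold dsup
    rw [max_comm j i]
    exact (dc_pm hd _).comm i j
  · exact ((dc_pm hd _).tri i j k).trans (add_le_add (h3 _ _ _) (h3 _ _ _))
  · intro ε hε
    obtain ⟨s0, hs0⟩ := hsmall (ε / 2) (by positivity)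
    choose Λ hΛ0 hΛ using hlip
    set L := 1 + ∑ u ∈ Finset.range s0, Λ u with hL
    have hs : 0 ≤ ∑ u ∈ Finset.range s0, Λ u := Finset.sum_nonneg fun u _ => (hΛ0 u).le
    refine ⟨ε / 2 / L, by positivity, fun x y hxy => ?_⟩
    rw [lt_div_iff₀ (by positivity)] at hxy
    have hn := hd.nonneg x y
    refine lt_of_le_of_lt (dc_le (e := ε / 2) (by nlinarith) fun u _ => ?_) (by linarith)
    by_cases hu : u < s0
    · have := Finset.single_le_sum (f := Λ) (fun u _ => (hΛ0 u).le) (Finset.mem_range.2 hu)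
      nlinarith [hΛ u x y]
    · exact hs0 u (not_lt.1 hu) x y
  · exact fun ε hε => ⟨ε, hε, fun x y hxy => (h1 x y).trans_lt hxy⟩

def errC (E : ℕ → ℕ) (s : ℕ) : ℕ := Nat.rec 1 (fun u e => e + 2 * E u) s

theorem compD_dsup (hd : CompD d) {gN : ℕ × ℕ × ℕ → ℕ} {E : ℕ → ℕ} (hgN : Computable gN)
    (hE : Computable E) (hg : ∀ n s x, |g s x * 2 ^ n - gN (n, s, x)| ≤ E s) :
    CompD (dsup d g) := by
  obtain ⟨q, hq, hq'⟩ := hd
  let A : ℕ × ℕ × ℕ → ℕ → ℕ := fun p s => Nat.rec (motive := fun _ => ℕ) (q p)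
    (fun u a => max a (Nat.dist (gN (p.2.2, u, p.1)) (gN (p.2.2, u, p.2.1)))) s
  let F : ℕ → ℕ := errC E
  have key : ∀ x y n s : ℕ,
      |dc d g s x y * 2 ^ n - ((A (x, y, n) s : ℕ) : ℝ)| ≤ ((F s : ℕ) : ℝ) := by
    intro x y n s
    induction s with
    | zero => simpa [dc, A, F, errC] using hq'.scaled x y n
    | succ s ih =>
      have hp : (0 : ℝ) ≤ 2 ^ n := by positivity
      have e1 : (F (s + 1) : ℝ) = F s + 2 * E s := by simp [F, errC]
      have e2 : A (x, y, n) (s + 1) =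
        max (A (x, y, n) s) (Nat.dist (gN (n, s, x)) (gN (n, s, y))) := rfl
      rw [e1, e2]
      simp only [dc, max_mul_of_nonneg _ _ hp, Nat.cast_max]
      have h0 : (0 : ℝ) ≤ E s := by positivity
      have h1 : (0 : ℝ) ≤ F s := by positivity
      exact abs_max_sub (by linarith) ((abs_gdist (hg n s x) (hg n s y)).trans (by linarith))
  refine compD_of_err (q := fun p => A p (max p.1 p.2.1 + 1))
    (E := fun p => F (max p.1 p.2 + 1)) (by simp only [A]; fun_prop) (by simp only [F, errC]; fun_prop)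
    fun i j n => key i j n _

end

end Pool.Agent.MP_55a818_lc.H28
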