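import Mathlib
import Pool.Agent.MP_55a818_lc.H28.Absorb
import Pool.Agent.MP_55a818_lc.H28.SurgeryComp

/-!
Copies of a space with dense isolated points inside the product with the real line.
-/

namespace Pool.Agent.MP_55a818_lc.H28

open Filter Topology Set

theorem strip (M : CMS) (hd : Dense (Iso M.carrier)) (hne : (Iso M.carrier)ᶜ.Nonempty)
    {u : ℕ → ℕ} (hu : Computable u) (hfin : ∀ m, {n | M.c (u n) = m}.Finite)
    (hdense : DenseRange fun n => M.c (u n)) {t : ℕ → ℝ} (ht0 : ∀ n, 0 < t n)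
    (ht : Tendsto t atTop (𝓝 0)) {tq : ℕ × ℕ → ℕ} (htq : Computable tq)
    (hta : ∀ n k, |t n * 2 ^ k - tq (n, k)| ≤ 2) :
    ∃ N : CMS, (∀ i k, dist (N.c i) (N.c k) = max (dist (M.c (u i)) (M.c (u k))) |t i - t k|) ∧
      (∀ n, IsOpen ({N.c n} : Set N.carrier)) ∧ Nonempty (N.carrier ≃ₜ M.carrier) := by
  let c : ℕ → M.carrier × ℝ := fun n => (M.c (u n), t n)
  let Y := closure (range c)
  let cY : ℕ → Y := fun n => ⟨c n, subset_closure ⟨n, rfl⟩⟩
  have hdY : DenseRange cY := by
    intro y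
    rw [closure_subtype, ← range_comp]
    exact y.2
  have hdist : ∀ i k, dist (cY i) (cY k) = max (dist (M.c (u i)) (M.c (u k))) |t i - t k| :=
    fun i k => rfl
  have hc : CompD fun i k => dist (cY i) (cY k) := by
    obtain ⟨q, hq, ha⟩ : ∃ q : ℕ × ℕ × ℕ → ℕ, Computable q ∧
      Apx (fun i j => dist (M.c i) (M.c j)) q := M.comp
    refine compD_of_err (E := fun _ => 4) (q := fun p => max (q (u p.1, u p.2.1, p.2.2))
      (Nat.dist (tq (p.1, p.2.2)) (tq (p.2.1, p.2.2)))) (by fun_prop) (by fun_prop) fun i k n => ?_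
    simp only [hdist]
    rw [max_mul_of_nonneg _ _ (by positivity), Nat.cast_max]
    refine abs_max_sub ((ha.scaled _ _ _).trans (by norm_num)) ?_
    exact (abs_gdist (hta i n) (hta k n)).trans (by norm_num)
  -- the points of the sequence, without repetition
  let J := range cY
  let p : J → M.carrier := fun j => j.1.1.1
  let τ : J → ℝ := fun j => j.1.1.2
  have hJ : ∀ {S : Set ℕ}, S.Finite → ∀ {T : Set J}, (∀ n h, (⟨cY n, h⟩ : J) ∈ T → n ∈ S) →
      T.Finite := by
    intro S hS T hT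
    refine (hS.image fun n => (⟨cY n, n, rfl⟩ : J)).subset ?_
    rintro ⟨_, n, rfl⟩ h
    exact ⟨n, hT n _ h, rfl⟩
  have hτ0 : ∀ j, 0 < τ j := by rintro ⟨_, n, rfl⟩; exact ht0 n
  have hτ : Tendsto τ cofinite (𝓝 0) := by
    intro U hU
    have := ht hU
    rw [← Nat.cofinite_eq_atTop] at this
    exact hJ this fun n _ h => h
  have hpd : DenseRange p := by
    refine hdense.mono ?_
    rintro _ ⟨n, rfl⟩
    exact ⟨⟨cY n, n, rfl⟩, rfl⟩
  have hpf : ∀ m, {j | p j = m}.Finite := fun m => hJ (hfin m) fun n _ h => h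
  have : Countable J := (countable_range cY).to_subtype
  obtain ⟨ψ, hψi, hψr, hψ⟩ := absorb hd hne hpf hpd
  have hi : DenseRange (Subtype.val : J → Y) := by
    rw [DenseRange, Subtype.range_coe]; exact hdY
  have hk : DenseRange ψ := by rw [DenseRange, hψr]; exact hd
  have cof : ∀ {Z : Type} [MetricSpace Z] {i : J → Z}, Function.Injective i → ∀ y ∉ range i,
      comap i (𝓝 y) ≤ cofinite := by
    intro Z _ i hi y hy
    rw [le_cofinite_iff_compl_singleton_mem]
    intro j
    refine ⟨{i j}ᶜ, compl_singleton_mem_nhds fun e => hy ⟨j, e.symm⟩, fun j' hj' e => ?_⟩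
    exact hj' (by rw [mem_singleton_iff.1 e]; rfl)
  have iso : ∀ j : J, IsOpen ({j.1} : Set Y) := by
    intro j
    have h1 : {j' : J | τ j / 2 ≤ τ j'}.Finite := by
      have := hτ.eventually (gt_mem_nhds (half_pos (hτ0 j)))
      simpa only [eventually_cofinite, not_lt] using this
    have h2 : IsOpen {y : Y | τ j / 2 < y.1.2} := isOpen_lt continuous_const (by fun_prop)
    have h3 : {y : Y | τ j / 2 < y.1.2} ⊆ Subtype.val '' {j' : J | τ j / 2 ≤ τ j'} := by
      refine (hi.open_subset_closure_inter h2).trans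
        ((h1.image _).isClosed.closure_subset_iff.2 ?_)
      rintro _ ⟨h, j', rfl⟩
      exact ⟨j', (show τ j / 2 < τ j' from h).le, rfl⟩
    exact isOpen_singleton_of_finite_mem_nhds _ (h2.mem_nhds (half_lt_self (hτ0 j)))
      ((h1.image _).subset h3)
  have pure1 : ∀ {Z : Type} [MetricSpace Z] {i : J → Z}, Function.Injective i → ∀ j,
      IsOpen ({i j} : Set Z) → comap i (𝓝 (i j)) ≤ pure j := by
    intro Z _ i hi j h
    rw [le_pure_iff]
    exact ⟨{i j}, h.mem_nhds rfl, fun j' hj' => hi hj'⟩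
  have h3 : ∀ j : J, Tendsto ψ (comap Subtype.val (𝓝 j.1)) (𝓝 (ψ j)) := fun j =>
    (tendsto_pure_nhds ψ j).mono_left (pure1 Subtype.val_injective j (iso j))
  have h4 : ∀ j : J, Tendsto Subtype.val (comap ψ (𝓝 (ψ j))) (𝓝 j.1) := fun j =>
    (tendsto_pure_nhds _ j).mono_left (pure1 hψi j (by
      have : ψ j ∈ Iso M.carrier := hψr ▸ mem_range_self j
      exact this))
  refine ⟨⟨Y, inferInstance, isClosed_closure.completeSpace_coe, cY, hdY, hc⟩, hdist,
    fun n => iso ⟨cY n, n, rfl⟩, homeo_of_dense hi hk (fun y => ?_) (fun z => ?_) h3 h4⟩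
  · by_cases hy : y ∈ range (Subtype.val : J → Y)
    · obtain ⟨j, rfl⟩ := hy
      exact ⟨_, h3 j⟩
    have e1 := cof Subtype.val_injective y hy
    have e2 : comap (Subtype.val : J → Y) (𝓝 y) ≤ comap p (𝓝 y.1.1) :=
      ((show Continuous fun y : Y => y.1.1 by fun_prop).tendsto y).comp tendsto_comap |>.le_comap
    refine ⟨y.1.1, (hψ _ fun hI => ?_).1.mono_left (le_inf e1 e2)⟩
    have e3 : NeBot (comap (Subtype.val : J → Y) (𝓝 y)) :=
      comap_neBot fun U hU => hi.mem_nhds hU
    have e4 : {j | p j = y.1.1} ∈ comap (Subtype.val : J → Y) (𝓝 y) :=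
      e2 (preimage_mem_comap (IsOpen.mem_nhds hI rfl))
    obtain ⟨j, h1, h2⟩ := e3.nonempty_of_mem (inter_mem e4 (e1 (hpf _).compl_mem_cofinite))
    exact h2 h1
  · by_cases hz : z ∈ range ψ
    · obtain ⟨j, rfl⟩ := hz
      exact ⟨_, h4 j⟩
    have e1 := cof hψi z hz
    have e2 := (hψ z (hψr ▸ hz)).2.mono_left (le_inf e1 le_rfl)
    have e3 : NeBot (comap ψ (𝓝 z)) := comap_neBot fun U hU => hk.mem_nhds hU
    have e4 : Tendsto (fun j : J => j.1.1) (comap ψ (𝓝 z)) (𝓝 (z, 0)) :=
      e2.prodMk_nhds (hτ.mono_left e1)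
    exact ⟨⟨(z, 0), isClosed_closure.mem_of_tendsto e4 (Eventually.of_forall fun j => j.1.2)⟩,
      tendsto_subtype_rng.2 e4⟩

/-- a computable injective dense subsequence -/
theorem exists_inj_dense (M : CMS) [Infinite M.carrier] :
    ∃ w : ℕ → ℕ, Computable w ∧ Function.Injective (fun n => M.c (w n)) ∧
      DenseRange fun n => M.c (w n) := by
  classical
  obtain ⟨q, hq, ha⟩ : ∃ q : ℕ × ℕ × ℕ → ℕ, Computable q ∧
    Apx (fun i j => dist (M.c i) (M.c j)) q := M.comp
  let P : List ℕ → ℕ → Bool := fun l z =>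
    l.all fun k => Nat.ble 2 (q (k.unpair.1, z.unpair.1, z.unpair.2))
  have key : ∀ (l : List ℕ) (i m : ℕ), (∀ k ∈ l, 2 / 2 ^ m < dist (M.c k.unpair.1) (M.c i)) →
      P l (Nat.pair i m) = true := by
    intro l i m h
    simp only [P, List.all_eq_true, Nat.ble_eq, Nat.unpair_pair]
    exact fun k hk => ha.q_ge (m := 2) (by simpa using h k hk)
  have half : ∀ δ : ℝ, 0 < δ → ∀ᶠ m : ℕ in atTop, 2 / 2 ^ m < δ := by
    intro δ hδ
    have := (tendsto_pow_atTop_nhds_zero_of_lt_one (r := (1 / 2 : ℝ)) (by norm_num)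
      (by norm_num)).eventually (gt_mem_nhds (half_pos hδ))
    filter_upwards [this] with m hm
    rw [one_div_pow] at hm
    rw [div_eq_mul_one_div]; linarith
  have hex : ∀ l, ∃ z, P l z = true := by
    intro l
    have hf : ((fun k : ℕ => M.c k.unpair.1) '' {k | k ∈ l}).Finite :=
      (List.finite_toSet l).image _
    obtain ⟨i, hi⟩ := M.dense.exists_mem_open hf.isClosed.isOpen_compl hf.infinite_compl.nonempty
    have : ∀ᶠ m : ℕ in atTop, ∀ k ∈ {k | k ∈ l}, 2 / 2 ^ m < dist (M.c k.unpair.1) (M.c i) :=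
      (eventually_all_finite (List.finite_toSet l)).2 fun k hk =>
        half _ (dist_pos.2 fun e => hi ⟨k, hk, e⟩)
    obtain ⟨m, hm⟩ := this.exists
    exact ⟨_, key l i m hm⟩
  let nx : List ℕ → ℕ := fun l => Nat.find (hex l)
  have hnx : Computable nx := c_find (by simp only [P]; fun_prop) hex
  let S : ℕ → List ℕ := fun n => Nat.rec [] (fun _ l => nx l :: l) n
  have hS : Computable S := by simp only [S]; fun_prop
  let z : ℕ → ℕ := fun n => nx (S n)
  have mem : ∀ n k, k ∈ S n ↔ ∃ m < n, z m = k := by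
    intro n k
    induction n with
    | zero => simp [S]
    | succ n ih =>
      change k ∈ z n :: S n ↔ _
      rw [List.mem_cons, ih, Nat.exists_lt_succ_right, or_comm, eq_comm]
  have hinj : Function.Injective fun n => M.c (z n).unpair.1 := by
    have : ∀ m n, m < n → M.c (z m).unpair.1 ≠ M.c (z n).unpair.1 := by
      intro m n h e
      have h1 : P (S n) (z n) = true := Nat.find_spec (hex (S n))
      simp only [P, List.all_eq_true, Nat.ble_eq] at h1
      have h2 := ha.ge (m := 1) (h1 _ ((mem n _).2 ⟨m, h, rfl⟩))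
      simp only [e, dist_self] at h2
      exact absurd h2 (not_le.2 (by positivity))
    intro m n e
    rcases lt_trichotomy m n with h | h | h
    · exact absurd e (this m n h)
    · exact h
    · exact absurd e.symm (this n m h)
  refine ⟨fun n => (z n).unpair.1, by simp only [z]; fun_prop, hinj, ?_⟩
  have : ∀ i, M.c i ∈ closure (range fun n => M.c (z n).unpair.1) := by
    intro i
    by_contra hi
    rw [Metric.mem_closure_range_iff] at hi
    push Not at hi
    obtain ⟨ε, hε, hi⟩ := hi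
    obtain ⟨m, hm⟩ := (half ε hε).exists
    have h1 : ∀ n, z n ≤ Nat.pair i m := fun n => Nat.find_min' _ (key _ _ _ fun k hk => by
      obtain ⟨j, -, rfl⟩ := (mem n k).1 hk
      rw [dist_comm]
      exact hm.trans_le (hi j))
    have h2 : Function.Injective z := fun a b e => hinj (by simp only [e])
    exact infinite_range_of_injective h2 ((finite_le_nat _).subset (by
      rintro _ ⟨n, rfl⟩; exact h1 n))
  intro x
  exact isClosed_closure.closure_subset_iff.2 (by rintro _ ⟨i, rfl⟩; exact this i) (M.dense x)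

end Pool.Agent.MP_55a818_lc.H28
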