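import Mathlib
import Pool.Agent.MP_55a818_lc.H28.Strip
import Pool.Agent.MP_55a818_lc.H28.NatLower
import Pool.Agent.MP_55a818_lc.H28.Low

/-!
An infinite space with dense isolated points is categorical only relative to oracles that compute
the halting set, and low sets do not compute the halting set.
-/

namespace Pool.Agent.MP_55a818_lc.H28

open Filter Topology Set

def haltQ (p : ℕ × ℕ) : ℕ :=
  (((List.range (p.2 + 1)).find? (haltAt p.1)).map fun s => 2 ^ (p.2 - s)).getD 0

@[fun_prop] theorem c_haltQ : Computable haltQ := by unfold haltQ; fun_prop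

theorem haltT_bd (b : ℕ) : 0 ≤ haltT b ∧ haltT b ≤ 1 := by
  unfold haltT; split_ifs
  · exact ⟨by positivity, by rw [div_le_one (by positivity)]; exact one_le_pow₀ (by norm_num)⟩
  · norm_num

theorem haltT_apx (b n : ℕ) : |haltT b * 2 ^ n - haltQ (b, n)| ≤ 1 := by
  classical
  unfold haltQ
  cases hf : (List.range (n + 1)).find? (haltAt b) with
  | none =>
    simp only [List.find?_eq_none, List.mem_range] at hf
    unfold haltT
    split_ifs with h
    · have : n ≤ Nat.find h := by
        by_contra hlt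
        exact hf _ (by omega) (Nat.find_spec h)
      simp only [Option.map_none, Option.getD_none, Nat.cast_zero, sub_zero]
      rw [abs_of_pos (by positivity), one_div_mul_eq_div, div_le_one (by positivity)]
      gcongr; norm_num
    · simp
  | some s =>
    rw [List.find?_range_eq_some, List.mem_range] at hf
    have h : ∃ s, haltAt b s = true := ⟨s, hf.1⟩
    have e : Nat.find h = s := by
      rw [Nat.find_eq_iff]
      exact ⟨hf.1, fun j hj => by simpa using hf.2.2 j hj⟩
    simp only [haltT, dif_pos h, e, Option.map_some, Option.getD_some]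
    obtain ⟨u, rfl⟩ := Nat.exists_eq_add_of_le (Nat.lt_succ_iff.1 hf.2.1)
    rw [Nat.add_sub_cancel_left, show (1 : ℝ) / 2 ^ s * 2 ^ (s + u) - ((2 ^ u : ℕ) : ℝ) = 0 by
      push_cast; rw [pow_add]; field_simp; ring]
    simp

theorem iso_case (M : CMS) [Infinite M.carrier] (hd : Dense (Iso M.carrier))
    (hne : (Iso M.carrier)ᶜ.Nonempty) :
    ∃ N1 N2 : CMS, Nonempty (N1.carrier ≃ₜ M.carrier) ∧ Nonempty (N2.carrier ≃ₜ M.carrier) ∧
      ∀ (A : Set ℕ) (f : N1.carrier ≃ₜ N2.carrier), CompMap A N1 N2 f →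
        TuringReducible (chi Halt) (chi A) := by
  classical
  obtain ⟨w, hw, hwi, hwd⟩ := exists_inj_dense M
  have fin : ∀ m, {n | M.c (w n) = m}.Finite := fun m =>
    Set.Subsingleton.finite fun a ha b hb => hwi (ha.trans hb.symm)
  have lim : Tendsto (fun n : ℕ => (1 : ℝ) / 2 ^ n) atTop (𝓝 0) := by
    simpa only [one_div_pow] using tendsto_pow_atTop_nhds_zero_of_lt_one (r := (1 / 2 : ℝ))
      (by norm_num) (by norm_num)
  obtain ⟨N2, hN2, -, e2⟩ := strip M hd hne hw fin hwd (t := fun n => 1 / 2 ^ n)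
    (fun n => by positivity) lim (tq := fun p => 2 ^ p.2 / 2 ^ p.1) (by fun_prop) (fun n k => by
      have := abs_div_floor (2 ^ k) (2 ^ n)
      rw [one_div_mul_eq_div]
      push_cast at this
      exact this.trans (by norm_num))
  obtain ⟨N1, hN1, iso1, e1⟩ := strip M hd hne (u := fun n => w (n / 2)) (by fun_prop)
    (fun m => ((fin m).biUnion (t := fun a => {2 * a, 2 * a + 1}) fun a _ => by simp).subset
      fun n hn => mem_biUnion (show n / 2 ∈ _ from hn) (by simp; omega))
    (hwd.mono (by rintro _ ⟨n, rfl⟩; exact ⟨2 * n, by simp⟩))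
    (t := fun n => (1 + (n % 2 : ℕ) * haltT (n / 2)) / 2 ^ (n / 2))
    (fun n => by have := (haltT_bd (n / 2)).1; positivity)
    (by
      have h1 : Tendsto (fun n : ℕ => n / 2) atTop atTop :=
        tendsto_atTop.2 fun b => (eventually_ge_atTop (2 * b)).mono fun n hn => by omega
      have h2 := (lim.comp h1).const_mul 2
      rw [mul_zero] at h2
      refine squeeze_zero (fun n => by have := (haltT_bd (n / 2)).1; positivity) (fun n => ?_) h2
      have h3 : ((n % 2 : ℕ) : ℝ) ≤ 1 := by exact_mod_cast (by omega : n % 2 ≤ 1)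
      have h4 := mul_le_one₀ h3 (haltT_bd (n / 2)).1 (haltT_bd (n / 2)).2
      simp only [Function.comp, mul_one_div]
      gcongr; linarith)
    (tq := fun p => (2 ^ p.2 + p.1 % 2 * haltQ (p.1 / 2, p.2)) / 2 ^ (p.1 / 2)) (by fun_prop)
    (fun n k => by
      simp only
      have h1 := abs_div_floor (2 ^ k + n % 2 * haltQ (n / 2, k)) (2 ^ (n / 2))
      have h2 := haltT_apx (n / 2) k
      have h3 : ((n % 2 : ℕ) : ℝ) ≤ 1 := by exact_mod_cast (by omega : n % 2 ≤ 1)
      have h4 : |(1 + (n % 2 : ℕ) * haltT (n / 2)) / 2 ^ (n / 2) * 2 ^ k -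
          ((2 ^ k + n % 2 * haltQ (n / 2, k) : ℕ) : ℝ) / ((2 ^ (n / 2) : ℕ) : ℝ)| ≤ 1 := by
        rw [Nat.cast_add, Nat.cast_mul, Nat.cast_pow, Nat.cast_pow, Nat.cast_ofNat,
          div_mul_eq_mul_div, ← sub_div, abs_div, abs_of_pos (show (0 : ℝ) < 2 ^ (n / 2) by positivity)]
        refine (div_le_self (abs_nonneg _) (one_le_pow₀ (by norm_num))).trans ?_
        rw [show (1 + ((n % 2 : ℕ) : ℝ) * haltT (n / 2)) * 2 ^ k -
          (2 ^ k + (n % 2 : ℕ) * (haltQ (n / 2, k) : ℝ)) =
          (n % 2 : ℕ) * (haltT (n / 2) * 2 ^ k - haltQ (n / 2, k)) by ring, abs_mul,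
          abs_of_nonneg (Nat.cast_nonneg _)]
        exact mul_le_one₀ h3 (abs_nonneg _) h2
      refine (abs_sub_le _ _ _).trans ((add_le_add h4 h1).trans (by norm_num)))
  refine ⟨N1, N2, e1, e2, fun A f hf => ?_⟩
  obtain ⟨B, hB, hs, he⟩ := compMap_query hf
  have sep : ∀ y p, dist (N2.c y) p < 1 / 2 ^ (y + 1) → p = N2.c y := by
    intro y p hp
    by_contra hne
    obtain ⟨k, hk1, hk2⟩ := N2.dense.exists_mem_open
      ((Metric.isOpen_ball (x := N2.c y) (ε := 1 / 2 ^ (y + 1))).sdiff
        (isClosed_singleton (x := N2.c y))) ⟨p, by rwa [Metric.mem_ball, dist_comm], hne⟩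
    have h1 : k ≠ y := fun e => hk2 (by rw [e]; rfl)
    rw [Metric.mem_ball, hN2, max_lt_iff, abs_lt] at hk1
    have h2 : (1 : ℝ) / 2 ^ y = 2 * (1 / 2 ^ (y + 1)) := by rw [pow_succ]; field_simp
    rcases lt_or_gt_of_ne h1 with h | h
    · have h3 : (1 : ℝ) / 2 ^ y ≤ 1 / 2 ^ (k + 1) := by gcongr; norm_num; omega
      have h4 : (1 : ℝ) / 2 ^ k = 2 * (1 / 2 ^ (k + 1)) := by rw [pow_succ]; field_simp
      have : (0 : ℝ) < 1 / 2 ^ (y + 1) := by positivity
      linarith [hk1.2.2]
    · have h3 : (1 : ℝ) / 2 ^ k ≤ 1 / 2 ^ (y + 1) := by gcongr; norm_num; omega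
      linarith [hk1.2.1]
  let T : List ℕ × ℕ → ℕ → Bool := fun p k => (B (p.1, 2 * p.2, k)).isSome &&
    Nat.ble (((B (p.1, 2 * p.2, k)).getD 0).unpair.2 + 2) k
  refine computableIn_of_approx (g := A.indicator fun _ => 1) (h := Halt.indicator fun _ => 1)
    (ha := fun p => ((List.range (p.1.length + 1)).find? (T p)).map fun k =>
      cond (haltAt p.2 ((B (p.1, 2 * p.2, k)).getD 0).unpair.1) 1 0)
    (by simp only [T]; fun_prop) ?_ ?_
  · intro j z v hv
    simp only [Option.map_eq_some_iff] at hv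
    obtain ⟨k, hk, rfl⟩ := hv
    have h0 := List.find?_some hk
    simp only [T, Bool.and_eq_true, Nat.ble_eq] at h0
    obtain ⟨w', hw'⟩ := Option.isSome_iff_exists.1 h0.1
    simp only [hw', Option.getD_some] at h0 ⊢
    have H := hs j _ _ w' hw'
    have hlt : (1 : ℝ) / 2 ^ k < 1 / 2 ^ (w'.unpair.2 + 1) := by
      gcongr
      · norm_num
      · omega
    by_cases hz : z ∈ Halt
    · have h := mem_halt.1 hz
      have hd : dist (N1.c (2 * z + 1)) (N1.c (2 * z)) = 1 / 2 ^ (Nat.find h + z) := by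
        rw [hN1]
        simp only [show (2 * z + 1) / 2 = z by omega, show 2 * z / 2 = z by omega,
          show (2 * z + 1) % 2 = 1 by omega, show 2 * z % 2 = 0 by omega, haltT, dif_pos h,
          dist_self]
        rw [max_eq_right (abs_nonneg _), ← sub_div, abs_of_pos (by simp), pow_add]
        simp only [Nat.cast_one, Nat.cast_zero]
        field_simp; ring
      have : Nat.find h ≤ w'.unpair.1 := by
        by_contra hlt'
        have h1 := H (N1.c (2 * z + 1)) (by
          rw [hd]
          exact one_div_le_one_div_of_le (by positivity)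
            (pow_le_pow_right₀ (by norm_num) (by omega)))
        have h2 := H (N1.c (2 * z)) (by simp)
        have h3 := sep _ _ (h1.trans_lt hlt)
        have h4 := sep _ _ (h2.trans_lt hlt)
        rw [f.injective (h3.trans h4.symm), dist_self] at hd
        exact absurd hd (by positivity)
      rw [haltAt_mono this (Nat.find_spec h), Set.indicator_of_mem hz]
      rfl
    · have : haltAt z w'.unpair.1 = false := by
        rw [← Bool.not_eq_true]
        exact fun h => hz (mem_halt.2 ⟨_, h⟩)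
      rw [this, Set.indicator_of_notMem hz]
      rfl
  · intro z
    have h1 : IsOpen ({f (N1.c (2 * z))} : Set N2.carrier) := by
      rw [← image_singleton]; exact f.isOpenMap _ (iso1 _)
    obtain ⟨y, hy⟩ := N2.dense.exists_mem_open h1 (singleton_nonempty _)
    obtain ⟨j, h2, h3⟩ := ((he (2 * z) (y + 2)).and (eventually_ge_atTop (y + 2))).exists
    refine ⟨j, ?_⟩
    simp only [Option.isSome_map, List.find?_isSome]
    refine ⟨y + 2, by simp; omega, ?_⟩
    obtain ⟨w', hw'⟩ := Option.isSome_iff_exists.1 h2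
    have h4 := hs j _ _ w' hw' (N1.c (2 * z)) (by simp)
    rw [← mem_singleton_iff.1 hy, dist_comm] at h4
    have h5 := sep y _ (h4.trans_lt (by gcongr <;> norm_num))
    have h6 : w'.unpair.2 = y := by
      have h7 := hN2 w'.unpair.2 y
      rw [h5, dist_self] at h7
      exact hwi (dist_le_zero.1 (h7 ▸ le_max_left _ _))
    simp [T, hw', h6]

/-- a low set does not compute the halting set -/
theorem Approx.not_halt {D : Set ℕ} {H : ℕ × ℕ → Option ℕ} {L : ℕ → Option ℕ}
    (hA : Approx (D.indicator fun _ => 1) H L) : ¬ TuringReducible (chi Halt) (chi D) := by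
  intro h
  have hL : Lim L := ⟨H, hA.1, hA.2.1⟩
  have h1 : Lim fun n => (L (Nat.pair n n)).getD 0 + 1 := by fun_prop
  have h2 : ComputableIn {chi D} fun n => (L (Nat.pair n n)).getD 0 + 1 :=
    RecursiveIn.subst h1.computableIn (by
      rintro _ rfl
      exact h)
  obtain ⟨ha, hc, hs, he⟩ := approx_of_computableIn h2
  obtain ⟨e, hE⟩ := hA.2.2 ha hc
  obtain ⟨k, hk⟩ := (he e).exists
  obtain ⟨v, hv⟩ := Option.isSome_iff_exists.1 ((hE e).2 k (by rw [hk]; rfl))
  obtain ⟨k', hk'⟩ := (hE e).1 v hv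
  have := hs _ _ _ hk'
  simp [hv] at this

end Pool.Agent.MP_55a818_lc.H28
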