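import Mathlib
import Pool.Agent.MP_55a818_lc.H28.Comp

/-!
The tree of strategies for spaces with a perfect open ball: definitions, computability and the
combinatorial structure.
-/

namespace Pool.Agent.MP_55a818_lc.H28

open Filter

/-- a node of the tree (kind 0: root, 1: separation node, 2: bisection node, 3: nothing) -/
structure Nd : Type where
  kind : ℕ
  e : ℕ
  par : ℕ
  ans : ℕ
  y : ℕ
  x : ℕ
  a : ℕ
  b : ℕ
  c : ℕ
  mb : ℕ
  l : ℕ
  ya : ℕ
  j : ℕ
  num : ℕ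
  bel : List (ℕ × ℕ)

def Nd.equiv : Nd ≃ (ℕ × ℕ × ℕ × ℕ × ℕ × ℕ × ℕ × ℕ × ℕ × ℕ × ℕ × ℕ × ℕ × ℕ × List (ℕ × ℕ)) where
  toFun r := (r.kind, r.e, r.par, r.ans, r.y, r.x, r.a, r.b, r.c, r.mb, r.l, r.ya, r.j, r.num, r.bel)
  invFun p := ⟨p.1, p.2.1, p.2.2.1, p.2.2.2.1, p.2.2.2.2.1, p.2.2.2.2.2.1, p.2.2.2.2.2.2.1,
    p.2.2.2.2.2.2.2.1, p.2.2.2.2.2.2.2.2.1, p.2.2.2.2.2.2.2.2.2.1, p.2.2.2.2.2.2.2.2.2.2.1,
    p.2.2.2.2.2.2.2.2.2.2.2.1, p.2.2.2.2.2.2.2.2.2.2.2.2.1, p.2.2.2.2.2.2.2.2.2.2.2.2.2.1,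
    p.2.2.2.2.2.2.2.2.2.2.2.2.2.2⟩
  left_inv _ := rfl
  right_inv _ := rfl

instance instPrimcodableNd : Primcodable Nd := Primcodable.ofEquiv _ Nd.equiv

theorem c_ndEquiv : Computable Nd.equiv := (Primrec.of_equiv (e := Nd.equiv)).to_comp
theorem c_ndEquivSymm : Computable Nd.equiv.symm := (Primrec.of_equiv_symm (e := Nd.equiv)).to_comp

section
variable {α : Type} [Primcodable α]

@[fun_prop] theorem c_ndMk {f1 f2 f3 f4 f5 f6 f7 f8 f9 f10 f11 f12 f13 f14 : α → ℕ}
    {f15 : α → List (ℕ × ℕ)} (h1 : Computable f1) (h2 : Computable f2) (h3 : Computable f3)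
    (h4 : Computable f4) (h5 : Computable f5) (h6 : Computable f6) (h7 : Computable f7)
    (h8 : Computable f8) (h9 : Computable f9) (h10 : Computable f10) (h11 : Computable f11)
    (h12 : Computable f12) (h13 : Computable f13) (h14 : Computable f14) (h15 : Computable f15) :
    Computable fun a => Nd.mk (f1 a) (f2 a) (f3 a) (f4 a) (f5 a) (f6 a) (f7 a) (f8 a) (f9 a) (f10 a)
      (f11 a) (f12 a) (f13 a) (f14 a) (f15 a) :=
  (c_comp c_ndEquivSymm (h1.pair (h2.pair (h3.pair (h4.pair (h5.pair (h6.pair (h7.pair (h8.pair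
    (h9.pair (h10.pair (h11.pair (h12.pair (h13.pair (h14.pair h15))))))))))))))).of_eq
    fun _ => rfl

variable {f : α → Nd}

theorem c_ndE (hf : Computable f) : Computable fun a => Nd.equiv (f a) := c_comp c_ndEquiv hf

@[fun_prop] theorem c_kind (hf : Computable f) : Computable fun a => (f a).kind :=
  (c_fst (c_ndE hf)).of_eq fun _ => rfl
@[fun_prop] theorem c_e (hf : Computable f) : Computable fun a => (f a).e :=
  (c_fst (c_snd (c_ndE hf))).of_eq fun _ => rfl
@[fun_prop] theorem c_par (hf : Computable f) : Computable fun a => (f a).par :=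
  (c_fst (c_snd (c_snd (c_ndE hf)))).of_eq fun _ => rfl
@[fun_prop] theorem c_ans (hf : Computable f) : Computable fun a => (f a).ans :=
  (c_fst (c_snd (c_snd (c_snd (c_ndE hf))))).of_eq fun _ => rfl
@[fun_prop] theorem c_y (hf : Computable f) : Computable fun a => (f a).y :=
  (c_fst (c_snd (c_snd (c_snd (c_snd (c_ndE hf)))))).of_eq fun _ => rfl
@[fun_prop] theorem c_x (hf : Computable f) : Computable fun a => (f a).x :=
  (c_fst (c_snd (c_snd (c_snd (c_snd (c_snd (c_ndE hf))))))).of_eq fun _ => rfl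
@[fun_prop] theorem c_a (hf : Computable f) : Computable fun a => (f a).a :=
  (c_fst (c_snd (c_snd (c_snd (c_snd (c_snd (c_snd (c_ndE hf)))))))).of_eq fun _ => rfl
@[fun_prop] theorem c_b (hf : Computable f) : Computable fun a => (f a).b :=
  (c_fst (c_snd (c_snd (c_snd (c_snd (c_snd (c_snd (c_snd (c_ndE hf))))))))).of_eq fun _ => rfl
@[fun_prop] theorem c_c (hf : Computable f) : Computable fun a => (f a).c :=
  (c_fst (c_snd (c_snd (c_snd (c_snd (c_snd (c_snd (c_snd (c_snd (c_ndE hf)))))))))).of_eq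
    fun _ => rfl
@[fun_prop] theorem c_mb (hf : Computable f) : Computable fun a => (f a).mb :=
  (c_fst (c_snd (c_snd (c_snd (c_snd (c_snd (c_snd (c_snd (c_snd (c_snd
    (c_ndE hf))))))))))).of_eq fun _ => rfl
@[fun_prop] theorem c_l (hf : Computable f) : Computable fun a => (f a).l :=
  (c_fst (c_snd (c_snd (c_snd (c_snd (c_snd (c_snd (c_snd (c_snd (c_snd (c_snd
    (c_ndE hf)))))))))))).of_eq fun _ => rfl
@[fun_prop] theorem c_ya (hf : Computable f) : Computable fun a => (f a).ya :=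
  (c_fst (c_snd (c_snd (c_snd (c_snd (c_snd (c_snd (c_snd (c_snd (c_snd (c_snd (c_snd
    (c_ndE hf))))))))))))).of_eq fun _ => rfl
@[fun_prop] theorem c_j (hf : Computable f) : Computable fun a => (f a).j :=
  (c_fst (c_snd (c_snd (c_snd (c_snd (c_snd (c_snd (c_snd (c_snd (c_snd (c_snd (c_snd (c_snd
    (c_ndE hf)))))))))))))).of_eq fun _ => rfl
@[fun_prop] theorem c_num (hf : Computable f) : Computable fun a => (f a).num :=
  (c_fst (c_snd (c_snd (c_snd (c_snd (c_snd (c_snd (c_snd (c_snd (c_snd (c_snd (c_snd (c_snd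
    (c_snd (c_ndE hf))))))))))))))).of_eq fun _ => rfl
@[fun_prop] theorem c_bel (hf : Computable f) : Computable fun a => (f a).bel :=
  (c_snd (c_snd (c_snd (c_snd (c_snd (c_snd (c_snd (c_snd (c_snd (c_snd (c_snd (c_snd (c_snd
    (c_snd (c_ndE hf))))))))))))))).of_eq fun _ => rfl
end

/-- the data the construction reads -/
structure Inp : Type where
  q : ℕ × ℕ × ℕ → ℕ
  H : ℕ × ℕ → Option ℕ
  a0 : ℕ
  m0 : ℕ
  fr : ℕ × ℕ × ℕ → ℕ
  cu : ℕ × ℕ × ℕ → ℕ

def dummy : Nd := ⟨3, 0, 0, 0, 0, 0, 0, 0, 0, 0, 0, 0, 0, 0, []⟩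
def root (e : ℕ) : Nd := ⟨0, e, 0, 0, 0, 0, 0, 0, 0, 0, 0, 0, 0, 0, []⟩

def okB (o : Option ℕ) (v : ℕ) : Bool := (o.map fun u => u + 1).getD 0 == v + 1

@[simp] theorem okB_iff (o : Option ℕ) (v : ℕ) : okB o v = true ↔ o = some v := by
  cases o <;> simp [okB]

@[fun_prop] theorem c_okB : Computable fun p : Option ℕ × ℕ => okB p.1 p.2 := by
  unfold okB; fun_prop

namespace Inp
variable (I : Inp)

def ask (r : Nd) : ℕ :=
  Nat.pair r.e (cond (r.kind == 0) (Nat.pair 0 (Nat.pair I.a0 r.e))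
    (cond (r.kind == 1) (Nat.pair 1 r.c) (Nat.pair 0 (Nat.pair r.c (r.j + 1)))))

def child0 (r : Nd) (t w B : ℕ) : Nd × ℕ :=
  (⟨1, r.e, t + 1, w, w.unpair.2, B + w.unpair.1 + 3, I.a0, I.a0,
      (I.fr (I.a0, B, B + (B + w.unpair.1 + 3) + 2)).unpair.1, 0, 0, 0, 0, 0, (I.ask r, w) :: r.bel⟩,
    B + 2 + (I.fr (I.a0, B, B + (B + w.unpair.1 + 3) + 2)).unpair.1 +
      (I.fr (I.a0, B, B + (B + w.unpair.1 + 3) + 2)).unpair.2 + w.unpair.2 + (B + w.unpair.1 + 3))

def child1 (r : Nd) (t w B : ℕ) : Nd × ℕ :=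
  (⟨2, r.e, t + 1, w, r.y, r.x, r.a, r.b, r.c, 0, 0, w.unpair.2,
      (I.cu (w.unpair.2, B, w.unpair.1)).unpair.1, (I.cu (w.unpair.2, B, w.unpair.1)).unpair.2,
      (I.ask r, w) :: r.bel⟩, B + 2)

def ty0 (r : Nd) (w : ℕ) : Bool := Nat.blt (I.q (w.unpair.2, r.ya, r.j + 2)) (4 * r.num)
def na (r : Nd) (w : ℕ) : ℕ := cond (I.ty0 r w) r.c r.a
def nb (r : Nd) (w : ℕ) : ℕ := cond (I.ty0 r w) r.b r.c
def nm (r : Nd) (w : ℕ) : ℕ := cond (I.ty0 r w) r.mb w.unpair.1
def stop (r : Nd) (w : ℕ) : Bool :=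
  r.kind == 2 && Nat.ble (3 ^ r.l * 2 ^ (I.nm r w + 1)) (2 ^ (r.x + 2 * r.l))

def child2 (r : Nd) (t w B : ℕ) : Nd × ℕ :=
  (⟨2, r.e, t + 1, w, r.y, r.x, I.na r w, I.nb r w,
      (I.fr (I.na r w, B, B + r.x + 2 * r.l + 3)).unpair.1, I.nm r w, r.l + 1, r.ya, r.j, r.num,
      (I.ask r, w) :: r.bel⟩,
    B + 2 + (I.fr (I.na r w, B, B + r.x + 2 * r.l + 3)).unpair.1 +
      (I.fr (I.na r w, B, B + r.x + 2 * r.l + 3)).unpair.2)

def child (r : Nd) (t w B : ℕ) : Nd × ℕ :=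
  cond (r.kind == 0) (I.child0 r t w B) (cond (r.kind == 1) (I.child1 r t w B) (I.child2 r t w B))

def go (s t : ℕ) (r : Nd) (hist : List Nd) : Bool :=
  Nat.blt r.kind 3 && (r.bel.all fun p => okB (I.H (p.1, s)) p.2) && (I.H (I.ask r, s)).isSome &&
    (hist.all fun u => !(u.par == t + 1 && u.ans == (I.H (I.ask r, s)).getD 0)) &&
    !(I.stop r ((I.H (I.ask r, s)).getD 0))

def next (s B : ℕ) (hist : List Nd) : Nd × ℕ :=
  cond (s % 2 == 0) (root (s / 2), B + 2)
    (cond (I.go s (s / 2).unpair.1 (hist.getD (s / 2).unpair.1 dummy) hist)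
      (I.child (hist.getD (s / 2).unpair.1 dummy) (s / 2).unpair.1
        ((I.H (I.ask (hist.getD (s / 2).unpair.1 dummy), s)).getD 0) B)
      (dummy, B + 2))

def state (s : ℕ) : ℕ × List Nd :=
  Nat.rec (I.a0 + I.m0 + 3, []) (fun s p => ((I.next s p.1 p.2).2, p.2 ++ [(I.next s p.1 p.2).1])) s

def B (s : ℕ) : ℕ := (I.state s).1
def nd (s : ℕ) : Nd := (I.next s (I.state s).1 (I.state s).2).1

class Comp (I : Inp) : Prop where
  q : Computable I.q
  H : Computable I.H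
  fr : Computable I.fr
  cu : Computable I.cu

section comp
variable [I.Comp]

@[fun_prop] theorem c_q : Computable I.q := Comp.q
@[fun_prop] theorem c_H : Computable I.H := Comp.H
@[fun_prop] theorem c_fr : Computable I.fr := Comp.fr
@[fun_prop] theorem c_cu : Computable I.cu := Comp.cu
omit [I.Comp] in
@[fun_prop] theorem c_ask : Computable I.ask := by unfold ask; fun_prop
@[fun_prop] theorem c_child0 :
    Computable fun p : Nd × ℕ × ℕ × ℕ => I.child0 p.1 p.2.1 p.2.2.1 p.2.2.2 := by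
  unfold child0; fun_prop
@[fun_prop] theorem c_child1 :
    Computable fun p : Nd × ℕ × ℕ × ℕ => I.child1 p.1 p.2.1 p.2.2.1 p.2.2.2 := by
  unfold child1; fun_prop
@[fun_prop] theorem c_ty0 : Computable fun p : Nd × ℕ => I.ty0 p.1 p.2 := by
  unfold ty0; fun_prop
@[fun_prop] theorem c_na : Computable fun p : Nd × ℕ => I.na p.1 p.2 := by
  unfold na; fun_prop
@[fun_prop] theorem c_nb : Computable fun p : Nd × ℕ => I.nb p.1 p.2 := by
  unfold nb; fun_prop
@[fun_prop] theorem c_nm : Computable fun p : Nd × ℕ => I.nm p.1 p.2 := by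
  unfold nm; fun_prop
@[fun_prop] theorem c_stop : Computable fun p : Nd × ℕ => I.stop p.1 p.2 := by
  unfold stop; fun_prop
@[fun_prop] theorem c_child2 :
    Computable fun p : Nd × ℕ × ℕ × ℕ => I.child2 p.1 p.2.1 p.2.2.1 p.2.2.2 := by
  unfold child2; fun_prop
@[fun_prop] theorem c_child :
    Computable fun p : Nd × ℕ × ℕ × ℕ => I.child p.1 p.2.1 p.2.2.1 p.2.2.2 := by
  unfold child; fun_prop
@[fun_prop] theorem c_go :
    Computable fun p : ℕ × ℕ × Nd × List Nd => I.go p.1 p.2.1 p.2.2.1 p.2.2.2 := by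
  unfold go; fun_prop
@[fun_prop] theorem c_next : Computable fun p : ℕ × ℕ × List Nd => I.next p.1 p.2.1 p.2.2 := by
  unfold next root; fun_prop
@[fun_prop] theorem c_state : Computable I.state := by unfold state; fun_prop
@[fun_prop] theorem c_B : Computable I.B := by unfold B; fun_prop
@[fun_prop] theorem c_nd : Computable I.nd := by unfold nd; fun_prop

end comp

theorem hist_eq (s : ℕ) : (I.state s).2 = (List.range s).map I.nd := by
  induction s with
  | zero => rfl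
  | succ s ih =>
    rw [List.range_succ, List.map_append, ← ih]
    rfl

theorem B_succ (s : ℕ) : I.B (s + 1) = (I.next s (I.state s).1 (I.state s).2).2 := rfl

theorem B_zero : I.B 0 = I.a0 + I.m0 + 3 := rfl

/-- stage `s` creates the child of node `t` that believes the answer `w` -/
structure Made (s t w : ℕ) : Prop where
  lt : t < s
  kind : (I.nd t).kind < 3
  valid : ∀ p ∈ (I.nd t).bel, I.H (p.1, s) = some p.2
  ans : I.H (I.ask (I.nd t), s) = some w
  new : ∀ u < s, ¬((I.nd u).par = t + 1 ∧ (I.nd u).ans = w)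
  nostop : I.stop (I.nd t) w = false
  eq : (I.nd s, I.B (s + 1)) = I.child (I.nd t) t w (I.B s)

theorem getD_hist (s t : ℕ) :
    ((List.range s).map I.nd).getD t dummy = if t < s then I.nd t else dummy := by
  split_ifs with h
  · simp [List.getD_eq_getElem?_getD, h]
  · simp [List.getD_eq_getElem?_getD, h]

theorem go_iff (s t : ℕ) (r : Nd) : I.go s t r ((List.range s).map I.nd) = true ↔
    r.kind < 3 ∧ (∀ p ∈ r.bel, I.H (p.1, s) = some p.2) ∧ ∃ w, I.H (I.ask r, s) = some w ∧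
      (∀ u < s, ¬((I.nd u).par = t + 1 ∧ (I.nd u).ans = w)) ∧ I.stop r w = false := by
  unfold go
  cases h : I.H (I.ask r, s) with
  | none => simp
  | some w => simp [and_assoc, or_iff_not_imp_left]

theorem nd_cases (s : ℕ) : (∃ e, s = 2 * e ∧ I.nd s = root e ∧ I.B (s + 1) = I.B s + 2) ∨
    (I.nd s = dummy ∧ I.B (s + 1) = I.B s + 2) ∨ ∃ t w, I.Made s t w := by
  have e1 : (I.nd s, I.B (s + 1)) = I.next s (I.B s) ((List.range s).map I.nd) := by
    rw [← hist_eq]; rfl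
  unfold next at e1
  cases h : s % 2 == 0 with
  | true =>
    left
    rw [h] at e1
    simp only [cond_true, Prod.mk.injEq] at e1
    exact ⟨s / 2, by simp at h; omega, e1⟩
  | false =>
    right
    rw [h] at e1
    simp only [cond_false] at e1
    cases h2 : I.go s (s / 2).unpair.1 (((List.range s).map I.nd).getD (s / 2).unpair.1 dummy)
      ((List.range s).map I.nd) with
    | false =>
      left
      rw [h2] at e1
      simpa using e1
    | true =>
      right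
      rw [h2] at e1
      obtain ⟨k1, k2, w, k3, k4, k5⟩ := (go_iff I _ _ _).1 h2
      rw [getD_hist] at k1 k2 k3 k5 e1
      by_cases ht : (s / 2).unpair.1 < s
      · rw [if_pos ht] at k1 k2 k3 k5 e1
        refine ⟨_, w, ht, k1, k2, k3, k4, k5, ?_⟩
        simpa [k3] using e1
      · rw [if_neg ht] at k1
        simp [dummy] at k1

theorem made_of {t w z : ℕ} (h1 : t < 2 * Nat.pair t z + 1) (h2 : (I.nd t).kind < 3)
    (h3 : ∀ p ∈ (I.nd t).bel, I.H (p.1, 2 * Nat.pair t z + 1) = some p.2)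
    (h4 : I.H (I.ask (I.nd t), 2 * Nat.pair t z + 1) = some w)
    (h5 : ∀ u < 2 * Nat.pair t z + 1, ¬((I.nd u).par = t + 1 ∧ (I.nd u).ans = w))
    (h6 : I.stop (I.nd t) w = false) : I.Made (2 * Nat.pair t z + 1) t w := by
  set s := 2 * Nat.pair t z + 1 with hs
  have e1 : (I.nd s, I.B (s + 1)) = I.next s (I.B s) ((List.range s).map I.nd) := by
    rw [← hist_eq]; rfl
  have e2 : s / 2 = Nat.pair t z := by omega
  have e3 : (s % 2 == 0) = false := by simp; omega
  have e4 := (go_iff I s t (I.nd t)).2 ⟨h2, h3, w, h4, h5, h6⟩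
  unfold next at e1
  rw [e3, e2, Nat.unpair_pair, getD_hist, if_pos h1, e4, h4] at e1
  exact ⟨h1, h2, h3, h4, h5, h6, e1⟩

theorem nd_even (e : ℕ) : I.nd (2 * e) = root e := by
  unfold nd next
  simp

variable {I}

theorem Made.cases {s t w : ℕ} (h : I.Made s t w) :
    ((I.nd t).kind = 0 ∧ (I.nd s, I.B (s + 1)) = I.child0 (I.nd t) t w (I.B s)) ∨
    ((I.nd t).kind = 1 ∧ (I.nd s, I.B (s + 1)) = I.child1 (I.nd t) t w (I.B s)) ∨
    ((I.nd t).kind = 2 ∧ (I.nd s, I.B (s + 1)) = I.child2 (I.nd t) t w (I.B s)) := by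
  have h1 := h.kind
  have h2 := h.eq
  unfold child at h2
  rcases (show (I.nd t).kind = 0 ∨ (I.nd t).kind = 1 ∨ (I.nd t).kind = 2 by omega) with k | k | k
  · left; exact ⟨k, by simpa [k] using h2⟩
  · right; left; exact ⟨k, by simpa [k] using h2⟩
  · right; right; exact ⟨k, by simpa [k] using h2⟩

theorem Made.basic {s t w : ℕ} (h : I.Made s t w) :
    (I.nd s).e = (I.nd t).e ∧ (I.nd s).par = t + 1 ∧ (I.nd s).ans = w ∧
      (I.nd s).bel = (I.ask (I.nd t), w) :: (I.nd t).bel ∧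
      (I.nd s).kind = min ((I.nd t).kind + 1) 2 ∧ I.B s + 2 ≤ I.B (s + 1) := by
  rcases h.cases with ⟨k, h⟩ | ⟨k, h⟩ | ⟨k, h⟩
  · simp only [child0, Prod.mk.injEq] at h
    rw [h.1, h.2, k]; simp; omega
  · simp only [child1, Prod.mk.injEq] at h
    rw [h.1, h.2, k]; simp
  · simp only [child2, Prod.mk.injEq] at h
    rw [h.1, h.2, k]; simp; omega

theorem B_step (s : ℕ) : I.B s + 2 ≤ I.B (s + 1) := by
  rcases I.nd_cases s with ⟨e, -, -, h⟩ | ⟨-, h⟩ | ⟨t, w, h⟩
  · exact h.ge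
  · exact h.ge
  · exact h.basic.2.2.2.2.2

theorem B_lt (s : ℕ) : I.B s < I.B (s + 1) := by have := B_step (I := I) s; omega

theorem B_mono : Monotone I.B := (strictMono_nat_of_lt_succ B_lt).monotone

theorem le_B (s : ℕ) : s ≤ I.B s := (strictMono_nat_of_lt_succ B_lt).id_le s

theorem B_ge (s : ℕ) : I.a0 + I.m0 + 3 ≤ I.B s := B_mono (Nat.zero_le s)

theorem made_of_par {s t : ℕ} (h : (I.nd s).par = t + 1) : I.Made s t (I.nd s).ans := by
  rcases I.nd_cases s with ⟨e, -, h1, -⟩ | ⟨h1, -⟩ | ⟨t', w, h1⟩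
  · simp [h1, root] at h
  · simp [h1, dummy] at h
  · obtain ⟨-, h2, h3, -⟩ := h1.basic
    obtain rfl : t' = t := by omega
    rwa [h3]

theorem made_unique {s s' t w : ℕ} (h : I.Made s t w) (h' : I.Made s' t w) : s = s' := by
  rcases lt_trichotomy s s' with hlt | heq | hlt
  · exact absurd ⟨h.basic.2.1, h.basic.2.2.1⟩ (h'.new s hlt)
  · exact heq
  · exact absurd ⟨h'.basic.2.1, h'.basic.2.2.1⟩ (h.new s' hlt)

theorem bel_valid (s : ℕ) : ∀ p ∈ (I.nd s).bel, I.H (p.1, s) = some p.2 := by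
  rcases I.nd_cases s with ⟨e, -, h1, -⟩ | ⟨h1, -⟩ | ⟨t, w, h1⟩
  · simp [h1, root]
  · simp [h1, dummy]
  · rw [h1.basic.2.2.2.1]
    intro p hp
    rcases List.mem_cons.1 hp with rfl | hp
    · exact h1.ans
    · exact h1.valid p hp

/-- kinds and levels -/
theorem kind_len (s : ℕ) : (I.nd s).kind = 3 ∨ ((I.nd s).kind = min (I.nd s).bel.length 2 ∧
    (I.nd s).l = (I.nd s).bel.length - 2) := by
  induction s using Nat.strong_induction_on with
  | _ s ih =>
  rcases I.nd_cases s with ⟨e, -, h1, -⟩ | ⟨h1, -⟩ | ⟨t, w, h1⟩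
  · simp [h1, root]
  · simp [h1, dummy]
  · right
    have hk := h1.kind
    rcases ih t h1.lt with h2 | ⟨h2, h3⟩
    · omega
    obtain ⟨-, -, -, h4, h5, -⟩ := h1.basic
    refine ⟨by rw [h4, h5, h2]; simp; omega, ?_⟩
    rw [h4]
    rcases h1.cases with ⟨k, h⟩ | ⟨k, h⟩ | ⟨k, h⟩
    · simp only [child0, Prod.mk.injEq] at h
      rw [h.1]; simp; omega
    · simp only [child1, Prod.mk.injEq] at h
      rw [h.1]; simp; omega
    · simp only [child2, Prod.mk.injEq] at h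
      rw [h.1]; simp; omega

theorem made_of_len {s n : ℕ} (h : (I.nd s).bel.length = n + 1) :
    ∃ t w, I.Made s t w ∧ (I.nd t).bel.length = n := by
  rcases I.nd_cases s with ⟨e, -, h1, -⟩ | ⟨h1, -⟩ | ⟨t, w, h1⟩
  · simp [h1, root] at h
  · simp [h1, dummy] at h
  · refine ⟨t, w, h1, ?_⟩
    rw [h1.basic.2.2.2.1] at h
    simpa using h

theorem root_of_len {s : ℕ} (hk : (I.nd s).kind < 3) (h : (I.nd s).bel.length = 0) :
    s = 2 * (I.nd s).e := by
  rcases I.nd_cases s with ⟨e, h0, h1, -⟩ | ⟨h1, -⟩ | ⟨t, w, h1⟩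
  · rw [h1]; exact h0
  · simp [h1, dummy] at hk
  · rw [h1.basic.2.2.2.1] at h
    simp at h

section limit
variable {L : ℕ → Option ℕ} (hL : ∀ q, ∀ᶠ s in atTop, I.H (q, s) = L q)
include hL

theorem fin_level (e n : ℕ) :
    {s | (I.nd s).kind < 3 ∧ (I.nd s).e = e ∧ (I.nd s).bel.length = n}.Finite := by
  induction n with
  | zero =>
    refine (Set.finite_singleton (2 * e)).subset ?_
    rintro s ⟨h1, h2, h3⟩
    rw [Set.mem_singleton_iff, ← h2]
    exact root_of_len h1 h3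
  | succ n ih =>
    have key : ∀ t, {s | ∃ w, I.Made s t w}.Finite := by
      intro t
      obtain ⟨s0, hs0⟩ := eventually_atTop.1 (hL (I.ask (I.nd t)))
      refine ((Set.finite_lt_nat s0).union
        (Set.Subsingleton.finite (s := {s | s0 ≤ s ∧ ∃ w, I.Made s t w}) ?_)).subset ?_
      · rintro s ⟨h1, w, h2⟩ s' ⟨h1', w', h2'⟩
        have : w = w' := by
          have e1 := h2.ans
          have e2 := h2'.ans
          rw [hs0 s h1] at e1
          rw [hs0 s' h1', e1] at e2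
          exact Option.some.inj e2
        subst this
        exact made_unique h2 h2'
      · intro s hs
        by_cases h : s < s0
        · exact Or.inl h
        · exact Or.inr ⟨not_lt.1 h, hs⟩
    refine (ih.biUnion fun t _ => key t).subset ?_
    rintro s ⟨-, h2, h3⟩
    obtain ⟨t, w, h4, h5⟩ := made_of_len h3
    exact Set.mem_biUnion (show t ∈ _ from ⟨h4.kind, h4.basic.1.symm.trans h2, h5⟩) ⟨w, h4⟩

theorem fin_below (e n : ℕ) :
    {s | (I.nd s).kind < 3 ∧ (I.nd s).e = e ∧ (I.nd s).bel.length < n}.Finite := by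
  refine ((Set.finite_lt_nat n).biUnion fun k _ => fin_level hL e k).subset ?_
  rintro s ⟨h1, h2, h3⟩
  exact Set.mem_biUnion (show (I.nd s).bel.length ∈ _ from h3) ⟨h1, h2, rfl⟩

omit hL in
/-- all beliefs of the node are correct in the limit -/
def Tr (I : Inp) (L : ℕ → Option ℕ) (t : ℕ) : Prop :=
  (I.nd t).kind < 3 ∧ ∀ p ∈ (I.nd t).bel, L p.1 = some p.2

theorem false_bel {p : ℕ × ℕ} (hp : L p.1 ≠ some p.2) : ∀ᶠ s in atTop, p ∉ (I.nd s).bel := by
  filter_upwards [hL p.1] with s hs hmem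
  exact hp (hs.symm.trans (bel_valid s p hmem))

omit hL in
theorem Made.tr_parent {s t w : ℕ} (h : I.Made s t w) (hs : I.Tr L s) :
    I.Tr L t ∧ L (I.ask (I.nd t)) = some w := by
  have h1 := hs.2
  rw [h.basic.2.2.2.1] at h1
  exact ⟨⟨h.kind, fun p hp => h1 p (List.mem_cons_of_mem _ hp)⟩, h1 _ List.mem_cons_self⟩

omit hL in
theorem tr_unique (n : ℕ) : ∀ s s', I.Tr L s → I.Tr L s' → (I.nd s).e = (I.nd s').e →
    (I.nd s).bel.length = n → (I.nd s').bel.length = n → s = s' := by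
  induction n with
  | zero =>
    intro s s' h h' he h1 h2
    rw [root_of_len h.1 h1, root_of_len h'.1 h2, he]
  | succ n ih =>
    intro s s' h h' he h1 h2
    obtain ⟨t, w, m1, l1⟩ := made_of_len h1
    obtain ⟨t', w', m2, l2⟩ := made_of_len h2
    obtain ⟨k1, k2⟩ := m1.tr_parent h
    obtain ⟨k3, k4⟩ := m2.tr_parent h'
    obtain rfl := ih t t' k1 k3 (by rw [← m1.basic.1, ← m2.basic.1, he]) l1 l2
    obtain rfl : w = w' := Option.some.inj (k2.symm.trans k4)
    exact made_unique m1 m2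

theorem tr_child {t w : ℕ} (ht : I.Tr L t) (hw : L (I.ask (I.nd t)) = some w)
    (hs : I.stop (I.nd t) w = false) : ∃ s, I.Made s t w ∧ I.Tr L s := by
  have key : ∃ s, I.Made s t w := by
    by_contra hno
    push Not at hno
    have h1 : ∀ᶠ s in atTop, ∀ p ∈ (I.nd t).bel.toFinset, I.H (p.1, s) = some p.2 := by
      rw [eventually_all_finset]
      intro p hp
      filter_upwards [hL p.1] with s hs
      rw [hs, ht.2 p (List.mem_toFinset.1 hp)]
    obtain ⟨s0, hs0⟩ := eventually_atTop.1 (h1.and (hL (I.ask (I.nd t))))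
    have h2 := Nat.right_le_pair t s0
    have h3 := Nat.left_le_pair t s0
    obtain ⟨h4, h5⟩ := hs0 (2 * Nat.pair t s0 + 1) (by omega)
    refine hno _ (made_of I (z := s0) (by omega) ht.1
      (fun p hp => h4 p (List.mem_toFinset.2 hp)) (h5.trans hw) ?_ hs)
    rintro u - ⟨h6, h7⟩
    exact hno u (h7 ▸ made_of_par h6)
  obtain ⟨s, hs⟩ := key
  refine ⟨s, hs, ?_, ?_⟩
  · rw [hs.basic.2.2.2.2.1]; omega
  · rw [hs.basic.2.2.2.1]
    intro p hp
    rcases List.mem_cons.1 hp with rfl | hp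
    · exact hw
    · exact ht.2 p hp

end limit

/-- `s` is obtained from `t` by repeatedly making children -/
inductive Desc (I : Inp) (t : ℕ) : ℕ → Prop
  | refl : Desc I t t
  | step {p s w : ℕ} : Desc I t p → I.Made s p w → Desc I t s

theorem Desc.le {t s : ℕ} (h : I.Desc t s) : t ≤ s := by
  induction h with
  | refl => rfl
  | step _ hm ih => exact ih.trans hm.lt.le

theorem Desc.bel {t s : ℕ} (h : I.Desc t s) :
    (I.nd s).e = (I.nd t).e ∧ ∀ p ∈ (I.nd t).bel, p ∈ (I.nd s).bel := by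
  induction h with
  | refl => exact ⟨rfl, fun _ h => h⟩
  | step _ hm ih =>
    refine ⟨hm.basic.1.trans ih.1, fun p hp => ?_⟩
    rw [hm.basic.2.2.2.1]
    exact List.mem_cons_of_mem _ (ih.2 p hp)

theorem exists_anc {n : ℕ} : ∀ (k s : ℕ), (I.nd s).kind < 3 → (I.nd s).bel.length = n + k →
    ∃ t, I.Desc t s ∧ (I.nd t).kind < 3 ∧ (I.nd t).bel.length = n := by
  intro k
  induction k with
  | zero => exact fun s h1 h2 => ⟨s, .refl, h1, h2⟩
  | succ k ih =>
    intro s _ h2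
    obtain ⟨p, w, hm, hl⟩ := made_of_len (n := n + k) h2
    obtain ⟨t, h3, h4⟩ := ih p hm.kind hl
    exact ⟨t, h3.step hm, h4⟩

/-- eventually every new node for `e` descends from a true node of level `n` -/
theorem eventually_desc {L : ℕ → Option ℕ} (hL : ∀ q, ∀ᶠ s in atTop, I.H (q, s) = L q) (e n : ℕ) :
    ∀ᶠ s in atTop, (I.nd s).kind < 3 → (I.nd s).e = e →
      ∃ t, I.Desc t s ∧ I.Tr L t ∧ (I.nd t).e = e ∧ (I.nd t).bel.length = n := by
  have h1 : ∀ᶠ s in atTop, ¬((I.nd s).kind < 3 ∧ (I.nd s).e = e ∧ (I.nd s).bel.length < n) := by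
    rw [← Nat.cofinite_eq_atTop]
    exact (fin_below hL e n).compl_mem_cofinite
  have h2 : ∀ᶠ s in atTop, ∀ t ∈ {s | (I.nd s).kind < 3 ∧ (I.nd s).e = e ∧
      (I.nd s).bel.length = n}, I.Desc t s → I.Tr L t := by
    rw [(fin_level hL e n).eventually_all]
    intro t ht
    by_cases htr : I.Tr L t
    · exact Eventually.of_forall fun _ _ => htr
    · have : ∃ p ∈ (I.nd t).bel, L p.1 ≠ some p.2 := by
        by_contra hcon
        push Not at hcon
        exact htr ⟨ht.1, hcon⟩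
      obtain ⟨p, hp, hp'⟩ := this
      filter_upwards [false_bel hL hp'] with s hs hd
      exact absurd (hd.bel.2 p hp) hs
  filter_upwards [h1, h2] with s h1 h2 hk he
  obtain ⟨k, hk'⟩ : ∃ k, (I.nd s).bel.length = n + k :=
    Nat.exists_eq_add_of_le (not_lt.1 fun h => h1 ⟨hk, he, h⟩)
  obtain ⟨t, h3, h4, h5⟩ := exists_anc k s hk hk'
  have h6 : (I.nd t).e = e := h3.bel.1.symm.trans he
  exact ⟨t, h3, h2 t ⟨h4, h6, h5⟩ h3, h6, h5⟩

end Inp

end Pool.Agent.MP_55a818_lc.H28
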