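import Mathlib
import Pool.Agent.MP_55a818_lc.H28.Tree1
import Pool.Agent.MP_55a818_lc.H28.SurgeryComp

/-!
The tree of strategies: geometric invariants in the original metric.
-/

namespace Pool.Agent.MP_55a818_lc.H28

open Filter

noncomputable def lam (x l : ℕ) : ℝ := (3 / 4) ^ l / 2 ^ x

theorem lam_pos (x l : ℕ) : 0 < lam x l := by unfold lam; positivity
theorem lam_succ (x l : ℕ) : lam x (l + 1) = 3 / 4 * lam x l := by unfold lam; ring
theorem lam_zero (x : ℕ) : lam x 0 = 1 / 2 ^ x := by simp [lam]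
theorem lam_le (x l : ℕ) : lam x l ≤ 1 / 2 ^ x := by
  unfold lam; gcongr; exact pow_le_one₀ (by norm_num) (by norm_num)
theorem lam_le' (x l : ℕ) : lam x l ≤ (3 / 4) ^ l :=
  div_le_self (by positivity) (one_le_pow₀ (by norm_num))
theorem lam_eq (x l : ℕ) : lam x l = 3 ^ l / 2 ^ (x + 2 * l) := by
  unfold lam
  rw [div_pow, pow_add, pow_mul]
  norm_num
  field_simp
theorem le_lam (x l : ℕ) : 1 / 2 ^ (x + 2 * l) ≤ lam x l := by
  rw [lam_eq]; gcongr; exact one_le_pow₀ (by norm_num)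

theorem half_le {m n : ℕ} (h : m ≤ n) : (1 : ℝ) / 2 ^ n ≤ 1 / 2 ^ m := by
  gcongr; norm_num

theorem half_add (m k : ℕ) : (1 : ℝ) / 2 ^ (m + k) = 1 / 2 ^ m / 2 ^ k := by
  rw [pow_add]; field_simp

theorem half_le2 {m n : ℕ} (k : ℕ) (h : m + k ≤ n) : (1 : ℝ) / 2 ^ n ≤ 1 / 2 ^ m / 2 ^ k := by
  rw [← half_add]; exact half_le h

namespace Inp

structure Spec (I : Inp) (d : ℕ → ℕ → ℝ) : Prop where
  pm : IsPM d
  apx : Apx d I.q
  fr : ∀ a K τ, d I.a0 a < 1 / 2 ^ (I.m0 + 2) → d a (I.fr (a, K, τ)).unpair.1 ≤ 1 / 2 ^ τ ∧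
    ∀ i < K, 2 / 2 ^ (I.fr (a, K, τ)).unpair.2 ≤ d i (I.fr (a, K, τ)).unpair.1
  cu : ∀ ya K k,
    (2 : ℝ) / 2 ^ k ≤ (I.cu (ya, K, k)).unpair.2 / 2 ^ (I.cu (ya, K, k)).unpair.1 ∧
    ((I.cu (ya, K, k)).unpair.2 : ℝ) / 2 ^ (I.cu (ya, K, k)).unpair.1 ≤ 8 / 2 ^ k ∧
    ∀ i < K, 2 / 2 ^ (I.cu (ya, K, k)).unpair.1 ≤
      |d i ya - (I.cu (ya, K, k)).unpair.2 / 2 ^ (I.cu (ya, K, k)).unpair.1|

variable {I : Inp}

theorem Made.f0 {s t w : ℕ} (h : I.Made s t w) (k : (I.nd t).kind = 0) :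
    (I.nd s).kind = 1 ∧ (I.nd s).y = w.unpair.2 ∧ (I.nd s).x = I.B s + w.unpair.1 + 3 ∧
    (I.nd s).a = I.a0 ∧ (I.nd s).b = I.a0 ∧ (I.nd s).l = 0 ∧
    (I.nd s).c = (I.fr (I.a0, I.B s, I.B s + (I.nd s).x + 2)).unpair.1 ∧
    I.B (s + 1) = I.B s + 2 + (I.nd s).c + (I.fr (I.a0, I.B s, I.B s + (I.nd s).x + 2)).unpair.2 +
      (I.nd s).y + (I.nd s).x := by
  rcases h.cases with ⟨-, h⟩ | ⟨k', -⟩ | ⟨k', -⟩
  · simp only [child0, Prod.mk.injEq] at h
    rw [h.2, h.1]; simp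
  · omega
  · omega

theorem Made.f1 {s t w : ℕ} (h : I.Made s t w) (k : (I.nd t).kind = 1) :
    (I.nd s).kind = 2 ∧ (I.nd s).y = (I.nd t).y ∧ (I.nd s).x = (I.nd t).x ∧
    (I.nd s).a = (I.nd t).a ∧ (I.nd s).b = (I.nd t).b ∧ (I.nd s).c = (I.nd t).c ∧
    (I.nd s).l = 0 ∧ (I.nd s).ya = w.unpair.2 ∧
    (I.nd s).j = (I.cu (w.unpair.2, I.B s, w.unpair.1)).unpair.1 ∧
    (I.nd s).num = (I.cu (w.unpair.2, I.B s, w.unpair.1)).unpair.2 := by
  rcases h.cases with ⟨k', -⟩ | ⟨-, h⟩ | ⟨k', -⟩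
  · omega
  · simp only [child1, Prod.mk.injEq] at h
    rw [h.1]; simp
  · omega

theorem Made.f2 {s t w : ℕ} (h : I.Made s t w) (k : (I.nd t).kind = 2) :
    (I.nd s).kind = 2 ∧ (I.nd s).y = (I.nd t).y ∧ (I.nd s).x = (I.nd t).x ∧
    (I.nd s).a = I.na (I.nd t) w ∧ (I.nd s).b = I.nb (I.nd t) w ∧
    (I.nd s).mb = I.nm (I.nd t) w ∧
    (I.nd s).l = (I.nd t).l + 1 ∧ (I.nd s).ya = (I.nd t).ya ∧ (I.nd s).j = (I.nd t).j ∧
    (I.nd s).num = (I.nd t).num ∧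
    (I.nd s).c = (I.fr ((I.nd s).a, I.B s, I.B s + (I.nd t).x + 2 * (I.nd t).l + 3)).unpair.1 ∧
    I.B (s + 1) = I.B s + 2 + (I.nd s).c +
      (I.fr ((I.nd s).a, I.B s, I.B s + (I.nd t).x + 2 * (I.nd t).l + 3)).unpair.2 := by
  rcases h.cases with ⟨k', -⟩ | ⟨k', -⟩ | ⟨-, h⟩
  · omega
  · omega
  · simp only [child2, Prod.mk.injEq] at h
    rw [h.2, h.1]; simp

theorem na_nb (r : Nd) (w : ℕ) : (I.ty0 r w = true ∧ I.na r w = r.c ∧ I.nb r w = r.b ∧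
    I.nm r w = r.mb) ∨ (I.ty0 r w = false ∧ I.na r w = r.a ∧ I.nb r w = r.c ∧
    I.nm r w = w.unpair.1) := by
  unfold na nb nm
  cases I.ty0 r w <;> simp

/-- a node that carries points -/
def Act (I : Inp) (s : ℕ) : Prop := (I.nd s).kind = 1 ∨ (I.nd s).kind = 2

theorem Act.made {s : ℕ} (h : I.Act s) : ∃ t w, I.Made s t w := by
  rcases I.nd_cases s with ⟨e, -, h1, -⟩ | ⟨h1, -⟩ | h1
  · simp [Act, h1, root] at h
  · simp [Act, h1, dummy] at h
  · exact h1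

theorem Made.act {s t w : ℕ} (h : I.Made s t w) : I.Act s := by
  have := h.basic.2.2.2.2.1
  unfold Act; omega

theorem Made.kinds {s t w : ℕ} (h : I.Made s t w) :
    (I.nd t).kind = 0 ∨ (I.nd t).kind = 1 ∨ (I.nd t).kind = 2 := by
  have := h.kind; omega

theorem root_of_kind {s : ℕ} (h : (I.nd s).kind = 0) : s = 2 * (I.nd s).e := by
  rcases kind_len (I := I) s with h1 | ⟨h1, -⟩
  · omega
  · exact root_of_len (by omega) (by omega)

/-- index bounds -/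
theorem Act.bd {s : ℕ} (h : I.Act s) : (I.nd s).a < I.B (s + 1) ∧ (I.nd s).b < I.B (s + 1) ∧
    (I.nd s).c < I.B (s + 1) ∧ (I.nd s).y < I.B (s + 1) ∧ I.m0 + 3 ≤ (I.nd s).x ∧
    (I.nd s).e ≤ (I.nd s).x := by
  induction s using Nat.strong_induction_on with
  | _ s ih =>
  obtain ⟨t, w, hm⟩ := h.made
  have b1 := B_ge (I := I) s
  have b2 := le_B (I := I) s
  have b3 := B_step (I := I) s
  have b4 : I.B (t + 1) ≤ I.B s := B_mono hm.lt
  have b5 := hm.lt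
  have e1 := hm.basic.1
  rcases hm.kinds with k | k | k
  · have := hm.f0 k
    have := root_of_kind k
    omega
  · have := hm.f1 k
    have := ih t hm.lt (Or.inl k)
    omega
  · have := hm.f2 k
    have := ih t hm.lt (Or.inr k)
    have := na_nb (I := I) (I.nd t) w
    omega

/-- the protected radius at stage `u` -/
noncomputable def rr (I : Inp) (u : ℕ) : ℝ := 1 / 2 ^ I.B u

theorem rr_pos (u : ℕ) : 0 < I.rr u := by unfold rr; positivity

theorem rr_anti {u v : ℕ} (h : u ≤ v) : I.rr v ≤ I.rr u := half_le (B_mono h)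

theorem rr_succ (u : ℕ) : I.rr (u + 1) ≤ I.rr u / 4 := by
  have := half_le (B_step (I := I) u)
  rw [half_add] at this
  unfold rr
  linarith

def NearA (I : Inp) (d : ℕ → ℕ → ℝ) (z : ℕ) (β : ℝ) (s : ℕ) : Prop :=
  d z (I.nd s).a + I.rr (s + 1) ≤ β ∧ d z (I.nd s).c + I.rr (s + 1) ≤ β

def Near (I : Inp) (d : ℕ → ℕ → ℝ) (z : ℕ) (β : ℝ) (s : ℕ) : Prop :=
  I.NearA d z β s ∧ d z (I.nd s).b ≤ β

variable {d : ℕ → ℕ → ℝ}

/-- the new point of a bisection node, if the old point is in the good ball -/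
theorem Made.fresh2' (S : I.Spec d) {s t w : ℕ} (h : I.Made s t w) (k : (I.nd t).kind = 2)
    (hn : I.NearA d I.a0 (1 / 2 ^ (I.nd t).x) t) :
    d (I.nd s).a (I.nd s).c ≤ 1 / 2 ^ (I.B s + (I.nd t).x + 2 * (I.nd t).l + 3) ∧
      ∀ i < I.B s, 2 * I.rr (s + 1) ≤ d i (I.nd s).c := by
  obtain ⟨-, -, -, ha, -, -, -, -, -, -, hc, hB⟩ := h.f2 k
  have hx := (Act.bd (Or.inr k)).2.2.2.2.1
  have h1 : d I.a0 (I.nd s).a < 1 / 2 ^ (I.m0 + 2) := by
    have := half_le (show I.m0 + 2 ≤ (I.nd t).x by omega)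
    have := rr_pos (I := I) (t + 1)
    rw [ha]
    rcases na_nb (I := I) (I.nd t) w with ⟨-, e, -⟩ | ⟨-, e, -⟩ <;> rw [e] <;> linarith [hn.1, hn.2]
  obtain ⟨h2, h3⟩ := S.fr _ (I.B s) (I.B s + (I.nd t).x + 2 * (I.nd t).l + 3) h1
  rw [← hc] at h2 h3
  refine ⟨h2, fun i hi => le_trans ?_ (h3 i hi)⟩
  have := half_le (show (I.fr ((I.nd s).a, I.B s,
    I.B s + (I.nd t).x + 2 * (I.nd t).l + 3)).unpair.2 ≤ I.B (s + 1) by omega)
  unfold rr
  rw [div_eq_mul_one_div 2]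
  linarith

theorem Made.fresh0 (S : I.Spec d) {s t w : ℕ} (h : I.Made s t w) (k : (I.nd t).kind = 0) :
    d I.a0 (I.nd s).c ≤ 1 / 2 ^ (I.B s + (I.nd s).x + 2) ∧
      ∀ i < I.B s, 2 * I.rr (s + 1) ≤ d i (I.nd s).c := by
  obtain ⟨-, -, -, -, -, -, hc, hB⟩ := h.f0 k
  obtain ⟨h2, h3⟩ := S.fr I.a0 (I.B s) (I.B s + (I.nd s).x + 2) (by rw [S.pm.self]; positivity)
  rw [← hc] at h2 h3
  refine ⟨h2, fun i hi => le_trans ?_ (h3 i hi)⟩
  have := half_le (show (I.fr (I.a0, I.B s, I.B s + (I.nd s).x + 2)).unpair.2 ≤ I.B (s + 1) by omega)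
  unfold rr
  rw [div_eq_mul_one_div 2]
  linarith

theorem Made.nearA' (S : I.Spec d) {s t w z : ℕ} {β : ℝ} (h : I.Made s t w) (ht : I.Act t)
    (hn : I.NearA d I.a0 (1 / 2 ^ (I.nd t).x) t) (hz : I.NearA d z β t) : I.NearA d z β s := by
  have r1 : I.rr s ≤ I.rr (t + 1) := rr_anti h.lt
  have r2 := rr_succ (I := I) s
  have r3 := rr_pos (I := I) s
  obtain ⟨z1, z2⟩ := hz
  rcases ht with k | k
  · obtain ⟨-, -, -, ha, -, hc, -⟩ := h.f1 k
    unfold NearA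
    rw [ha, hc]
    constructor <;> linarith
  · have h1 := (h.fresh2' S k hn).1
    have h2 := half_le2 3 (show I.B s + 3 ≤ I.B s + (I.nd t).x + 2 * (I.nd t).l + 3 by omega)
    have h3 : d z (I.nd s).a + I.rr s ≤ β := by
      rw [(h.f2 k).2.2.2.1]
      rcases na_nb (I := I) (I.nd t) w with ⟨-, e, -⟩ | ⟨-, e, -⟩ <;> rw [e] <;> linarith
    have h4 := S.pm.tri z (I.nd s).a (I.nd s).c
    unfold rr at *
    constructor
    · unfold rr; linarith
    · unfold rr; linarith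

theorem Made.near' (S : I.Spec d) {s t w z : ℕ} {β : ℝ} (h : I.Made s t w) (ht : I.Act t)
    (hn : I.NearA d I.a0 (1 / 2 ^ (I.nd t).x) t) (hz : I.Near d z β t) : I.Near d z β s := by
  refine ⟨h.nearA' S ht hn hz.1, ?_⟩
  rcases ht with k | k
  · rw [(h.f1 k).2.2.2.2.1]; exact hz.2
  · rw [(h.f2 k).2.2.2.2.1]
    have := rr_pos (I := I) (t + 1)
    rcases na_nb (I := I) (I.nd t) w with ⟨-, -, e, -⟩ | ⟨-, -, e, -⟩ <;> rw [e]
    · exact hz.2
    · linarith [hz.1.2]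

theorem Act.near (S : I.Spec d) {s : ℕ} (h : I.Act s) : I.Near d I.a0 (1 / 2 ^ (I.nd s).x) s := by
  induction s using Nat.strong_induction_on with
  | _ s ih =>
  obtain ⟨t, w, hm⟩ := h.made
  rcases hm.kinds with k | k | k
  · obtain ⟨-, -, -, ha, hb, -, -, hB⟩ := hm.f0 k
    have h1 := (hm.fresh0 S k).1
    have h2 := half_le2 2 (show (I.nd s).x + 2 ≤ I.B s + (I.nd s).x + 2 by omega)
    have h3 := half_le2 2 (show (I.nd s).x + 2 ≤ I.B (s + 1) by omega)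
    have h4 : (0 : ℝ) < 1 / 2 ^ (I.nd s).x := by positivity
    unfold Near NearA rr
    rw [ha, hb, S.pm.self]
    refine ⟨⟨?_, ?_⟩, ?_⟩ <;> linarith
  · rw [(hm.f1 k).2.2.1]
    exact hm.near' S (Or.inl k) (ih t hm.lt (Or.inl k)).1 (ih t hm.lt (Or.inl k))
  · rw [(hm.f2 k).2.2.1]
    exact hm.near' S (Or.inr k) (ih t hm.lt (Or.inr k)).1 (ih t hm.lt (Or.inr k))

theorem Made.fresh2 (S : I.Spec d) {s t w : ℕ} (h : I.Made s t w) (k : (I.nd t).kind = 2) :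
    d (I.nd s).a (I.nd s).c ≤ 1 / 2 ^ (I.B s + (I.nd t).x + 2 * (I.nd t).l + 3) ∧
      ∀ i < I.B s, 2 * I.rr (s + 1) ≤ d i (I.nd s).c :=
  h.fresh2' S k (Act.near S (Or.inr k)).1

theorem Desc.act {t s : ℕ} (h : I.Desc t s) (ht : I.Act t) : I.Act s := by
  induction h with
  | refl => exact ht
  | step _ hm _ => exact hm.act

theorem Desc.nearA (S : I.Spec d) {t s z : ℕ} {β : ℝ} (h : I.Desc t s) (ht : I.Act t)
    (hz : I.NearA d z β t) : I.NearA d z β s := by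
  induction h with
  | refl => exact hz
  | step hp hm ih => exact hm.nearA' S (hp.act ht) ((hp.act ht).near S).1 ih

theorem Desc.near (S : I.Spec d) {t s z : ℕ} {β : ℝ} (h : I.Desc t s) (ht : I.Act t)
    (hz : I.Near d z β t) : I.Near d z β s := by
  induction h with
  | refl => exact hz
  | step hp hm ih => exact hm.near' S (hp.act ht) ((hp.act ht).near S).1 ih

/-- stage `s` performs a spike and shortcut operation -/
def opB (r : Nd) : Bool := r.kind == 2 && Nat.ble 1 r.l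

def cS (I : Inp) (s : ℕ) : ℕ := cond (opB (I.nd s)) (I.nd s).c 0
def bS (I : Inp) (s : ℕ) : ℕ := cond (opB (I.nd s)) (I.nd s).b 0
noncomputable def Hg (I : Inp) (s : ℕ) : ℝ :=
  cond (opB (I.nd s)) (2 / 3 * lam (I.nd s).x (I.nd s).l) 0
noncomputable def lS (I : Inp) (s : ℕ) : ℝ := cond (opB (I.nd s)) (lam (I.nd s).x (I.nd s).l) 1
noncomputable def gS (I : Inp) (d : ℕ → ℕ → ℝ) (s z : ℕ) : ℝ :=
  max 0 (I.Hg s - 2 ^ I.B (s + 1) * d z (I.cS s))

theorem op_cases (s : ℕ) :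
    (opB (I.nd s) = false ∧ I.cS s = 0 ∧ I.bS s = 0 ∧ I.Hg s = 0 ∧ I.lS s = 1) ∨
    (∃ t w, I.Made s t w ∧ (I.nd t).kind = 2 ∧ I.cS s = (I.nd s).c ∧ I.bS s = (I.nd s).b ∧
      I.Hg s = lam (I.nd t).x (I.nd t).l / 2 ∧ I.lS s = 3 / 4 * lam (I.nd t).x (I.nd t).l) := by
  unfold cS bS Hg lS
  cases h : opB (I.nd s) with
  | false => simp
  | true =>
    right
    simp only [opB, Bool.and_eq_true, beq_iff_eq, Nat.ble_eq] at h
    obtain ⟨t, w, hm⟩ := Act.made (Or.inr h.1)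
    rcases hm.kinds with k | k | k
    · have := hm.f0 k; omega
    · have := hm.f1 k; omega
    · obtain ⟨-, -, hx, -, -, -, hl, -⟩ := hm.f2 k
      refine ⟨t, w, hm, k, rfl, rfl, ?_, ?_⟩
      · simp only [cond_true, hx, hl, lam_succ]; ring
      · simp only [cond_true, hx, hl, lam_succ]

theorem Made.op {s t w : ℕ} (h : I.Made s t w) (k : (I.nd t).kind = 2) :
    I.cS s = (I.nd s).c ∧ I.bS s = (I.nd s).b ∧
      I.Hg s = lam (I.nd t).x (I.nd t).l / 2 ∧ I.lS s = 3 / 4 * lam (I.nd t).x (I.nd t).l := by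
  rcases op_cases (I := I) s with ⟨h1, -⟩ | ⟨t', w', h1, -, h2⟩
  · have := h.f2 k
    simp only [opB, Bool.and_eq_false_iff, beq_eq_false_iff_ne, ne_eq] at h1
    rcases h1 with h1 | h1
    · omega
    · rw [← Bool.not_eq_true, Nat.ble_eq] at h1; omega
  · have e1 := h.basic.2.1
    have e2 := h1.basic.2.1
    obtain rfl : t = t' := by omega
    exact h2

theorem Made.noop {s t w : ℕ} (h : I.Made s t w) (k : (I.nd t).kind ≠ 2) :
    I.cS s = 0 ∧ I.bS s = 0 ∧ I.Hg s = 0 ∧ I.lS s = 1 := by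
  rcases op_cases (I := I) s with ⟨-, h1⟩ | ⟨t', w', h1, k', -⟩
  · exact h1
  · have e1 := h.basic.2.1
    have e2 := h1.basic.2.1
    obtain rfl : t = t' := by omega
    exact absurd k' k

theorem lS_pos (s : ℕ) : 0 < I.lS s := by
  rcases op_cases (I := I) s with ⟨-, -, -, -, h⟩ | ⟨t, w, -, -, -, -, -, h⟩ <;> rw [h]
  · exact one_pos
  · linarith [lam_pos (I.nd t).x (I.nd t).l]

theorem Hg_nonneg (s : ℕ) : 0 ≤ I.Hg s := by
  rcases op_cases (I := I) s with ⟨-, -, -, h, -⟩ | ⟨t, w, -, -, -, -, h, -⟩ <;> rw [h]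
  linarith [lam_pos (I.nd t).x (I.nd t).l]

theorem Hg_le (s : ℕ) : I.Hg s ≤ 1 := by
  rcases op_cases (I := I) s with ⟨-, -, -, h, -⟩ | ⟨t, w, -, -, -, -, h, -⟩ <;> rw [h]
  · exact zero_le_one
  · have := half_le (Nat.zero_le (I.nd t).x)
    linarith [lam_le (I.nd t).x (I.nd t).l]

theorem gS_nonneg (s z : ℕ) : 0 ≤ I.gS d s z := le_max_left _ _

theorem gS_le (S : I.Spec d) (s z : ℕ) : I.gS d s z ≤ I.Hg s := by
  have : 0 ≤ 2 ^ I.B (s + 1) * d z (I.cS s) := mul_nonneg (by positivity) (S.pm.nonneg _ _)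
  exact max_le (Hg_nonneg s) (by linarith)

theorem gS_zero (S : I.Spec d) {s : ℕ} (h : I.Hg s = 0) (z : ℕ) : I.gS d s z = 0 :=
  le_antisymm (h ▸ gS_le S s z) (gS_nonneg s z)

theorem gS_far {s z : ℕ} (h : I.rr (s + 1) ≤ d z (I.cS s)) : I.gS d s z = 0 := by
  unfold rr at h
  rw [div_le_iff₀ (by positivity)] at h
  exact max_eq_left (by linarith [Hg_le (I := I) s])

theorem gS_self (S : I.Spec d) (s : ℕ) : I.gS d s (I.cS s) = I.Hg s := by
  unfold gS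
  rw [S.pm.self, mul_zero, sub_zero, max_eq_right (Hg_nonneg s)]

theorem gS_lip (S : I.Spec d) (s x y : ℕ) :
    |I.gS d s x - I.gS d s y| ≤ 2 ^ I.B (s + 1) * d x y := by
  refine abs_max_sub (by
    rw [sub_self, abs_zero]; exact mul_nonneg (by positivity) (S.pm.nonneg _ _)) ?_
  rw [sub_sub_sub_cancel_left, ← mul_sub, abs_mul, abs_of_pos (by positivity)]
  gcongr
  rw [abs_le]
  constructor <;> linarith [S.pm.tri x y (I.cS s), S.pm.tri y x (I.cS s), S.pm.comm x y]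

/-- old points are far from the tip of a new spike -/
theorem far (S : I.Spec d) (s : ℕ) :
    I.Hg s = 0 ∨ ∀ i < I.B s, 2 * I.rr (s + 1) ≤ d i (I.cS s) := by
  rcases op_cases (I := I) s with ⟨-, -, -, h, -⟩ | ⟨t, w, hm, k, h, -⟩
  · exact Or.inl h
  · right; rw [h]; exact (hm.fresh2 S k).2

theorem gS_old (S : I.Spec d) {s i : ℕ} (hi : i < I.B s) : I.gS d s i = 0 := by
  rcases far S s with h | h
  · exact gS_zero S h i
  · exact gS_far (by linarith [h i hi, rr_pos (I := I) (s + 1)])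

def Anch (I : Inp) (d : ℕ → ℕ → ℝ) (z u : ℕ) (μ : ℝ) : Prop :=
  ∀ t < u, I.Hg t = 0 ∨ I.rr (t + 1) + I.rr u ≤ d z (I.cS t) ∨ μ / 2 ≤ 3 / 4 * I.Hg t

theorem Anch.later (S : I.Spec d) {z u v : ℕ} {μ ν : ℝ} (h : I.Anch d z u μ) (hz : z < I.B u)
    (huv : u ≤ v) (hμ : ν ≤ μ) : I.Anch d z v ν := by
  intro t ht
  by_cases htu : t < u
  · rcases h t htu with h | h | h
    · exact Or.inl h
    · exact Or.inr (Or.inl (by linarith [rr_anti (I := I) huv]))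
    · exact Or.inr (Or.inr (by linarith))
  · rcases far S t with h | h
    · exact Or.inl h
    · have := h z (hz.trans_le (B_mono (not_lt.1 htu)))
      exact Or.inr (Or.inl (by linarith [rr_anti (I := I) (show t + 1 ≤ v from ht)]))

theorem anch_a0 (S : I.Spec d) (u : ℕ) (μ : ℝ) : I.Anch d I.a0 u μ :=
  Anch.later S (u := 0) (μ := μ) (fun _ h => absurd h (Nat.not_lt_zero _))
    (by rw [B_zero]; omega) (Nat.zero_le _) le_rfl

/-- a point close to an anchored point -/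
theorem Anch.close (S : I.Spec d) {z z' u : ℕ} {μ : ℝ} (h : I.Anch d z u μ)
    (hz : d z z' ≤ I.rr u / 4) :
    ∀ t < u, I.Hg t = 0 ∨ I.rr (t + 1) + I.rr (u + 1) ≤ d z' (I.cS t) ∨ μ / 2 ≤ 3 / 4 * I.Hg t := by
  intro t ht
  rcases h t ht with h | h | h
  · exact Or.inl h
  · exact Or.inr (Or.inl (by
      linarith [S.pm.tri z z' (I.cS t), rr_succ (I := I) u, rr_pos (I := I) u]))
  · exact Or.inr (Or.inr h)

theorem Made.close2 (S : I.Spec d) {s t w : ℕ} (h : I.Made s t w) (k : (I.nd t).kind = 2) :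
    d (I.nd s).a (I.nd s).c ≤ I.rr s / 4 := by
  have h1 := (h.fresh2 S k).1
  have h2 := half_le2 2 (show I.B s + 2 ≤ I.B s + (I.nd t).x + 2 * (I.nd t).l + 3 by omega)
  unfold rr
  linarith

theorem Act.anch (S : I.Spec d) {s : ℕ} (h : I.Act s) :
    I.Anch d (I.nd s).a (s + 1) (lam (I.nd s).x (I.nd s).l) ∧
      I.Anch d (I.nd s).c (s + 1) (lam (I.nd s).x (I.nd s).l) := by
  induction s using Nat.strong_induction_on with
  | _ s ih =>
  obtain ⟨t, w, hm⟩ := h.made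
  rcases hm.kinds with k | k | k
  · rw [(hm.f0 k).2.2.2.1]
    refine ⟨anch_a0 S _ _, fun u hu => ?_⟩
    rcases Nat.lt_succ_iff_lt_or_eq.1 hu with hu | rfl
    · refine (anch_a0 S s _).close S ?_ u hu
      have h1 := (hm.fresh0 S k).1
      have h2 := half_le2 2 (show I.B s + 2 ≤ I.B s + (I.nd s).x + 2 by omega)
      unfold rr
      linarith
    · exact Or.inl (hm.noop (by omega)).2.2.1
  · obtain ⟨-, -, hx, ha, -, hc, hl, -⟩ := hm.f1 k
    have b := Act.bd (Or.inl k)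
    have hl' : (I.nd t).l = 0 := by have := kind_len (I := I) t; omega
    obtain ⟨i1, i2⟩ := ih t hm.lt (Or.inl k)
    rw [hx, ha, hc, hl, ← hl']
    exact ⟨i1.later S b.1 (by linarith [hm.lt]) le_rfl,
      i2.later S b.2.2.1 (by linarith [hm.lt]) le_rfl⟩
  · obtain ⟨-, -, hx, ha, -, -, hl, -⟩ := hm.f2 k
    have b := Act.bd (Or.inr k)
    have b2 : I.B (t + 1) ≤ I.B s := B_mono hm.lt
    obtain ⟨i1, i2⟩ := ih t hm.lt (Or.inr k)
    have hp := lam_pos (I.nd t).x (I.nd t).l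
    have h1 : I.Anch d (I.nd s).a s (lam (I.nd t).x (I.nd t).l) ∧ (I.nd s).a < I.B s := by
      rw [ha]
      rcases na_nb (I := I) (I.nd t) w with ⟨-, e, -⟩ | ⟨-, e, -⟩ <;> rw [e]
      · exact ⟨i2.later S b.2.2.1 hm.lt le_rfl, by omega⟩
      · exact ⟨i1.later S b.1 hm.lt le_rfl, by omega⟩
    rw [hx, hl, lam_succ]
    refine ⟨h1.1.later S h1.2 (Nat.le_succ _) (by linarith), fun u hu => ?_⟩
    rcases Nat.lt_succ_iff_lt_or_eq.1 hu with hu | rfl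
    · rcases h1.1.close S (hm.close2 S k) u hu with h | h | h
      · exact Or.inl h
      · exact Or.inr (Or.inl h)
      · exact Or.inr (Or.inr (by linarith))
    · right; right
      rw [(hm.op k).2.2.1]; linarith

theorem Made.anch_na (S : I.Spec d) {s t w : ℕ} (hm : I.Made s t w) (k : (I.nd t).kind = 2) :
    I.Anch d (I.nd s).a s (lam (I.nd t).x (I.nd t).l) := by
  have b := Act.bd (Or.inr k)
  obtain ⟨i1, i2⟩ := Act.anch S (Or.inr k)
  rw [(hm.f2 k).2.2.2.1]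
  rcases na_nb (I := I) (I.nd t) w with ⟨-, e, -⟩ | ⟨-, e, -⟩ <;> rw [e]
  · exact i2.later S b.2.2.1 hm.lt le_rfl
  · exact i1.later S b.1 hm.lt le_rfl

theorem chain (S : I.Spec d) (z t u : ℕ) (h : t < u) :
    I.gS d t z = 0 ∨ I.gS d u z = 0 ∨ I.Hg u ≤ 3 / 4 * I.Hg t := by
  rcases op_cases (I := I) u with ⟨-, -, -, h1, -⟩ | ⟨p, w, hm, k, hc, -, hH, -⟩
  · exact Or.inr (Or.inl (gS_zero S h1 z))
  · rcases (hm.anch_na S k).close S (hm.close2 S k) t h with h1 | h1 | h1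
    · exact Or.inl (gS_zero S h1 z)
    · rw [← hc] at h1
      have := S.pm.tri (I.cS u) z (I.cS t)
      rw [S.pm.comm (I.cS u) z] at this
      by_cases h2 : I.rr (t + 1) ≤ d z (I.cS t)
      · exact Or.inl (gS_far h2)
      · exact Or.inr (Or.inl (gS_far (by linarith)))
    · exact Or.inr (Or.inr (by rw [hH]; exact h1))

end Inp

end Pool.Agent.MP_55a818_lc.H28
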