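import Mathlib
import Pool.Agent.MP_55a818_lc.H28.Tree2

/-!
The tree of strategies: the two new metrics are computable and uniformly equivalent to the old one.
-/

namespace Pool.Agent.MP_55a818_lc.H28

open Filter Topology

theorem exists_pow_le {r β : ℝ} (h0 : 0 ≤ r) (h1 : r < 1) (hβ : 0 < β) :
    ∀ᶠ n : ℕ in atTop, r ^ n ≤ β :=
  (tendsto_pow_atTop_nhds_zero_of_lt_one h0 h1).eventually (ge_mem_nhds hβ)

theorem exists_half_le {β : ℝ} (hβ : 0 < β) : ∀ᶠ n : ℕ in atTop, 1 / 2 ^ n ≤ β := by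
  filter_upwards [exists_pow_le (r := 1 / 2) (by norm_num) (by norm_num) hβ] with n hn
  rwa [one_div_pow] at hn

namespace Inp

variable {I : Inp} {d : ℕ → ℕ → ℝ}

noncomputable def DS (I : Inp) (d : ℕ → ℕ → ℝ) : ℕ → ℕ → ℕ → ℝ := ds d (I.gS d) I.cS I.bS I.lS

def InvD (I : Inp) (D : ℕ → ℕ → ℝ) (s : ℕ) : Prop :=
  D (I.nd s).a (I.nd s).c ≤ lam (I.nd s).x (I.nd s).l ∧
  D (I.nd s).c (I.nd s).b ≤ lam (I.nd s).x (I.nd s).l ∧
  D I.a0 (I.nd s).a + 4 * lam (I.nd s).x (I.nd s).l ≤ 4 / 2 ^ (I.nd s).x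

theorem DS_pm (S : I.Spec d) (s : ℕ) : IsPM (I.DS d s) := ds_pm S.pm lS_pos s

theorem DS_lip (S : I.Spec d) (s x y : ℕ) : I.DS d s x y ≤ 2 ^ (I.B s + 1) * d x y :=
  ds_lip S.pm B_lt (gS_lip S) s x y

theorem DS_noop (S : I.Spec d) {s : ℕ} (h : I.cS s = 0 ∧ I.bS s = 0 ∧ I.Hg s = 0 ∧ I.lS s = 1) :
    I.DS d (s + 1) = I.DS d s := by
  funext x y
  refine ds_succ_eq S.pm lS_pos (gS_zero S h.2.2.1 _) (gS_zero S h.2.2.1 _) (gS_zero S h.2.2.1 _) ?_
  rw [h.1, h.2.1, (ds_pm S.pm lS_pos s).self, h.2.2.2]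
  positivity

theorem InvD.na {D : ℕ → ℕ → ℝ} (hD : IsPM D) {t : ℕ} (h : I.InvD D t) (w : ℕ) :
    D (I.na (I.nd t) w) (I.nb (I.nd t) w) ≤ lam (I.nd t).x (I.nd t).l ∧
    D I.a0 (I.na (I.nd t) w) + 3 * lam (I.nd t).x (I.nd t).l ≤ 4 / 2 ^ (I.nd t).x := by
  obtain ⟨h1, h2, h3⟩ := h
  rcases na_nb (I := I) (I.nd t) w with ⟨-, e, e', -⟩ | ⟨-, e, e', -⟩ <;> rw [e, e']
  · exact ⟨h2, by linarith [hD.tri I.a0 (I.nd t).a (I.nd t).c]⟩
  · exact ⟨h1, by linarith [lam_pos (I.nd t).x (I.nd t).l]⟩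

theorem fix_inv (S : I.Spec d) (s : ℕ) :
    (∀ x y, x < I.B s → y < I.B s → I.DS d (s + 1) x y = I.DS d s x y) ∧
      (I.Act s → I.InvD (I.DS d (s + 1)) s) := by
  induction s using Nat.strong_induction_on with
  | _ s ih =>
  have stab : ∀ t u, t ≤ u → u ≤ s → ∀ x y, x < I.B t → y < I.B t →
      I.DS d u x y = I.DS d t x y := by
    intro t u htu
    induction htu with
    | refl => intros; rfl
    | @step u htu ih' =>
      intro hu x y hx hy
      rw [(ih u hu).1 x y (hx.trans_le (B_mono htu)) (hy.trans_le (B_mono htu)),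
        ih' (Nat.le_of_succ_le hu) x y hx hy]
  have old : ∀ t < s, I.Act t → I.InvD (I.DS d s) t := by
    intro t ht hA
    have b := hA.bd
    have b0 := B_ge (I := I) (t + 1)
    have := (ih t ht).2 hA
    unfold InvD at this ⊢
    rw [stab (t + 1) s ht le_rfl _ _ b.1 b.2.2.1, stab (t + 1) s ht le_rfl _ _ b.2.2.1 b.2.1,
      stab (t + 1) s ht le_rfl _ _ (by omega) b.1]
    exact this
  by_cases hA : I.Act s
  swap
  · rcases op_cases (I := I) s with ⟨-, h⟩ | ⟨t, w, hm, -⟩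
    · exact ⟨fun x y _ _ => by rw [DS_noop S h], fun h => absurd h hA⟩
    · exact absurd hm.act hA
  obtain ⟨t, w, hm⟩ := hA.made
  have P := DS_pm S s
  rcases hm.kinds with k | k | k
  · rw [DS_noop S (hm.noop (by omega))]
    refine ⟨fun _ _ _ _ => rfl, fun _ => ?_⟩
    obtain ⟨-, -, -, ha, hb, hl, -⟩ := hm.f0 k
    have h1 := DS_lip S s I.a0 (I.nd s).c
    have h2 := (hm.fresh0 S k).1
    have h3 : (2 : ℝ) ^ (I.B s + 1) * (1 / 2 ^ (I.B s + (I.nd s).x + 2)) ≤ 1 / 2 ^ (I.nd s).x := by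
      rw [show I.B s + (I.nd s).x + 2 = (I.B s + 1) + ((I.nd s).x + 1) by ring, pow_add _ (_ + 1)]
      refine le_trans (le_of_eq ?_) (half_le (Nat.le_succ _))
      field_simp
    have h4 := mul_le_mul_of_nonneg_left h2 (show (0 : ℝ) ≤ 2 ^ (I.B s + 1) by positivity)
    unfold InvD
    rw [ha, hb, hl, lam_zero, P.self, P.comm (I.nd s).c]
    refine ⟨by linarith, by linarith, le_of_eq (by ring)⟩
  · rw [DS_noop S (hm.noop (by omega))]
    refine ⟨fun _ _ _ _ => rfl, fun _ => ?_⟩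
    obtain ⟨-, -, hx, ha, hb, hc, hl, -⟩ := hm.f1 k
    have hl' : (I.nd t).l = 0 := by have := kind_len (I := I) t; omega
    unfold InvD
    rw [hx, ha, hb, hc, hl, ← hl']
    exact old t hm.lt (Or.inl k)
  · obtain ⟨-, -, hx, ha, hb, -, hl, -⟩ := hm.f2 k
    obtain ⟨oc, ob, oH, ol⟩ := hm.op k
    obtain ⟨n1, n2⟩ := (old t hm.lt (Or.inr k)).na P w
    rw [← ha] at n1 n2
    rw [← hb] at n1
    have b := Act.bd (Or.inr k)
    have b2 : I.B (t + 1) ≤ I.B s := B_mono hm.lt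
    have b0 := B_ge (I := I) s
    have b3 : (I.nd s).a < I.B s ∧ (I.nd s).b < I.B s := by
      have := na_nb (I := I) (I.nd t) w
      omega
    have hp := lam_pos (I.nd t).x (I.nd t).l
    have h1 := DS_lip S s (I.nd s).a (I.nd s).c
    have h2 := (hm.fresh2 S k).1
    have h3 : (2 : ℝ) ^ (I.B s + 1) * (1 / 2 ^ (I.B s + (I.nd t).x + 2 * (I.nd t).l + 3)) =
        1 / 2 ^ ((I.nd t).x + 2 * (I.nd t).l) / 4 := by
      rw [show I.B s + (I.nd t).x + 2 * (I.nd t).l + 3 =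
        (I.B s + 1) + ((I.nd t).x + 2 * (I.nd t).l) + 2 by ring, pow_add _ _ 2, pow_add _ (_ + 1)]
      field_simp; norm_num
    have h4 := mul_le_mul_of_nonneg_left h2 (show (0 : ℝ) ≤ 2 ^ (I.B s + 1) by positivity)
    have h5 := le_lam (I.nd t).x (I.nd t).l
    have h6 : I.DS d s (I.nd s).a (I.nd s).c ≤ lam (I.nd t).x (I.nd t).l / 4 := by linarith
    have g1 := gS_self S s
    have fx : ∀ x y, x < I.B s → y < I.B s → I.DS d (s + 1) x y = I.DS d s x y := by
      intro x y hx hy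
      refine ds_succ_eq S.pm lS_pos (gS_old S hx) (gS_old S hy) (gS_old S (ob ▸ b3.2)) ?_
      rw [g1, oH, ol, oc, ob, abs_of_pos (by linarith)]
      have := P.tri (I.nd s).c (I.nd s).a (I.nd s).b
      rw [P.comm (I.nd s).c (I.nd s).a] at this
      change I.DS d s _ _ ≤ _
      linarith
    refine ⟨fx, fun _ => ?_⟩
    unfold InvD
    rw [hx, hl, lam_succ, fx _ _ (by omega) b3.1]
    refine ⟨?_, ?_, by linarith⟩
    · have := ds_succ_le (d := d) (g := I.gS d) (c := I.cS) (b := I.bS) (l := I.lS) s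
        (I.nd s).a (I.nd s).c
      rw [gS_old S b3.1, ← oc, g1, oc, oH, zero_sub, abs_neg, abs_of_pos (by linarith)] at this
      change I.DS d (s + 1) _ _ ≤ I.DS d s _ _ + _ at this
      linarith
    · have := ds_succ_cb (g := I.gS d) (c := I.cS) (b := I.bS) S.pm (lS_pos (I := I)) s
      rwa [oc, ob, ol] at this

noncomputable def D1 (I : Inp) (d : ℕ → ℕ → ℝ) : ℕ → ℕ → ℝ := dlim d (I.gS d) I.cS I.bS I.lS

theorem Act.invD (S : I.Spec d) {s : ℕ} (h : I.Act s) : I.InvD (I.D1 d) s := by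
  have b := h.bd
  have b0 := B_ge (I := I) (s + 1)
  have e : ∀ x y, x < I.B (s + 1) → y < I.B (s + 1) → I.D1 d x y = I.DS d (s + 1) x y :=
    fun x y hx hy => dlim_eq B_lt (fun s => (fix_inv S s).1) hx hy
  unfold InvD
  rw [e _ _ b.1 b.2.2.1, e _ _ b.2.2.1 b.2.1, e _ _ (by omega) b.1]
  exact (fix_inv S s).2 h

theorem len_le (s : ℕ) : (I.nd s).bel.length ≤ s := by
  induction s using Nat.strong_induction_on with
  | _ s ih =>
  rcases I.nd_cases s with ⟨e, -, h1, -⟩ | ⟨h1, -⟩ | ⟨t, w, h1⟩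
  · simp [h1, root]
  · simp [h1, dummy]
  · have := ih t h1.lt
    have := h1.lt
    rw [h1.basic.2.2.2.1, List.length_cons]
    omega

theorem stop_iff (r : Nd) (w : ℕ) :
    I.stop r w = true ↔ r.kind = 2 ∧ lam r.x r.l ≤ 1 / 2 ^ (I.nm r w + 1) := by
  unfold stop
  simp only [Bool.and_eq_true, beq_iff_eq, Nat.ble_eq]
  rw [lam_eq, div_le_div_iff₀ (by positivity) (by positivity), one_mul]
  norm_cast

section limit
variable {L : ℕ → Option ℕ} (hL : ∀ q, ∀ᶠ s in atTop, I.H (q, s) = L q)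
include hL

theorem eventually_deep (n m : ℕ) :
    ∀ᶠ s in atTop, (I.nd s).kind < 3 → n ≤ (I.nd s).e ∨ m ≤ (I.nd s).bel.length := by
  have : ∀ᶠ s in atTop, ∀ e ∈ Finset.range n,
      ¬((I.nd s).kind < 3 ∧ (I.nd s).e = e ∧ (I.nd s).bel.length < m) := by
    rw [eventually_all_finset]
    intro e _
    rw [← Nat.cofinite_eq_atTop]
    exact (fin_below hL e m).compl_mem_cofinite
  filter_upwards [this] with s hs hk
  by_contra hcon
  push Not at hcon
  exact hs _ (Finset.mem_range.2 hcon.1) ⟨hk, rfl, hcon.2⟩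

theorem Hg_small {β : ℝ} (hβ : 0 < β) : ∀ᶠ s in atTop, I.Hg s ≤ β := by
  obtain ⟨n, h1, h2⟩ := ((exists_pow_le (r := 3 / 4) (by norm_num) (by norm_num) hβ).and
    (exists_half_le hβ)).exists
  filter_upwards [eventually_deep hL n (n + 3)] with s hs
  rcases op_cases (I := I) s with ⟨-, -, -, h, -⟩ | ⟨t, w, hm, k, -, -, h, -⟩ <;> rw [h]
  · exact hβ.le
  · have hp := lam_pos (I.nd t).x (I.nd t).l
    have f := hm.f2 k
    rcases hs (by omega) with h3 | h3
    · have := hm.act.bd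
      have := half_le (show n ≤ (I.nd t).x by omega)
      linarith [lam_le (I.nd t).x (I.nd t).l]
    · have := kind_len (I := I) s
      have : ((3 : ℝ) / 4) ^ (I.nd t).l ≤ (3 / 4) ^ n :=
        pow_le_pow_of_le_one (by norm_num) (by norm_num) (by omega)
      linarith [lam_le' (I.nd t).x (I.nd t).l]

theorem cluster (S : I.Spec d) (e : ℕ) {β : ℝ} (hβ : 0 < β) : ∃ z, ∀ᶠ s in atTop,
    I.Act s → (I.nd s).e = e → d z (I.nd s).c ≤ β ∧ d z (I.nd s).b ≤ β := by
  by_cases H : ∀ n, ∃ t, I.Tr L t ∧ (I.nd t).e = e ∧ (I.nd t).bel.length = n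
  swap
  · push Not at H
    obtain ⟨n, hn⟩ := H
    refine ⟨0, ?_⟩
    filter_upwards [eventually_desc hL e n] with s hs hA he
    obtain ⟨t, -, h1, h2, h3⟩ := hs (by unfold Act at hA; omega) he
    exact absurd h3 (hn t h1 h2)
  choose T hT he hlen using H
  have step : ∀ k, ∃ w, I.Made (T (k + 1)) (T k) w := by
    intro k
    obtain ⟨t, w, hm, hl⟩ := made_of_len (hlen (k + 1))
    obtain rfl := tr_unique k t (T k) (hm.tr_parent (hT _)).1 (hT k)
      (by rw [← hm.basic.1, he, he]) hl (hlen k)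
    exact ⟨w, hm⟩
  have kl : ∀ k, 2 ≤ k → (I.nd (T k)).kind = 2 ∧ (I.nd (T k)).l = k - 2 := by
    intro k hk
    have := kind_len (I := I) (T k)
    have := (hT k).1
    have := hlen k
    omega
  obtain ⟨n, h1, h2⟩ := ((exists_half_le hβ).and (eventually_ge_atTop 2)).exists
  set p := T (n + 1)
  have hA : I.Act p := Or.inr (kl _ (by omega)).1
  have hr : I.rr p ≤ β := by
    have := len_le (I := I) p
    have := le_B (I := I) p
    have : (I.nd p).bel.length = n + 1 := hlen (n + 1)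
    exact (half_le (by omega)).trans h1
  have hN : I.NearA d (I.nd p).a β p := by
    obtain ⟨w, hm⟩ := step n
    have := hm.close2 S (kl n h2).1
    have := rr_succ (I := I) p
    have := rr_pos (I := I) p
    unfold NearA
    rw [S.pm.self]
    constructor <;> linarith
  have key : ∃ k, n + 1 ≤ k ∧ I.Near d (I.nd p).a β (T k) := by
    by_contra hcon
    push Not at hcon
    have h3 : ∀ k, n + 1 ≤ k → I.Desc p (T k) ∧ (I.nd (T k)).mb = (I.nd p).mb := by
      intro k hk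
      induction hk with
      | refl => exact ⟨.refl, rfl⟩
      | @step k hk ih =>
        replace hk : n + 1 ≤ k := hk
        obtain ⟨w, hm⟩ := step k
        refine ⟨ih.1.step hm, ?_⟩
        obtain ⟨-, -, -, -, hb, hmb, -⟩ := hm.f2 (kl k (by omega)).1
        rcases na_nb (I := I) (I.nd (T k)) w with ⟨-, -, -, e⟩ | ⟨-, -, e, -⟩
        · rw [← ih.2, ← e]; exact hmb
        · refine absurd ⟨(ih.1.step hm).nearA S hA hN, ?_⟩ (hcon (k + 1) (by omega))
          rw [hb, e]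
          linarith [(ih.1.nearA S hA hN).2, rr_pos (I := I) (T k + 1)]
    obtain ⟨l, h4, h5⟩ := ((exists_pow_le (r := 3 / 4) (by norm_num) (by norm_num)
      (show (0 : ℝ) < 1 / 2 ^ ((I.nd p).mb + 1) by positivity)).and
      (eventually_ge_atTop n)).exists
    obtain ⟨w, hm⟩ := step (l + 2)
    obtain ⟨k1, k2⟩ := kl (l + 2) (by omega)
    have h6 := hm.nostop
    rw [← Bool.not_eq_true, stop_iff, ← (hm.f2 k1).2.2.2.2.2.1, (h3 _ (by omega)).2, k2] at h6
    exact h6 ⟨k1, (lam_le' _ _).trans h4⟩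
  obtain ⟨k, hk0, hk⟩ := key
  refine ⟨(I.nd p).a, ?_⟩
  filter_upwards [eventually_desc hL e k] with s hs hAs hes
  obtain ⟨t, h3, h4, h5, h6⟩ := hs (by unfold Act at hAs; omega) hes
  obtain rfl := tr_unique k t (T k) h4 (hT k) (by rw [h5, he]) h6 (hlen k)
  have := h3.near S (Or.inr (kl k (by omega)).1) hk
  exact ⟨by linarith [this.1.2, rr_pos (I := I) (s + 1)], this.2⟩

theorem D1_spec (S : I.Spec d) : IsPM (I.D1 d) ∧ UC d (I.D1 d) ∧ UC (I.D1 d) d := by
  refine surgery S.pm lS_pos gS_nonneg B_lt (gS_lip S) (fun s => (fix_inv S s).1) ?_ ?_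
  · intro ε hε
    obtain ⟨s0, hs0⟩ := eventually_atTop.1 (Hg_small hL (show 0 < ε / 4 by positivity))
    refine ⟨s0, fun x n => ?_⟩
    have := chain_sum (g := fun u => I.gS d u x) (show 0 ≤ ε / 4 by positivity)
      (fun u => gS_le S u x) hs0 (chain S x) Hg_nonneg n
    linarith
  · intro δ hδ
    obtain ⟨n, hn⟩ := (exists_half_le (show 0 < δ / 6 by positivity)).exists
    set w := δ / (3 * (2 * (Finset.range n).card + 1)) with hw
    have hw0 : 0 < w := by positivity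
    choose z hz using fun e => cluster hL S e (show 0 < w / 2 by positivity)
    obtain ⟨s0, hs0⟩ := eventually_atTop.1
      ((eventually_all_finset (Finset.range n)).2 fun e _ => hz e)
    refine ⟨s0, w, hw0, fun x => ?_⟩
    obtain ⟨ρ, h0, h1, h2, h3⟩ := shell hδ (Finset.range n) (d x I.a0) fun e => d x (z e)
    refine ⟨ρ, h0, h1, fun s hs => ?_⟩
    rcases op_cases (I := I) s with ⟨-, h, h', -⟩ | ⟨t, v, hm, -, hc, hb, -⟩
    · left; rw [h, h']
    right
    rw [hc, hb]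
    have T := S.pm.tri
    have C := S.pm.comm
    by_cases he : (I.nd s).e < n
    · obtain ⟨h4, h5⟩ := hs0 s hs _ (Finset.mem_range.2 he) hm.act rfl
      rcases h3 _ (Finset.mem_range.2 he) with h | h
      · left
        constructor <;> linarith [T x (z (I.nd s).e) (I.nd s).c, T x (z (I.nd s).e) (I.nd s).b]
      · right
        constructor <;> linarith [T x (I.nd s).c (z (I.nd s).e), T x (I.nd s).b (z (I.nd s).e),
          C (I.nd s).c (z (I.nd s).e), C (I.nd s).b (z (I.nd s).e)]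
    · obtain ⟨⟨-, h4⟩, h5⟩ := hm.act.near S
      have := hm.act.bd
      have := half_le (show n ≤ (I.nd s).x by omega)
      have := rr_pos (I := I) (s + 1)
      rcases h2 with h | h
      · left
        constructor <;> linarith [T x I.a0 (I.nd s).c, T x I.a0 (I.nd s).b]
      · right
        constructor <;> linarith [T x (I.nd s).c I.a0, T x (I.nd s).b I.a0,
          C (I.nd s).c I.a0, C (I.nd s).b I.a0]

end limit

end Inp

end Pool.Agent.MP_55a818_lc.H28
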