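import Mathlib
import Pool.Agent.MP_55a818_lc.H28.Tree3

/-!
The tree of strategies: computability of the first metric, the second metric (cuts), and the
existence of the search procedures.
-/

namespace Pool.Agent.MP_55a818_lc.H28

open Filter Topology

namespace Inp

variable {I : Inp} {d : ℕ → ℕ → ℝ}

@[fun_prop] theorem c_opB : Computable opB := by unfold opB; fun_prop

theorem compD_D1 [I.Comp] (S : I.Spec d) : CompD (I.D1 d) := by
  refine compD_dlim (E := fun s => 2 ^ I.B (s + 1) + 1) (B := I.B)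
    (gN := fun p => cond (opB (I.nd p.2.1))
      (2 * 3 ^ (I.nd p.2.1).l * 2 ^ p.1 / (3 * 2 ^ ((I.nd p.2.1).x + 2 * (I.nd p.2.1).l))) 0 -
        2 ^ I.B (p.2.1 + 1) * I.q (p.2.2, I.cS p.2.1, p.1))
    (lN := fun p => cond (opB (I.nd p.2))
      (3 ^ (I.nd p.2).l * 2 ^ p.1 / 2 ^ ((I.nd p.2).x + 2 * (I.nd p.2).l)) (2 ^ p.1))
    ⟨I.q, Comp.q, S.apx⟩ (by unfold cS; fun_prop) (by fun_prop) (by fun_prop)
    (by unfold cS; fun_prop) (by unfold bS; fun_prop) (by fun_prop) B_mono ?_ ?_ ?_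
  · intro s
    have := B_ge (I := I) (s + 1)
    rcases op_cases (I := I) s with ⟨-, h, h', -⟩ | ⟨t, w, hm, -, h, h', -⟩ <;> rw [h, h']
    · omega
    · have := hm.act.bd; omega
  · intro n s z
    simp only
    rw [cast_tsub, gS, max_mul_of_nonneg _ _ (by positivity), zero_mul]
    refine abs_max_sub (by rw [sub_self, abs_zero]; positivity) ?_
    have h1 := S.apx.scaled z (I.cS s) n
    have h2 : |I.Hg s * 2 ^ n - ((cond (opB (I.nd s))
        (2 * 3 ^ (I.nd s).l * 2 ^ n / (3 * 2 ^ ((I.nd s).x + 2 * (I.nd s).l))) 0 : ℕ) : ℝ)| ≤ 1 := by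
      unfold Hg
      cases opB (I.nd s) with
      | false => simp
      | true =>
        simp only [cond_true]
        convert abs_div_floor (2 * 3 ^ (I.nd s).l * 2 ^ n)
          (3 * 2 ^ ((I.nd s).x + 2 * (I.nd s).l)) using 3
        rw [lam_eq]; push_cast; field_simp
    have hp : (0 : ℝ) < 2 ^ I.B (s + 1) := by positivity
    push_cast
    rw [abs_le] at h1 h2 ⊢
    constructor <;> nlinarith [h1.1, h1.2, h2.1, h2.2]
  · intro n s
    simp only
    unfold lS
    cases opB (I.nd s) with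
    | false => simp
    | true =>
      simp only [cond_true]
      convert abs_div_floor (3 ^ (I.nd s).l * 2 ^ n)
        (2 ^ ((I.nd s).x + 2 * (I.nd s).l)) using 3
      rw [lam_eq]; push_cast; field_simp

/-- stage `s` makes a cut -/
def cutB (r : Nd) : Bool := r.kind == 2 && r.l == 0

@[fun_prop] theorem c_cutB : Computable cutB := by unfold cutB; fun_prop

/-- the profile of a cut -/
noncomputable def prof (r : Nd) (u : ℝ) : ℝ := 2 / 2 ^ r.e * max 0 (2 - |2 ^ r.j * u - r.num|)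

noncomputable def g2 (I : Inp) (d : ℕ → ℕ → ℝ) (s z : ℕ) : ℝ :=
  cond (cutB (I.nd s)) (prof (I.nd s) (d z (I.nd s).ya)) 0

theorem cut_cases (s : ℕ) : cutB (I.nd s) = false ∨
    ∃ t w, I.Made s t w ∧ (I.nd t).kind = 1 ∧ cutB (I.nd s) = true := by
  cases h : cutB (I.nd s) with
  | false => simp
  | true =>
    right
    simp only [cutB, Bool.and_eq_true, beq_iff_eq] at h
    obtain ⟨t, w, hm⟩ := Act.made (Or.inr h.1)
    rcases hm.kinds with k | k | k
    · have := hm.f0 k; omega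
    · exact ⟨t, w, hm, k, rfl⟩
    · have := hm.f2 k; omega

theorem Made.cut {s t w : ℕ} (h : I.Made s t w) (k : (I.nd t).kind = 1) :
    cutB (I.nd s) = true := by
  have := h.f1 k
  simp [cutB, this.1, this.2.2.2.2.2.2.1]

theorem g2_old (S : I.Spec d) {s i : ℕ} (hi : i < I.B s) : I.g2 d s i = 0 := by
  unfold g2
  rcases cut_cases (I := I) s with h | ⟨t, w, hm, k, h⟩ <;> rw [h]
  · rfl
  · obtain ⟨-, -, -, -, -, -, -, h1, h2, h3⟩ := hm.f1 k
    have h4 := (S.cu w.unpair.2 (I.B s) w.unpair.1).2.2 i hi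
    rw [← h2, ← h3, ← h1] at h4
    have hp : (0 : ℝ) < 2 ^ (I.nd s).j := by positivity
    have e : (2 : ℝ) ^ (I.nd s).j * d i (I.nd s).ya - (I.nd s).num =
        2 ^ (I.nd s).j * (d i (I.nd s).ya - (I.nd s).num / 2 ^ (I.nd s).j) := by field_simp
    rw [div_le_iff₀ hp] at h4
    simp only [cond_true, prof]
    rw [max_eq_left, mul_zero]
    rw [e, abs_mul, abs_of_pos hp]
    linarith

theorem prof_lip (r : Nd) (u v : ℝ) : |prof r u - prof r v| ≤ 2 / 2 ^ r.e * 2 ^ r.j * |u - v| := by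
  unfold prof
  rw [← mul_sub, abs_mul, abs_of_pos (by positivity), mul_assoc]
  gcongr
  refine abs_max_sub (by rw [sub_self, abs_zero]; positivity) ?_
  rw [sub_sub_sub_cancel_left]
  refine (abs_abs_sub_abs_le_abs_sub _ _).trans (le_of_eq ?_)
  rw [sub_sub_sub_cancel_right, ← mul_sub, abs_mul, abs_of_pos (by positivity), abs_sub_comm]

theorem prof_bd (r : Nd) (u : ℝ) : 0 ≤ prof r u ∧ prof r u ≤ 4 / 2 ^ r.e := by
  unfold prof
  refine ⟨mul_nonneg (by positivity) (le_max_left _ _), ?_⟩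
  have : max 0 (2 - |2 ^ r.j * u - r.num|) ≤ (2 : ℝ) :=
    max_le (by norm_num) (by linarith [abs_nonneg (2 ^ r.j * u - r.num)])
  calc _ ≤ 2 / 2 ^ r.e * (2 : ℝ) := by gcongr
    _ = _ := by ring

theorem D2_spec {L : ℕ → Option ℕ} (hL : ∀ q, ∀ᶠ s in atTop, I.H (q, s) = L q) (S : I.Spec d) :
    IsPM (dsup d (I.g2 d)) ∧ UC d (dsup d (I.g2 d)) ∧ UC (dsup d (I.g2 d)) d ∧
      (∀ x y, d x y ≤ dsup d (I.g2 d) x y) ∧
      ∀ s x y, |I.g2 d s x - I.g2 d s y| ≤ dsup d (I.g2 d) x y := by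
  refine cuts S.pm (fun s x hx => g2_old S (hx.trans_le (le_B s))) (fun s => ?_) fun ε hε => ?_
  · refine ⟨2 / 2 ^ (I.nd s).e * 2 ^ (I.nd s).j, by positivity, fun x y => ?_⟩
    unfold g2
    cases cutB (I.nd s) with
    | false =>
      simp only [cond_false, sub_self, abs_zero]
      exact mul_nonneg (by positivity) (S.pm.nonneg _ _)
    | true =>
      refine (prof_lip _ _ _).trans ?_
      gcongr
      rw [abs_le]
      constructor <;> linarith [S.pm.tri x y (I.nd s).ya, S.pm.tri y x (I.nd s).ya, S.pm.comm x y]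
  · obtain ⟨n, hn⟩ := (exists_half_le (show 0 < ε / 4 by positivity)).exists
    obtain ⟨s0, hs0⟩ := eventually_atTop.1 (eventually_deep hL n 3)
    refine ⟨s0, fun s hs x y => ?_⟩
    unfold g2
    rcases cut_cases (I := I) s with h | ⟨t, w, hm, k, h⟩ <;> rw [h]
    · simpa using hε.le
    · have f := hm.f1 k
      have := kind_len (I := I) s
      have h1 : n ≤ (I.nd s).e := by have := hs0 s hs (by omega); omega
      have h2 := half_le h1
      have h3 := prof_bd (I.nd s) (d x (I.nd s).ya)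
      have h4 := prof_bd (I.nd s) (d y (I.nd s).ya)
      rw [div_eq_mul_one_div 4] at h3 h4
      simp only [cond_true]
      rw [abs_le]
      constructor <;> linarith [h3.1, h3.2, h4.1, h4.2]

theorem compD_D2 [I.Comp] (S : I.Spec d) : CompD (dsup d (I.g2 d)) := by
  refine compD_dsup (E := fun s => 2 ^ (I.nd s).j + 1)
    (gN := fun p => cond (cutB (I.nd p.2.1))
      ((2 * 2 ^ (p.1 + 1) - Nat.dist (2 ^ (I.nd p.2.1).j * I.q (p.2.2, (I.nd p.2.1).ya, p.1 + 1))
        ((I.nd p.2.1).num * 2 ^ (p.1 + 1))) / 2 ^ (I.nd p.2.1).e) 0)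
    ⟨I.q, Comp.q, S.apx⟩ (by fun_prop) (by fun_prop) ?_
  intro n s z
  simp only
  unfold g2
  cases cutB (I.nd s) with
  | false => simp; positivity
  | true =>
    simp only [cond_true]
    set r := I.nd s
    set N := 2 * 2 ^ (n + 1) - Nat.dist (2 ^ r.j * I.q (z, r.ya, n + 1)) (r.num * 2 ^ (n + 1))
    have h1 := abs_div_floor N (2 ^ r.e)
    have h2 := S.apx.scaled z r.ya (n + 1)
    have hp : (0 : ℝ) < 2 ^ r.j := by positivity
    have hq : (0 : ℝ) < 2 ^ (n + 1) := by positivity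
    have h3 : |max 0 (2 - |2 ^ r.j * d z r.ya - r.num|) * 2 ^ (n + 1) - (N : ℝ)| ≤ 2 ^ r.j := by
      rw [cast_tsub, max_mul_of_nonneg _ _ hq.le, zero_mul]
      refine abs_max_sub (by rw [sub_self, abs_zero]; positivity) ?_
      rw [cast_dist, sub_mul]
      push_cast
      rw [sub_sub_sub_cancel_left, ← abs_of_pos hq, ← abs_mul, abs_of_pos hq]
      refine (abs_abs_sub_abs_le_abs_sub _ _).trans ?_
      rw [abs_le] at h2 ⊢
      constructor <;> nlinarith [h2.1, h2.2]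
    have he : (1 : ℝ) ≤ 2 ^ r.e := one_le_pow₀ (by norm_num)
    have h4 : |prof r (d z r.ya) * 2 ^ n - (N : ℝ) / 2 ^ r.e| ≤ 2 ^ r.j := by
      rw [show prof r (d z r.ya) * 2 ^ n - (N : ℝ) / 2 ^ r.e =
        (max 0 (2 - |2 ^ r.j * d z r.ya - r.num|) * 2 ^ (n + 1) - N) / 2 ^ r.e by
          unfold prof; field_simp; ring, abs_div, abs_of_pos (show (0 : ℝ) < 2 ^ r.e by positivity)]
      exact (div_le_self (abs_nonneg _) he).trans h3
    push_cast at h1 ⊢
    linarith [abs_sub_le (prof r (d z r.ya) * 2 ^ n) ((N : ℝ) / 2 ^ r.e)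
      ((N / 2 ^ r.e : ℕ) : ℝ)]

end Inp

/-- a radius whose sphere avoids finitely many points -/
theorem exists_cut {d : ℕ → ℕ → ℝ} {q : ℕ × ℕ × ℕ → ℕ} (hq : Computable q) (ha : Apx d q) :
    ∃ cu : ℕ × ℕ × ℕ → ℕ, Computable cu ∧ ∀ ya K k,
      (2 : ℝ) / 2 ^ k ≤ (cu (ya, K, k)).unpair.2 / 2 ^ (cu (ya, K, k)).unpair.1 ∧
      ((cu (ya, K, k)).unpair.2 : ℝ) / 2 ^ (cu (ya, K, k)).unpair.1 ≤ 8 / 2 ^ k ∧
      ∀ i < K, 2 / 2 ^ (cu (ya, K, k)).unpair.1 ≤
        |d i ya - (cu (ya, K, k)).unpair.2 / 2 ^ (cu (ya, K, k)).unpair.1| := by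
  classical
  let P : ℕ × ℕ × ℕ → ℕ → Bool := fun p t => Nat.ble t p.2.1 &&
    (List.range p.2.1).all fun i =>
      Nat.ble 3 (Nat.dist (q (i, p.1, p.2.2 + p.2.1)) (2 * 2 ^ p.2.1 + 5 * t))
  have hex : ∀ p, ∃ t, P p t = true := by
    rintro ⟨ya, K, k⟩
    obtain ⟨t, ht, ht'⟩ := Finset.exists_mem_notMem_of_card_lt_card (s := (Finset.range K).image
      fun i => (q (i, ya, k + K) + 2 - 2 * 2 ^ K) / 5) (t := Finset.range (K + 1))
      (by simpa using Nat.lt_succ_of_le (Finset.card_image_le.trans (by simp)))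
    refine ⟨t, ?_⟩
    simp only [P, Bool.and_eq_true, Nat.ble_eq, List.all_eq_true, List.mem_range]
    refine ⟨Nat.lt_succ_iff.1 (Finset.mem_range.1 ht), fun i hi => ?_⟩
    by_contra hlt
    refine ht' (Finset.mem_image.2 ⟨i, Finset.mem_range.2 hi, ?_⟩)
    unfold Nat.dist at hlt
    omega
  have hc : Computable fun p => Nat.find (hex p) := c_find (by simp only [P]; fun_prop) hex
  refine ⟨fun p => Nat.pair (p.2.2 + p.2.1) (2 * 2 ^ p.2.1 + 5 * Nat.find (hex p)), by fun_prop,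
    fun ya K k => ?_⟩
  have hs := Nat.find_spec (hex (ya, K, k))
  simp only [Nat.unpair_pair]
  set t := Nat.find (hex (ya, K, k))
  simp only [P, Bool.and_eq_true, Nat.ble_eq, List.all_eq_true, List.mem_range] at hs
  have h1 : (t : ℝ) ≤ 2 ^ K := by exact_mod_cast hs.1.trans Nat.lt_two_pow_self.le
  have h0 : (0 : ℝ) ≤ t := by positivity
  have hp : (0 : ℝ) < 2 ^ k := by positivity
  have hp' : (0 : ℝ) < 2 ^ K := by positivity
  refine ⟨?_, ?_, fun i hi => ?_⟩
  · rw [div_le_div_iff₀ hp (by positivity), pow_add]; push_cast; nlinarith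
  · rw [div_le_div_iff₀ (by positivity) hp, pow_add]; push_cast; nlinarith
  · have h2 : (3 : ℝ) ≤ (Nat.dist (q (i, ya, k + K)) (2 * 2 ^ K + 5 * t) : ℕ) := by
      exact_mod_cast hs.2 i hi
    rw [cast_dist] at h2
    have h3 := ha.scaled i ya (k + K)
    have hp2 : (0 : ℝ) < 2 ^ (k + K) := by positivity
    rw [div_le_iff₀ hp2, ← abs_of_pos hp2, ← abs_mul, abs_of_pos hp2, sub_mul,
      div_mul_cancel₀ _ hp2.ne']
    have := abs_sub_le (q (i, ya, k + K) : ℝ) (d i ya * 2 ^ (k + K)) ((2 * 2 ^ K + 5 * t : ℕ) : ℝ)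
    rw [abs_sub_comm] at h3
    linarith

/-- a fresh point close to a given point of the perfect ball -/
theorem exists_fresh (M : CMS) {q : ℕ × ℕ × ℕ → ℕ} (hq : Computable q)
    (ha : Apx (fun i j => dist (M.c i) (M.c j)) q) {a0 m0 : ℕ}
    (hperf : ∀ x, dist (M.c a0) x < 1 / 2 ^ m0 → ¬ IsOpen ({x} : Set M.carrier)) :
    ∃ fr : ℕ × ℕ × ℕ → ℕ, Computable fr ∧ ∀ a K τ, dist (M.c a0) (M.c a) < 1 / 2 ^ (m0 + 2) →
      dist (M.c a) (M.c (fr (a, K, τ)).unpair.1) ≤ 1 / 2 ^ τ ∧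
      ∀ i < K, 2 / 2 ^ (fr (a, K, τ)).unpair.2 ≤ dist (M.c i) (M.c (fr (a, K, τ)).unpair.1) := by
  classical
  let P : ℕ × ℕ × ℕ → ℕ → Bool := fun p w => Nat.ble 2 (q (a0, p.1, m0 + 2)) ||
    (Nat.ble (q (p.1, w.unpair.1, p.2.2 + 1)) 1 &&
      (List.range p.2.1).all fun i => Nat.ble 3 (q (i, w.unpair.1, w.unpair.2)))
  have hex : ∀ p, ∃ w, P p w = true := by
    rintro ⟨a, K, τ⟩
    simp only [P, Bool.or_eq_true, Bool.and_eq_true, Nat.ble_eq, List.all_eq_true, List.mem_range]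
    by_cases h2 : 2 ≤ q (a0, a, m0 + 2)
    · exact ⟨0, Or.inl h2⟩
    have h3 := ha.le (show q (a0, a, m0 + 2) ≤ 1 by omega)
    have h4 : dist (M.c a0) (M.c a) < 1 / 2 ^ m0 := by
      refine h3.trans_lt ?_
      rw [div_lt_div_iff₀ (by positivity) (by positivity), pow_add]
      have : (0 : ℝ) < 2 ^ m0 := by positivity
      push_cast; linarith
    have hne : (𝓝[≠] (M.c a)).NeBot := by
      rw [neBot_iff, Ne, ← isOpen_singleton_iff_punctured_nhds]
      exact hperf _ h4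
    have hinf := infinite_of_mem_nhds (M.c a)
      (Metric.ball_mem_nhds (M.c a) (show (0 : ℝ) < 1 / 2 ^ (τ + 1) by positivity))
    have hfin : (M.c '' {i | i < K}).Finite := (Set.finite_lt_nat K).image _
    obtain ⟨w, hw1, hw2⟩ := M.dense.exists_mem_open
      (Metric.isOpen_ball.sdiff hfin.isClosed) (hinf.sdiff hfin).nonempty
    have h5 : ∀ᶠ m in atTop, ∀ i ∈ Finset.range K, 3 ≤ q (i, w, m) := by
      rw [eventually_all_finset]
      intro i hi
      have hpos : 0 < dist (M.c i) (M.c w) :=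
        dist_pos.2 fun e => hw2 ⟨i, Finset.mem_range.1 hi, e⟩
      filter_upwards [exists_half_le (show 0 < dist (M.c i) (M.c w) / 4 by positivity)] with m hm
      refine ha.q_ge (m := 3) ?_
      rw [div_eq_mul_one_div]
      push_cast; linarith
    obtain ⟨m, hm⟩ := h5.exists
    refine ⟨Nat.pair w m, Or.inr ?_⟩
    simp only [Nat.unpair_pair]
    refine ⟨ha.q_le (m := 1) ?_, fun i hi => hm i (Finset.mem_range.2 hi)⟩
    rw [dist_comm]; simpa using hw1
  refine ⟨fun p => Nat.find (hex p), c_find (by simp only [P]; fun_prop) hex, fun a K τ h => ?_⟩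
  have hs := Nat.find_spec (hex (a, K, τ))
  simp only
  set w := Nat.find (hex (a, K, τ))
  simp only [P, Bool.or_eq_true, Bool.and_eq_true, Nat.ble_eq, List.all_eq_true,
    List.mem_range] at hs
  have h1 := ha.q_le (m := 1) (by simpa using h)
  obtain ⟨h2, h3⟩ := hs.resolve_left (by omega)
  refine ⟨(ha.le h2).trans (le_of_eq ?_), fun i hi => ?_⟩
  · push_cast; field_simp; ring
  · exact_mod_cast ha.ge (m := 2) (h3 i hi)

end Pool.Agent.MP_55a818_lc.H28
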