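import Mathlib
import Pool.Agent.MP_55a818_lc.H28.Tree4
import Pool.Agent.MP_55a818_lc.H28.Low

/-!
A computable Polish space with a perfect open ball is not categorical relative to a low set.
-/

namespace Pool.Agent.MP_55a818_lc.H28

open Filter Topology

theorem Approx.query {D : Set ℕ} {L : ℕ → Option ℕ} {e n : ℕ} {R : List ℕ × ℕ → Option ℕ}
    (h : (∀ v, L (Nat.pair e n) = some v → ∃ k, R (pre (D.indicator fun _ => 1) k, n) = some v) ∧
      (∀ k, (R (pre (D.indicator fun _ => 1) k, n)).isSome → (L (Nat.pair e n)).isSome))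
    (h1 : ∃ k, (R (pre (D.indicator fun _ => 1) k, n)).isSome) :
    ∃ w k, L (Nat.pair e n) = some w ∧ R (pre (D.indicator fun _ => 1) k, n) = some w := by
  obtain ⟨k, hk⟩ := h1
  obtain ⟨w, hw⟩ := Option.isSome_iff_exists.1 (h.2 k hk)
  obtain ⟨k', hk'⟩ := h.1 w hw
  exact ⟨w, k', hw, hk'⟩

theorem perfect_case {D : Set ℕ} {H : ℕ × ℕ → Option ℕ} {L : ℕ → Option ℕ}
    (hA : Approx (D.indicator fun _ => 1) H L) (M : CMS) {a0 m0 : ℕ}
    (hperf : ∀ x, dist (M.c a0) x < 1 / 2 ^ m0 → ¬ IsOpen ({x} : Set M.carrier)) :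
    ∃ N1 N2 : CMS, Nonempty (N1.carrier ≃ₜ M.carrier) ∧ Nonempty (N2.carrier ≃ₜ M.carrier) ∧
      ∀ f : N1.carrier ≃ₜ N2.carrier, ¬ CompMap D N1 N2 f := by
  obtain ⟨q, hq, ha⟩ : ∃ q : ℕ × ℕ × ℕ → ℕ, Computable q ∧
    Apx (fun i j => dist (M.c i) (M.c j)) q := M.comp
  obtain ⟨fr, hfr, hfr'⟩ := exists_fresh M hq ha hperf
  obtain ⟨cu, hcu, hcu'⟩ := exists_cut hq ha
  let I : Inp := ⟨q, H, a0, m0, fr, cu⟩
  have : I.Comp := ⟨hq, hA.1, hfr, hcu⟩
  set d : ℕ → ℕ → ℝ := fun i j => dist (M.c i) (M.c j) with hd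
  have S : I.Spec d := ⟨isPM_dist _, ha, hfr', hcu'⟩
  have hL : ∀ q, ∀ᶠ s in atTop, I.H (q, s) = L q := hA.2.1
  obtain ⟨p1, u1, u1'⟩ := Inp.D1_spec hL S
  obtain ⟨p2, u2, u2', le2, g2le⟩ := Inp.D2_spec hL S
  obtain ⟨N1, hN1, π1, hπ1⟩ := copy M.dense p1 (Inp.compD_D1 S) u1 u1'
  obtain ⟨N2, hN2, π2, hπ2⟩ := copy M.dense p2 (Inp.compD_D2 S) u2 u2'
  refine ⟨N1, N2, ⟨π1⟩, ⟨π2⟩, fun f hf => ?_⟩
  obtain ⟨Bq, hBq, hs, he⟩ := compMap_query hf
  let T : List ℕ × ℕ → ℕ → Bool := fun p k => (Bq (p.1, a0, k)).isSome &&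
    (Bq (p.1, p.2, k)).isSome &&
    Nat.ble 11 (q (((Bq (p.1, a0, k)).getD 0).unpair.2, ((Bq (p.1, p.2, k)).getD 0).unpair.2, k))
  let R : List ℕ × ℕ → Option ℕ := fun p => cond (p.2.unpair.1 == 0)
    (Bq (p.1, p.2.unpair.2.unpair.1, p.2.unpair.2.unpair.2))
    (((List.range (p.1.length + 1)).find? (T (p.1, p.2.unpair.2))).map fun k =>
      Nat.pair k ((Bq (p.1, a0, k)).getD 0).unpair.2)
  obtain ⟨e, hE⟩ := hA.2.2 R (by simp only [R, T]; fun_prop)
  have Q0 : ∀ a k, ∃ w, L (Nat.pair e (Nat.pair 0 (Nat.pair a k))) = some w ∧ ∀ x,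
      dist x (N1.c a) ≤ 1 / 2 ^ (w.unpair.1 + 1) → dist (N2.c w.unpair.2) (f x) ≤ 1 / 2 ^ k := by
    intro a k
    obtain ⟨w, j, h1, h2⟩ := Approx.query (hE (Nat.pair 0 (Nat.pair a k)))
      (by simpa [R] using (he a k).exists)
    exact ⟨w, h1, hs j a k w (by simpa [R] using h2)⟩
  have lip : ∀ p p', dist (π2 p) (π2 p') ≤ dist p p' := by
    intro p p'
    refine N2.dense.induction_on₂ (p := fun p p' => dist (π2 p) (π2 p') ≤ dist p p')
      (isClosed_le (by fun_prop) (by fun_prop)) (fun i j => ?_) p p'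
    rw [hπ2, hπ2, hN2]; exact le2 i j
  have lip' : ∀ y p, dist (M.c y) (π2 p) ≤ dist (N2.c y) p := fun y p => hπ2 y ▸ lip _ p
  have Q1 : ∀ b, M.c a0 ≠ M.c b → ∃ w, L (Nat.pair e (Nat.pair 1 b)) = some w ∧
      dist (π2 (f (N1.c a0))) (M.c w.unpair.2) ≤ 1 / 2 ^ w.unpair.1 ∧
      9 / 2 ^ w.unpair.1 ≤ dist (π2 (f (N1.c b))) (M.c w.unpair.2) := by
    intro b hb
    have hne : 0 < dist (π2 (f (N1.c a0))) (π2 (f (N1.c b))) := by
      rw [dist_pos]
      intro h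
      apply hb
      rw [← hπ1, ← hπ1, f.injective (π2.injective h)]
    obtain ⟨w, j, h1, h2⟩ := Approx.query (hE (Nat.pair 1 b)) (by
      obtain ⟨k, hk⟩ := (exists_half_le (div_pos hne (show (0 : ℝ) < 14 by norm_num))).exists
      obtain ⟨j, h1, h2, h3⟩ := ((he a0 k).and ((he b k).and (eventually_ge_atTop k))).exists
      refine ⟨j, ?_⟩
      simp only [R, Nat.unpair_pair, Nat.reduceBEq, cond_false, Option.isSome_map,
        List.find?_isSome]
      refine ⟨k, by simp; omega, ?_⟩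
      obtain ⟨w1, hw1⟩ := Option.isSome_iff_exists.1 h1
      obtain ⟨w2, hw2⟩ := Option.isSome_iff_exists.1 h2
      simp only [T, hw1, hw2, Option.isSome_some, Bool.and_self, Option.getD_some, Bool.true_and,
        Nat.ble_eq]
      refine ha.q_ge ?_
      have e1 := (lip' _ _).trans (hs _ _ _ _ hw1 (N1.c a0) (by simp))
      have e2 := (lip' _ _).trans (hs _ _ _ _ hw2 (N1.c b) (by simp))
      have e3 := dist_triangle4 (π2 (f (N1.c a0))) (M.c w1.unpair.2) (M.c w2.unpair.2)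
        (π2 (f (N1.c b)))
      rw [dist_comm] at e1
      rw [div_eq_mul_one_div]
      have : (0 : ℝ) < 1 / 2 ^ k := by positivity
      push_cast
      simp only [hd]
      linarith)
    refine ⟨w, h1, ?_⟩
    simp only [R, Nat.unpair_pair, Nat.reduceBEq, cond_false, Option.map_eq_some_iff] at h2
    obtain ⟨k, h3, rfl⟩ := h2
    have h4 := List.find?_some h3
    simp only [T, Bool.and_eq_true, Nat.ble_eq] at h4
    obtain ⟨⟨h5, h6⟩, h7⟩ := h4
    obtain ⟨w1, hw1⟩ := Option.isSome_iff_exists.1 h5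
    obtain ⟨w2, hw2⟩ := Option.isSome_iff_exists.1 h6
    simp only [hw1, hw2, Option.getD_some, Nat.unpair_pair] at h7 ⊢
    have e1 := (lip' _ _).trans (hs _ _ _ _ hw1 (N1.c a0) (by simp))
    have e2 := (lip' _ _).trans (hs _ _ _ _ hw2 (N1.c b) (by simp))
    have e3 := ha.ge (m := 10) h7
    have e4 := dist_triangle_right (M.c w1.unpair.2) (M.c w2.unpair.2) (π2 (f (N1.c b)))
    rw [div_eq_mul_one_div] at e3
    rw [div_eq_mul_one_div 9, dist_comm, dist_comm (π2 _)]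
    simp only [hd] at e3
    push_cast at e3
    exact ⟨e1, by linarith⟩
  -- the first three nodes of the true path
  have r0 : I.nd (2 * e) = root e := I.nd_even e
  have T0 : I.Tr L (2 * e) := by rw [Inp.Tr, r0]; simp [root]
  obtain ⟨w0, hw0, hb0⟩ := Q0 a0 e
  obtain ⟨t1, m1, T1⟩ := Inp.tr_child hL T0 (w := w0) (by rw [r0]; exact hw0) (by rw [r0]; rfl)
  have k0 : (I.nd (2 * e)).kind = 0 := by rw [r0]; rfl
  obtain ⟨k1, y1, x1, a1, b1, -, -, -⟩ := m1.f0 k0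
  have e1 : (I.nd t1).e = e := by rw [m1.basic.1, r0]; rfl
  obtain ⟨w1, hw1, ua, uc⟩ := Q1 (I.nd t1).c (by
    rw [← dist_pos]
    have := (m1.fresh0 S k0).2 a0 (by have := Inp.B_ge (I := I) t1; change a0 + _ + _ ≤ _ at this; omega)
    exact lt_of_lt_of_le (by linarith [Inp.rr_pos (I := I) (t1 + 1)]) this)
  obtain ⟨t2, m2, T2⟩ := Inp.tr_child hL T1 (w := w1)
    (by rw [Inp.ask, k1, e1]; exact hw1) (by simp [Inp.stop, k1])
  obtain ⟨k2, y2, x2, a2, b2, c2, l2, ya2, j2, num2⟩ := m2.f1 k1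
  have e2 : (I.nd t2).e = e := by rw [m2.basic.1, e1]
  obtain ⟨cu1, cu2, -⟩ := S.cu w1.unpair.2 (I.B t2) w1.unpair.1
  rw [← j2, ← num2] at cu1 cu2
  rw [← ya2] at ua uc
  set r := I.nd t2 with hr
  let v : N1.carrier → ℝ := fun z => 2 ^ r.j * dist (π2 (f z)) (M.c r.ya) - r.num
  have hv : Continuous v := by simp only [v]; fun_prop
  have hj : (0 : ℝ) < 2 ^ r.j := by positivity
  have dich : ∀ z, dist z (N1.c a0) ≤ 4 / 2 ^ r.x → v z ≤ -3 / 2 ∨ 3 / 2 ≤ v z := by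
    intro z hz
    have h1 := hb0 z (hz.trans (by
      have := half_le2 2 (show w0.unpair.1 + 1 + 2 ≤ r.x by omega)
      rw [div_eq_mul_one_div]; linarith))
    have hc : Continuous (Inp.prof r) := by unfold Inp.prof; fun_prop
    have h2 : ∀ p p', |Inp.prof r (dist (π2 p) (M.c r.ya)) - Inp.prof r (dist (π2 p') (M.c r.ya))|
        ≤ dist p p' := by
      intro p p'
      refine N2.dense.induction_on₂ (p := fun p p' => |Inp.prof r (dist (π2 p) (M.c r.ya)) -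
        Inp.prof r (dist (π2 p') (M.c r.ya))| ≤ dist p p')
        (isClosed_le (by fun_prop) (by fun_prop)) (fun i j => ?_) p p'
      have := g2le t2 i j
      rw [hπ2, hπ2, hN2]
      simpa only [Inp.g2, m2.cut k1, cond_true] using this
    have h3 := h2 (N2.c w0.unpair.2) (f z)
    have h4 : I.g2 d t2 w0.unpair.2 = 0 := Inp.g2_old S (by
      have := (Inp.Act.bd (Or.inl k1)).2.2.2.1
      have : I.B (t1 + 1) ≤ I.B t2 := Inp.B_mono m2.lt
      omega)
    simp only [Inp.g2, m2.cut k1, cond_true] at h4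
    rw [hπ2, h4, zero_sub, abs_neg] at h3
    have h5 := (le_abs_self _).trans (h3.trans h1)
    rw [Inp.prof, e2, div_mul_eq_mul_div, div_le_div_iff_of_pos_right (by positivity)] at h5
    have h6 := le_max_right 0 (2 - |v z|)
    have h7 : 3 / 2 ≤ |v z| := by simp only [v] at h6 ⊢; linarith
    rcases le_abs'.1 h7 with h | h
    · left; linarith
    · right; linarith
  let Good : ℕ → Prop := fun t => I.Tr L t ∧ (I.nd t).kind = 2 ∧ (I.nd t).e = e ∧
    (I.nd t).x = r.x ∧ (I.nd t).ya = r.ya ∧ (I.nd t).j = r.j ∧ (I.nd t).num = r.num ∧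
    v (N1.c (I.nd t).a) ≤ -3 / 2 ∧
    ((∀ z, dist z (N1.c (I.nd t).b) ≤ 1 / 2 ^ ((I.nd t).mb + 1) → -3 / 4 ≤ v z) ∨
      0 < v (N1.c (I.nd t).c))
  have G2 : Good t2 := by
    have hk : (0 : ℝ) < 1 / 2 ^ w1.unpair.1 := by positivity
    rw [div_eq_mul_one_div, le_div_iff₀ hj] at cu1
    rw [div_eq_mul_one_div 8, div_le_iff₀ hj] at cu2
    rw [div_eq_mul_one_div] at uc
    refine ⟨T2, k2, e2, rfl, rfl, rfl, rfl, ?_, Or.inr ?_⟩
    · rw [← hr, a2, a1]
      refine (dich _ (by simp only [I, dist_self]; positivity)).resolve_right (not_le.2 ?_)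
      simp only [v]
      nlinarith
    · rw [← hr, c2]
      simp only [v]
      nlinarith
  have step : ∀ t, Good t → ∃ s, Good s ∧ (I.nd s).l = (I.nd t).l + 1 ∧
      dist (N1.c (I.nd t).a) (N1.c (I.nd s).a) ≤ (3 / 4) ^ (I.nd t).l ∧
      -3 / 4 ≤ v (N1.c (I.nd s).b) := by
    rintro t ⟨g1, g2, g3, g4, g5, g6, g7, g8, g9⟩
    obtain ⟨w, hw, hb⟩ := Q0 (I.nd t).c (r.j + 1)
    have iv := Inp.Act.invD S (Or.inr g2)
    have hball : dist (N1.c (I.nd t).c) (N1.c a0) ≤ 4 / 2 ^ r.x := by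
      rw [hN1, p1.comm, ← g4]
      linarith [iv.1, iv.2.2, p1.tri a0 (I.nd t).a (I.nd t).c, lam_pos (I.nd t).x (I.nd t).l]
    have near : ∀ z, dist z (N1.c (I.nd t).c) ≤ 1 / 2 ^ (w.unpair.1 + 1) →
        |v z - (2 ^ r.j * d w.unpair.2 r.ya - r.num)| ≤ 1 / 2 := by
      intro z hz
      have h1 := (lip' _ _).trans (hb z hz)
      have h2 := abs_dist_sub_le (π2 (f z)) (M.c w.unpair.2) (M.c r.ya)
      rw [dist_comm] at h1
      simp only [v, hd]
      rw [sub_sub_sub_cancel_right, ← mul_sub, abs_mul, abs_of_pos hj]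
      calc _ ≤ (2 : ℝ) ^ r.j * (1 / 2 ^ (r.j + 1)) := by gcongr; exact h2.trans h1
        _ = _ := by field_simp; ring
    have sc := abs_le.1 (ha.scaled w.unpair.2 r.ya (r.j + 2))
    rw [pow_add] at sc
    have key : v (N1.c (I.na (I.nd t) w)) ≤ -3 / 2 ∧ ∀ z,
        dist z (N1.c (I.nb (I.nd t) w)) ≤ 1 / 2 ^ (I.nm (I.nd t) w + 1) → -3 / 4 ≤ v z := by
      rcases Inp.na_nb (I := I) (I.nd t) w with ⟨ty, f1, f2, f3⟩ | ⟨ty, f1, f2, f3⟩ <;>
        rw [f1, f2, f3]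
      · simp only [Inp.ty0, Nat.blt_eq, g5, g6, g7] at ty
        have ty' : (q (w.unpair.2, r.ya, r.j + 2) : ℝ) + 1 ≤ 4 * r.num := by exact_mod_cast ty
        have h1 := abs_le.1 (near (N1.c (I.nd t).c) (by simp))
        have h2 : v (N1.c (I.nd t).c) ≤ -3 / 2 :=
          (dich _ hball).resolve_right (not_le.2 (by nlinarith [h1.2, sc.2]))
        exact ⟨h2, g9.resolve_right (by linarith)⟩
      · rw [← Bool.not_eq_true] at ty
        simp only [Inp.ty0, Nat.blt_eq, g5, g6, g7, not_lt] at ty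
        have ty' : (4 : ℝ) * r.num ≤ q (w.unpair.2, r.ya, r.j + 2) := by exact_mod_cast ty
        refine ⟨g8, fun z hz => ?_⟩
        have h1 := abs_le.1 (near z hz)
        nlinarith [h1.1, sc.1]
    obtain ⟨s, ms, Ts⟩ := Inp.tr_child hL g1 (w := w) (by rw [Inp.ask, g2, g3, g6]; exact hw) (by
      rw [← Bool.not_eq_true, Inp.stop_iff]
      rintro ⟨-, h⟩
      have := key.2 (N1.c (I.na (I.nd t) w)) (by rw [hN1]; exact (iv.na p1 w).1.trans h)
      linarith [key.1])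
    obtain ⟨f1, -, f3, f4, f5, f6, f7, f8, f9, f10, -⟩ := ms.f2 g2
    refine ⟨s, ⟨Ts, f1, ms.basic.1.trans g3, f3.trans g4, f8.trans g5, f9.trans g6, f10.trans g7,
      f4 ▸ key.1, Or.inl (by rw [f5, f6]; exact key.2)⟩, f7, ?_, ?_⟩
    · rw [hN1, f4]
      rcases Inp.na_nb (I := I) (I.nd t) w with ⟨-, f1, -⟩ | ⟨-, f1, -⟩ <;> rw [f1]
      · exact iv.1.trans (lam_le' _ _)
      · rw [p1.self]; positivity
    · rw [f5]; exact key.2 _ (by simp)
  choose nx hnx using step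
  let P : ℕ → {t // Good t} := fun k =>
    Nat.rec ⟨t2, G2⟩ (fun _ t => ⟨nx t.1 t.2, (hnx t.1 t.2).1⟩) k
  have hP : ∀ k, (P (k + 1)).1 = nx (P k).1 (P k).2 := fun _ => rfl
  have hl : ∀ k, (I.nd (P k).1).l = k := by
    intro k
    induction k with
    | zero => exact l2
    | succ k ih => rw [hP, (hnx _ _).2.1, ih]
  have hc : CauchySeq fun k => N1.c (I.nd (P k).1).a := by
    refine cauchySeq_of_le_geometric (3 / 4) 1 (by norm_num) fun k => ?_
    have := (hnx (P k).1 (P k).2).2.2.1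
    rw [hl] at this
    rw [one_mul, hP]; exact this
  obtain ⟨z, hz⟩ := cauchySeq_tendsto_of_complete hc
  have hz' : Tendsto (fun k => N1.c (I.nd (P k).1).b) atTop (𝓝 z) := by
    refine hz.congr_dist (squeeze_zero (g := fun k => 2 * (3 / 4 : ℝ) ^ k)
      (fun _ => dist_nonneg) (fun k => ?_) ?_)
    · have iv := Inp.Act.invD S (Or.inr (P k).2.2.1)
      have := lam_le' (I.nd (P k).1).x (I.nd (P k).1).l
      rw [hN1, ← hl k]
      rw [hl k]
      linarith [iv.1, iv.2.1, p1.tri (I.nd (P k).1).a (I.nd (P k).1).c (I.nd (P k).1).b,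
        show ((3 : ℝ) / 4) ^ (I.nd (P k).1).l = (3 / 4) ^ k by rw [hl]]
    · simpa using (tendsto_pow_atTop_nhds_zero_of_lt_one (r := (3 / 4 : ℝ)) (by norm_num)
        (by norm_num)).const_mul 2
  have h1 : v z ≤ -3 / 2 :=
    le_of_tendsto' ((hv.tendsto z).comp hz) fun k => (P k).2.2.2.2.2.2.2.2.1
  have h2 : -3 / 4 ≤ v z :=
    ge_of_tendsto' ((hv.tendsto z).comp (hz'.comp (tendsto_add_atTop_nat 1))) fun k =>
      (hnx (P k).1 (P k).2).2.2.2
  linarith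

end Pool.Agent.MP_55a818_lc.H28
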