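import Mathlib
import Pool.Agent.MP_55a818_lc.H28.IsoCase
import Pool.Agent.MP_55a818_lc.H28.Tree5

/-!
No infinite computable Polish space is categorical relative to a low set, and finite spaces are
computably categorical.
-/

namespace Pool.Agent.MP_55a818_lc.H28

open Filter Topology Set

theorem categ_finite (A : Set ℕ) (X : Type) [TopologicalSpace X] [Finite X] : Categ A X := by
  classical
  rintro M N ⟨eM⟩ ⟨eN⟩
  have : Finite M.carrier := eM.toEquiv.finite_iff.2 inferInstance
  have : Finite N.carrier := eN.toEquiv.finite_iff.2 inferInstance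
  let f := eM.trans eN.symm
  obtain ⟨q, hq, ha⟩ := M.apx
  obtain ⟨n, hn⟩ : ∃ n : ℕ, ∀ x y : M.carrier, dist x y ≤ 2 / 2 ^ n → x = y := by
    have : ∀ᶠ n : ℕ in atTop, ∀ p : M.carrier × M.carrier, dist p.1 p.2 ≤ 2 / 2 ^ n → p.1 = p.2 := by
      rw [eventually_all]
      intro p
      by_cases h : p.1 = p.2
      · exact Eventually.of_forall fun _ _ => h
      · filter_upwards [exists_half_le (div_pos (dist_pos.2 h) (show (0 : ℝ) < 4 by norm_num))]
          with n hn h'
        rw [div_eq_mul_one_div 2] at h'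
        linarith [dist_pos.2 h]
    obtain ⟨n, hn⟩ := this.exists
    exact ⟨n, fun x y => hn (x, y)⟩
  let l : List (ℕ × ℕ) := (Fintype.ofFinite M.carrier).elems.toList.map fun x =>
    (Function.surjInv M.surj x, Function.surjInv N.surj (f x))
  let φ : ℕ → ℕ := fun i => ((l.find? fun p => Nat.ble (q (i, p.1, n)) 1).map fun p => p.2).getD 0
  have hφc : Computable φ := by simp only [φ]; fun_prop
  have hφ : ∀ i, N.c (φ i) = f (M.c i) := by
    intro i
    have : (l.find? fun p => Nat.ble (q (i, p.1, n)) 1).isSome := by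
      rw [List.find?_isSome]
      refine ⟨_, List.mem_map.2 ⟨M.c i, by simp [Fintype.complete], rfl⟩, ?_⟩
      rw [Nat.ble_eq]
      exact ha.q_le (m := 1) (by simp [Function.surjInv_eq])
    obtain ⟨p, hp⟩ := Option.isSome_iff_exists.1 this
    have h1 := List.find?_some hp
    obtain ⟨x, -, rfl⟩ := List.mem_map.1 (List.mem_of_find?_eq_some hp)
    simp only [Nat.ble_eq] at h1
    have h2 := ha.le h1
    simp only [Function.surjInv_eq] at h2
    simp only [φ, hp, Option.map_some, Option.getD_some, Function.surjInv_eq]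
    rw [hn (M.c i) x (by norm_num at h2; exact h2)]
  refine ⟨f, fun u => (u[n]?.map fun a => List.replicate u.length (φ a)).getD [],
    Computable.computableIn (by fun_prop), ?_, ?_⟩
  · intro u v huv
    cases hu : u[n]? with
    | none => simp [hu]
    | some a =>
      simp only [hu, prefix_getElem? huv hu, Option.map_some, Option.getD_some]
      exact replicate_le huv.length_le _
  · intro p x hp
    have hx : M.c (p n) = x := hn _ _ ((hp.dist_le n).trans (by gcongr; norm_num))
    refine ⟨fun _ => φ (p n), ?_, fun m => ⟨max m (n + 1), ?_⟩⟩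
    · rw [← hx, ← hφ]; exact isName_const N _
    · have : ((List.range (max m (n + 1))).map p)[n]? = some (p n) := by simp
      simp only [this, Option.map_some, Option.getD_some, List.map_const', List.length_range,
        List.length_map]
      exact replicate_le (le_max_left _ _) _

theorem finite_of_categ {D : Set ℕ} {H : ℕ × ℕ → Option ℕ} {L : ℕ → Option ℕ}
    (hA : Approx (D.indicator fun _ => 1) H L) {X : Type} [TopologicalSpace X]
    (hX : CompPolish X) (hc : Categ D X) : Finite X := by
  obtain ⟨M, ⟨e⟩⟩ := hX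
  by_contra hinf
  have : Infinite M.carrier := e.toEquiv.infinite_iff.2 (not_finite_iff_infinite.1 hinf)
  by_cases hd : Dense (Iso M.carrier)
  · rcases eq_empty_or_nonempty (Iso M.carrier)ᶜ with hne | hne
    · have : DiscreteTopology M.carrier := discreteTopology_iff_isOpen_singleton.2 fun x => by
        have : x ∈ Iso M.carrier := by rw [compl_empty_iff.1 hne]; trivial
        exact this
      obtain ⟨e'⟩ := M.homeo_nat
      refine hA.not_halt (halt_le_of_categ ?_)
      rintro N1 N2 ⟨e1⟩ ⟨e2⟩
      exact hc N1 N2 ⟨e1.trans (e'.symm.trans e)⟩ ⟨e2.trans (e'.symm.trans e)⟩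
    · obtain ⟨N1, N2, ⟨e1⟩, ⟨e2⟩, h⟩ := iso_case M hd hne
      obtain ⟨f, hf⟩ := hc N1 N2 ⟨e1.trans e⟩ ⟨e2.trans e⟩
      exact hA.not_halt (h D f hf)
  · rw [Metric.dense_iff] at hd
    push Not at hd
    obtain ⟨x, r, hr, hx⟩ := hd
    obtain ⟨m0, hm0⟩ := (exists_half_le (half_pos hr)).exists
    obtain ⟨a0, ha0⟩ := M.dense.exists_dist_lt x (half_pos hr)
    obtain ⟨N1, N2, ⟨e1⟩, ⟨e2⟩, h⟩ := perfect_case hA M (a0 := a0) (m0 := m0) (by
      intro y hy hI
      have : y ∈ Metric.ball x r ∩ Iso M.carrier :=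
        ⟨by rw [Metric.mem_ball, dist_comm]; linarith [dist_triangle x (M.c a0) y], hI⟩
      rw [hx] at this
      exact this)
    obtain ⟨f, hf⟩ := hc N1 N2 ⟨e1.trans e⟩ ⟨e2.trans e⟩
    exact h f hf

theorem computablePred_of_le_empty {D : Set ℕ} (h : TuringReducible (chi D) (chi ∅)) :
    ComputablePred (· ∈ D) := by
  have e : chi ∅ = fun _ => Part.some 0 := by funext n; simp [chi]
  rw [e] at h
  have h1 : Computable (D.indicator fun _ => 1 : ℕ → ℕ) := h.partrec_of_const
  refine ComputablePred.computable_iff.2 ⟨fun n => D.indicator (fun _ => 1) n == 1,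
    by fun_prop, ?_⟩
  funext n
  by_cases hn : n ∈ D <;> simp [hn]

theorem exists_ce_not_degCat : ∃ D : Set ℕ, REPred (· ∈ D) ∧
    ∀ (X : Type) [TopologicalSpace X], CompPolish X → ¬ IsDegCat D X := by
  obtain ⟨D, h1, h2, H, L, hA⟩ := exists_low
  refine ⟨D, h1, fun X _ hX hD => h2 ?_⟩
  have := finite_of_categ hA hX hD.1
  exact computablePred_of_le_empty (hD.2 ∅ (categ_finite ∅ X))

end Pool.Agent.MP_55a818_lc.H28
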